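import Pool.Agent.L5helper26.RO.Mk

/-!
Absolute values of number fields: every nontrivial non-archimedean one is a power of a standard one.
-/

set_option autoImplicit false
set_option linter.unusedSectionVars false

open MvPolynomial

namespace Pool.Agent.L5helper26.RO

open NumberField Height Module IsDedekindDomain
open Pool.Agent.W180.OP (Pl av wt nrm le_nrm nrm_pos nrm_nonneg exists_nrm nrm_le cs cs_nonneg abv_mv)

variable {k : Type} [Field k] [NumberField k]

theorem na_int (f : AbsoluteValue k ℝ) (hf : IsNonarchimedean f) (x : 𝓞 k) :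
    f (algebraMap (𝓞 k) k x) ≤ 1 := by
  have hint : ∀ m : ℤ, f (m : k) ≤ 1 := by
    have hnat : ∀ m : ℕ, f (m : k) ≤ 1 := by
      intro m
      induction m with
      | zero => rw [Nat.cast_zero, map_zero]; exact zero_le_one
      | succ m ih =>
        rw [Nat.cast_succ]
        exact (hf _ _).trans (max_le ih (by rw [map_one]))
    intro m
    rcases Int.natAbs_eq m with h | h
    · rw [h, Int.cast_natCast]
      exact hnat _
    · rw [h, Int.cast_neg, Int.cast_natCast, AbsoluteValue.map_neg]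
      exact hnat _
  by_contra hlt
  push Not at hlt
  obtain ⟨p, hp, hpx⟩ := x.2
  set z : k := algebraMap (𝓞 k) k x with hz
  have hpz : p.eval₂ (algebraMap ℤ k) z = 0 := hpx
  set n := p.natDegree with hn
  have h1 : z ^ n = -∑ i ∈ Finset.range n, (p.coeff i : k) * z ^ i := by
    rw [Polynomial.eval₂_eq_sum_range, Finset.sum_range_succ, ← hn] at hpz
    have h2 : p.coeff n = 1 := hp
    rw [h2, map_one, one_mul] at hpz
    have h3 : ∑ i ∈ Finset.range n, (algebraMap ℤ k) (p.coeff i) * z ^ i =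
        ∑ i ∈ Finset.range n, (p.coeff i : k) * z ^ i :=
      Finset.sum_congr rfl fun i _ => by rw [eq_intCast]
    rw [h3] at hpz
    linear_combination hpz
  rcases Nat.eq_zero_or_pos n with h0 | h0
  · rw [h0] at h1
    simp at h1
  have h2 : f (z ^ n) ≤ f z ^ (n - 1) := by
    rw [h1, AbsoluteValue.map_neg]
    refine Pool.Agent.R847.HG.na_sum_le hf _ _ _ (pow_nonneg (f.nonneg _) _) fun i hi => ?_
    rw [map_mul, map_pow]
    calc f (p.coeff i : k) * f z ^ i ≤ 1 * f z ^ i :=
          mul_le_mul_of_nonneg_right (hint _) (pow_nonneg (f.nonneg _) _)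
      _ = f z ^ i := one_mul _
      _ ≤ f z ^ (n - 1) := pow_le_pow_right₀ hlt.le (by have := Finset.mem_range.1 hi; omega)
  rw [map_pow] at h2
  obtain ⟨m, hm⟩ : ∃ m, n = m + 1 := ⟨n - 1, by omega⟩
  rw [hm, Nat.add_sub_cancel, pow_succ] at h2
  have h3 : 0 < f z ^ m := pow_pos (zero_lt_one.trans hlt) _
  nlinarith

theorem exists_place (f : AbsoluteValue k ℝ) (hf : IsNonarchimedean f) (hnt : f.IsNontrivial) :
    ∃ (v : Pl k) (s : ℝ), 0 < s ∧ ∀ x, f x = av v x ^ s := by
  classical
  have hle := na_int f hf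
  let P : Ideal (𝓞 k) :=
    { carrier := {x | f (algebraMap (𝓞 k) k x) < 1}
      add_mem' := fun {a b} ha hb => by
        change f (algebraMap (𝓞 k) k (a + b)) < 1
        rw [map_add]
        exact (hf _ _).trans_lt (max_lt ha hb)
      zero_mem' := by
        change f (algebraMap (𝓞 k) k 0) < 1
        rw [map_zero, map_zero]
        exact zero_lt_one
      smul_mem' := fun c {a} ha => by
        change f (algebraMap (𝓞 k) k (c * a)) < 1
        rw [map_mul, map_mul]
        have ha : f (algebraMap (𝓞 k) k a) < 1 := ha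
        exact (mul_le_mul_of_nonneg_right (hle c) (f.nonneg _)).trans_lt (by rwa [one_mul]) }
  have hP : ∀ x, x ∈ P ↔ f (algebraMap (𝓞 k) k x) < 1 := fun x => Iff.rfl
  have hprime : P.IsPrime := by
    refine ⟨?_, ?_⟩
    · rw [Ne, Ideal.eq_top_iff_one, hP, map_one, map_one]
      exact lt_irrefl _
    · intro a b hab
      rw [hP, map_mul, map_mul] at hab
      rw [hP, hP]
      by_contra hcon
      push Not at hcon
      have h1 : f (algebraMap (𝓞 k) k a) = 1 := le_antisymm (hle a) hcon.1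
      have h2 : f (algebraMap (𝓞 k) k b) = 1 := le_antisymm (hle b) hcon.2
      rw [h1, h2, one_mul] at hab
      exact lt_irrefl _ hab
  have hPbot : P ≠ ⊥ := by
    intro hbot
    obtain ⟨x, hx0, hx1⟩ := hnt
    obtain ⟨a, b, hb, hab⟩ := IsFractionRing.div_surjective (A := 𝓞 k) x
    have hb0 : b ≠ 0 := nonZeroDivisors.ne_zero hb
    have hone : ∀ c : 𝓞 k, c ≠ 0 → f (algebraMap (𝓞 k) k c) = 1 := by
      intro c hc
      refine le_antisymm (hle c) ?_
      by_contra hlt
      push Not at hlt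
      have : c ∈ P := hlt
      rw [hbot] at this
      exact hc (by simpa using this)
    have ha0 : a ≠ 0 := by
      rintro rfl
      apply hx0
      rw [← hab, map_zero, zero_div]
    apply hx1
    rw [← hab, map_div₀, hone a ha0, hone b hb0, div_one]
  let v : HeightOneSpectrum (𝓞 k) := ⟨P, hprime, hPbot⟩
  have hnt' : f.IsNontrivial := hnt
  have heq : f.IsEquiv (av (Sum.inr v : Pl k)) := by
    refine AbsoluteValue.isEquiv_of_lt_one_imp hnt' fun x hx => ?_
    have hfv : ∀ c : 𝓞 k, c ∉ P → av (Sum.inr v : Pl k) (algebraMap (𝓞 k) k c) = 1 ∧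
        f (algebraMap (𝓞 k) k c) = 1 := by
      intro c hc
      refine ⟨(FinitePlace.norm_eq_one_iff_notMem k v c).2 hc, le_antisymm (hle c) ?_⟩
      by_contra hlt
      push Not at hlt
      exact hc hlt
    obtain ⟨n, t, h | h⟩ := v.exists_primeCompl_mul_eq_or_mul_eq (K := k) x
    · obtain ⟨h1, h2⟩ := hfv t t.2
      have h3 := congrArg f h
      have h4 := congrArg (av (Sum.inr v : Pl k)) h
      rw [map_mul, h2, mul_one] at h3
      rw [map_mul, h1, mul_one] at h4
      rw [h4]
      exact (FinitePlace.norm_lt_one_iff_mem k v n).2 (by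
        change f (algebraMap (𝓞 k) k n) < 1
        rw [← h3]
        exact hx)
    · exfalso
      obtain ⟨h1, h2⟩ := hfv t t.2
      have h3 := congrArg f h
      rw [map_mul, h2] at h3
      have h4 : f x * f (algebraMap (𝓞 k) k n) < 1 := by
        calc f x * f (algebraMap (𝓞 k) k n) ≤ f x * 1 :=
              mul_le_mul_of_nonneg_left (hle n) (f.nonneg _)
          _ < 1 := by rw [mul_one]; exact hx
      rw [h3] at h4
      exact lt_irrefl _ h4
  obtain ⟨c, hc, h⟩ := AbsoluteValue.isEquiv_iff_exists_rpow_eq.1 heq.symm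
  exact ⟨Sum.inr v, c, hc, fun x => (congrFun h x).symm⟩

theorem nrm_rpow (v : Pl k) (f : AbsoluteValue k ℝ) (s : ℝ) (hs : 0 < s)
    (h : ∀ x, f x = av v x ^ s) (x : Fin 2 → k) : nrm f x = nrm (av v) x ^ s := by
  obtain ⟨i, hi⟩ := exists_nrm f (by norm_num) x
  obtain ⟨j, hj⟩ := exists_nrm (av v) (by norm_num) x
  apply le_antisymm
  · rw [← hi, h]
    exact Real.rpow_le_rpow ((av v).nonneg _) (le_nrm _ _ _) hs.le
  · rw [← hj, ← h]
    exact le_nrm _ _ _

/-- Escape at a power of a place. -/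
theorem esc_rpow (v : Pl k) (f : AbsoluteValue k ℝ) (s : ℝ) (hs : 0 < s)
    (h : ∀ x, f x = av v x ^ s) {x : ℕ → Fin 2 → k} {y : ℕ → k} {d n0 : ℕ} {c : ℝ} (hc : 0 < c)
    (hes : ∀ n, n0 ≤ n → Real.exp (c * d ^ n) * nrm f (x n) ≤ f (y n)) :
    ∃ c' : ℝ, 0 < c' ∧ ∀ n, n0 ≤ n →
      Real.exp (c' * d ^ n) * nrm (av v) (x n) ≤ av v (y n) := by
  refine ⟨c / s, div_pos hc hs, fun n hn => ?_⟩
  have h1 := hes n hn
  rw [nrm_rpow v f s hs h, h] at h1
  have h2 : Real.exp (c * d ^ n) = (Real.exp (c / s * d ^ n)) ^ s := by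
    rw [← Real.exp_mul]
    congr 1
    field_simp
  rw [h2, ← Real.mul_rpow (Real.exp_pos _).le (nrm_nonneg _ _)] at h1
  exact (Real.rpow_le_rpow_iff (mul_nonneg (Real.exp_pos _).le (nrm_nonneg _ _))
    ((av v).nonneg _) hs).1 h1

end Pool.Agent.L5helper26.RO
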