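import Pool.Agent.L5helper26.RO.Loc
import Pool.Agent.R847.HG.Glob

/-!
Elimination: common zeros of forms without common factor.
-/

set_option autoImplicit false
set_option linter.unusedSectionVars false

namespace Pool.Agent.L5helper26.RO

section

open Polynomial

/-- Elimination of one variable. -/
theorem elim {S : Type} [CommRing S] [IsDomain S] [UniqueFactorizationMonoid S]
    {p q : S[X]} (hirr : Irreducible p) (hq : ¬ p ∣ q) :
    ∃ A B : S[X], ∃ R : S, R ≠ 0 ∧ A * p + B * q = C R := by
  classical
  let _ : StrongNormalizationMonoid S := UniqueFactorizationMonoid.strongNormalizationMonoid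
  let _ : StrongNormalizedGCDMonoid S := UniqueFactorizationMonoid.toStrongNormalizedGCDMonoid S
  by_cases hdeg : p.natDegree = 0
  · refine ⟨1, 0, p.coeff 0, ?_, ?_⟩
    · intro h
      have := eq_C_of_natDegree_eq_zero hdeg
      rw [h, map_zero] at this
      exact hirr.ne_zero this
    · rw [one_mul, zero_mul, add_zero]
      exact eq_C_of_natDegree_eq_zero hdeg
  · have hprim : p.IsPrimitive := hirr.isPrimitive hdeg
    have hirr2 := (hprim.irreducible_iff_irreducible_map_fraction_map
      (K := FractionRing S)).mp hirr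
    have hnd : ¬ p.map (algebraMap S (FractionRing S))
        ∣ q.map (algebraMap S (FractionRing S)) := by
      rintro ⟨g, hg⟩
      have h1 : p.map (algebraMap S (FractionRing S)) * g ∈ lifts (algebraMap S (FractionRing S)) := by
        rw [← hg]; exact ⟨q, rfl⟩
      have h2 : g ∈ lifts (algebraMap S (FractionRing S)) :=
        (hprim.map_mul_mem_lifts_iff (K := FractionRing S)).1 h1
      obtain ⟨g', hg'⟩ := h2
      apply hq
      refine ⟨g', map_injective _ (IsFractionRing.injective S (FractionRing S)) ?_⟩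
      rw [Polynomial.map_mul, hg]
      congr 1
      exact hg'.symm
    have hcop := (hirr2.coprime_iff_not_dvd).mpr hnd
    obtain ⟨a, b, hab⟩ := hcop
    obtain ⟨c, c0, hc⟩ := IsLocalization.integerNormalization_spec (nonZeroDivisors S) a
    obtain ⟨d, d0, hd⟩ := IsLocalization.integerNormalization_spec (nonZeroDivisors S) b
    rw [mem_nonZeroDivisors_iff_ne_zero] at c0 d0
    refine ⟨C d * IsLocalization.integerNormalization (nonZeroDivisors S) a,
      C c * IsLocalization.integerNormalization (nonZeroDivisors S) b, c * d,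
      mul_ne_zero c0 d0, ?_⟩
    apply map_injective (algebraMap S (FractionRing S))
      (IsFractionRing.injective _ _)
    rw [Polynomial.map_add, Polynomial.map_mul, Polynomial.map_mul, Polynomial.map_mul,
      Polynomial.map_mul, hc, hd, map_C, map_C, map_C, Algebra.smul_def, Algebra.smul_def,
      Polynomial.algebraMap_apply, Polynomial.algebraMap_apply, map_mul, map_mul]
    linear_combination (C (algebraMap S (FractionRing S) c)
      * C (algebraMap S (FractionRing S) d)) * hab

end

open MvPolynomial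

variable {k : Type} [Field k]

/-- factors of homogeneous polynomials are homogeneous (following `Chud.PD1`) -/
theorem homog_of_dvd {σ : Type} [Finite σ] {F G : MvPolynomial σ k} {n : ℕ}
    (hF : F.IsHomogeneous n) (hF0 : F ≠ 0) (h : G ∣ F) : G.IsHomogeneous G.totalDegree := by
  obtain ⟨K, rfl⟩ := h
  have hG0 : G ≠ 0 := left_ne_zero_of_mul hF0
  have hK0 : K ≠ 0 := right_ne_zero_of_mul hF0
  have hle : ∀ P : MvPolynomial σ k, P ≠ 0 → (P : MvPowerSeries σ k).order ≤ P.totalDegree := by
    intro P hP
    obtain ⟨d, hd⟩ := MvPolynomial.ne_zero_iff.1 hP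
    have h1 : (P : MvPowerSeries σ k).order ≤ (d.degree : ℕ∞) :=
      MvPowerSeries.order_le (by simpa using hd)
    refine h1.trans ?_
    have h2 : d.degree ≤ P.totalDegree := by
      have := MvPolynomial.le_totalDegree (p := P) (s := d) (MvPolynomial.mem_support_iff.2 hd)
      simpa [Finsupp.degree_apply, Finsupp.sum] using this
    exact_mod_cast h2
  have hmul : ((G * K : MvPolynomial σ k) : MvPowerSeries σ k).order =
      (G : MvPowerSeries σ k).order + (K : MvPowerSeries σ k).order := by
    rw [MvPolynomial.coe_mul, MvPowerSeries.order_mul]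
  have hFo : (n : ℕ∞) ≤ ((G * K : MvPolynomial σ k) : MvPowerSeries σ k).order := by
    apply MvPowerSeries.nat_le_order
    intro d hd
    rw [MvPolynomial.coeff_coe]
    by_contra hne
    have := hF hne
    have h' : d.degree = n := by rw [← this, Finsupp.degree_eq_weight_one]; rfl
    omega
  have hT : (G * K).totalDegree = n := hF.totalDegree hF0
  rw [MvPolynomial.totalDegree_mul_of_isDomain hG0 hK0] at hT
  have hGo := hle G hG0
  have hKo := hle K hK0
  rw [hmul] at hFo
  intro d hd
  have h1 : (G : MvPowerSeries σ k).order ≤ (d.degree : ℕ∞) :=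
      MvPowerSeries.order_le (by simpa using hd)
  have h2 : d.degree ≤ G.totalDegree := by
      have := MvPolynomial.le_totalDegree (p := G) (s := d) (MvPolynomial.mem_support_iff.2 hd)
      simpa [Finsupp.degree_apply, Finsupp.sum] using this
  have h3 : (n : ℕ∞) ≤ (d.degree : ℕ∞) + (K.totalDegree : ℕ∞) := hFo.trans (add_le_add h1 hKo)
  have h4 : n ≤ d.degree + K.totalDegree := by exact_mod_cast h3
  have h5 : d.degree = G.totalDegree := by omega
  rw [← h5, Finsupp.degree_eq_weight_one]
  rfl

theorem vc_smul (t y : k) (x : Fin 2 → k) : vc (t * y) (fun i => t * x i) = fun i => t * vc y x i := by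
  funext i
  refine Fin.cases rfl (fun j => rfl) i

theorem hom_eval3 {n : ℕ} {f : MvPolynomial (Fin 3) k}
    (hf : f.IsHomogeneous n) (s : k) (v : Fin 3 → k) :
    eval (fun i => s * v i) f = s ^ n * eval v f := by
  rw [eval_eq, eval_eq, Finset.mul_sum]
  apply Finset.sum_congr rfl
  intro κ hκ
  have hdeg : κ.degree = n := by
    have := hf (mem_support_iff.1 hκ)
    rw [Finsupp.degree_eq_weight_one]; exact this
  rw [Finset.prod_congr rfl fun j _ => mul_pow s _ (κ j), Finset.prod_mul_distrib,
    Finset.prod_pow_eq_pow_sum]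
  have h4 : ∑ j ∈ κ.support, κ j = n := hdeg
  rw [h4]
  ring

/-- An identity which shows that two forms have few common zeros. -/
def Idn {K : Type} [CommRing K] (p G : MvPolynomial (Fin 3) K) : Prop :=
  ∃ (U V : MvPolynomial (Fin 3) K) (R : MvPolynomial (Fin 2) K), R ≠ 0 ∧
    U * p + V * G = rename Fin.succ R

theorem fse_rename (R : MvPolynomial (Fin 2) k) :
    finSuccEquiv k 2 (rename Fin.succ R) = Polynomial.C R := by
  have h : ((finSuccEquiv k 2).toAlgHom.toRingHom).comp
      (rename Fin.succ : MvPolynomial (Fin 2) k →ₐ[k] MvPolynomial (Fin 3) k).toRingHom =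
      Polynomial.C := by
    apply MvPolynomial.ringHom_ext
    · intro c
      change finSuccEquiv k 2 (rename Fin.succ (C c)) = Polynomial.C (C c)
      rw [rename_C, finSuccEquiv_apply, eval₂Hom_C]
      rfl
    · intro i
      change finSuccEquiv k 2 (rename Fin.succ (X i)) = Polynomial.C (X i)
      rw [rename_X, finSuccEquiv_X_succ]
  exact DFunLike.congr_fun h R

theorem exists_idn {p G : MvPolynomial (Fin 3) k} (hirr : Irreducible p) (hnd : ¬ p ∣ G) :
    Idn p G := by
  have h1 : Irreducible (finSuccEquiv k 2 p) :=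
    (MulEquiv.irreducible_iff (finSuccEquiv k 2).toRingEquiv.toMulEquiv).2 hirr
  have h2 : ¬ finSuccEquiv k 2 p ∣ finSuccEquiv k 2 G := by
    rintro ⟨B, hB⟩
    apply hnd
    refine ⟨(finSuccEquiv k 2).symm B, ?_⟩
    apply (finSuccEquiv k 2).injective
    rw [hB, map_mul, AlgEquiv.apply_symm_apply]
  obtain ⟨A, B, R, hR, hAB⟩ := elim h1 h2
  refine ⟨(finSuccEquiv k 2).symm A, (finSuccEquiv k 2).symm B, R, hR, ?_⟩
  apply (finSuccEquiv k 2).injective
  rw [map_add, map_mul, map_mul, AlgEquiv.apply_symm_apply, AlgEquiv.apply_symm_apply, hAB,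
    fse_rename]

/-- The common zeros of two forms without common factor lie over the zeros of a binary form. -/
theorem common_idn [Infinite k] {D E : ℕ} {p G : MvPolynomial (Fin 3) k} (hp : p.IsHomogeneous D)
    (hG : G.IsHomogeneous E) (hid : Idn p G) :
    ∃ (r : MvPolynomial (Fin 2) k) (j : ℕ), r.IsHomogeneous j ∧ r ≠ 0 ∧
      ∀ (x : Fin 2 → k) (y : k), eval (vc y x) p = 0 → eval (vc y x) G = 0 → eval x r = 0 := by
  classical
  obtain ⟨U, V, R, hR, hUV⟩ := hid
  have h3 : ∀ (x : Fin 2 → k) (y : k), eval (vc y x) p = 0 → eval (vc y x) G = 0 →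
      eval x R = 0 := by
    intro x y hp0 hG0
    have h4 := congrArg (eval (vc y x)) hUV
    rw [map_add, map_mul, map_mul, hp0, hG0, mul_zero, mul_zero, add_zero, eval_rename] at h4
    exact h4.symm
  obtain ⟨j, hj⟩ : ∃ j, homogeneousComponent j R ≠ 0 := by
    by_contra hcon
    push Not at hcon
    apply hR
    rw [← sum_homogeneousComponent R]
    exact Finset.sum_eq_zero fun i _ => hcon i
  refine ⟨homogeneousComponent j R, j, homogeneousComponent_isHomogeneous j R, hj,
    fun x y hp0 hG0 => ?_⟩
  have h4 := Pool.Agent.R847.HG.eval_component R (x 0) (x 1) (fun t => by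
    have e : (![t * x 0, t * x 1] : Fin 2 → k) = fun i => t * x i := by
      funext i
      fin_cases i <;> rfl
    rw [e]
    apply h3 _ (t * y)
    · rw [vc_smul, hom_eval3 hp, hp0, mul_zero]
    · rw [vc_smul, hom_eval3 hG, hG0, mul_zero]) j
  have e : (![x 0, x 1] : Fin 2 → k) = x := by
    funext i
    fin_cases i <;> rfl
  rwa [e] at h4

theorem common [Infinite k] {D E : ℕ} {p G : MvPolynomial (Fin 3) k} (hp : p.IsHomogeneous D)
    (hG : G.IsHomogeneous E) (hirr : Irreducible p) (hnd : ¬ p ∣ G) :
    ∃ (r : MvPolynomial (Fin 2) k) (j : ℕ), r.IsHomogeneous j ∧ r ≠ 0 ∧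
      ∀ (x : Fin 2 → k) (y : k), eval (vc y x) p = 0 → eval (vc y x) G = 0 → eval x r = 0 :=
  common_idn hp hG (exists_idn hirr hnd)

/-- A binary form has finitely many zeros. -/
theorem finite_zeros [Infinite k] {j : ℕ} {r : MvPolynomial (Fin 2) k} (hr : r.IsHomogeneous j)
    (hr0 : r ≠ 0) (x : ℕ → Fin 2 → k) (hpar : ∀ n m, n ≠ m → cr (x n) (x m) ≠ 0) :
    {n | eval (x n) r = 0}.Finite := by
  classical
  have h1 : {n | x n 0 = 0}.Finite := by
    apply Set.Subsingleton.finite
    intro n hn m hm
    rw [Set.mem_ofPred_eq] at hn hm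
    by_contra hne
    apply hpar n m hne
    rw [cr, hn, hm]
    ring
  have h2 : {n | x n 0 ≠ 0 ∧ eval (x n) r = 0}.Finite := by
    have hroots : ((dh r).roots.toFinset : Set k).Finite := Finset.finite_toSet _
    refine Set.Finite.of_finite_image (f := fun n => x n 1 / x n 0) (hroots.subset ?_) ?_
    · rintro _ ⟨n, ⟨hn, hz⟩, rfl⟩
      rw [eval_hom hr (x n) hn] at hz
      have h3 := (mul_eq_zero.1 hz).resolve_left (pow_ne_zero _ hn)
      rw [Finset.mem_coe, Multiset.mem_toFinset, Polynomial.mem_roots (dh_ne hr hr0)]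
      exact h3
    · intro n hn m hm h
      by_contra hne
      apply hpar n m hne
      have h3 : x n 0 ≠ 0 := hn.1
      have h4 : x m 0 ≠ 0 := hm.1
      simp only at h
      rw [div_eq_div_iff h3 h4] at h
      rw [cr]
      linear_combination -h
  refine (h1.union h2).subset fun n hn => ?_
  by_cases h : x n 0 = 0
  · exact Or.inl h
  · exact Or.inr ⟨h, hn⟩

/-- An irreducible factor which vanishes infinitely often. -/
theorem exists_factor (g : MvPolynomial (Fin 3) k) (hg : g ≠ 0) (V : ℕ → Fin 3 → k)
    (I : Set ℕ) (hI : I.Infinite) (h : ∀ n ∈ I, eval (V n) g = 0) :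
    ∃ p : MvPolynomial (Fin 3) k, Irreducible p ∧ p ∣ g ∧ {n ∈ I | eval (V n) p = 0}.Infinite := by
  classical
  obtain ⟨f, hf, hfp⟩ := WfDvdMonoid.exists_factors g hg
  have h1 : ∀ n ∈ I, ∃ p ∈ f.toFinset, eval (V n) p = 0 := by
    intro n hn
    obtain ⟨u, hu⟩ := hfp
    have h2 : eval (V n) f.prod = 0 := by
      have h3 := h n hn
      rw [← hu, map_mul] at h3
      rcases mul_eq_zero.1 h3 with h4 | h4
      · exact h4
      · exact absurd h4 (u.isUnit.map (eval (V n))).ne_zero
    rw [map_multiset_prod] at h2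
    obtain ⟨p, hp, hp0⟩ := Multiset.mem_map.1 (Multiset.prod_eq_zero_iff.1 h2)
    exact ⟨p, Multiset.mem_toFinset.2 hp, hp0⟩
  by_contra hcon
  push Not at hcon
  apply hI
  have h2 : I ⊆ ⋃ p ∈ f.toFinset, {n ∈ I | eval (V n) p = 0} := by
    intro n hn
    obtain ⟨p, hp, hp0⟩ := h1 n hn
    exact Set.mem_biUnion hp ⟨hn, hp0⟩
  refine Set.Finite.subset (Set.Finite.biUnion f.toFinset.finite_toSet fun p hp => ?_) h2
  have hp' : p ∈ f := Multiset.mem_toFinset.1 hp
  by_contra hinf
  exact hinf (hcon p (hf p hp') ((Multiset.dvd_prod hp').trans hfp.dvd))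

end Pool.Agent.L5helper26.RO
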