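import Pool.Agent.L5helper26.RO.Esc
import Pool.Agent.L5helper26.RO.Elim
import Pool.Agent.L5helper26.RO.Av

/-!
Points of large height relative to the base.
-/

set_option autoImplicit false
set_option linter.unusedSectionVars false

open MvPolynomial

namespace Pool.Agent.L5helper26.RO

open NumberField Height Module IsDedekindDomain
open Pool.Agent.W180.OP (Pl av wt wt_nonneg nrm le_nrm nrm_pos nrm_nonneg exists_nrm nrm_le cs
  cs_nonneg abv_mv fv)

variable {k : Type} [Field k] [NumberField k]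

/-- At a place of good reduction. -/
theorem esc_good {d : ℕ} (hd : 2 ≤ d) (F : Fin 2 → MvPolynomial (Fin 2) k)
    (hF : ∀ i, (F i).IsHomogeneous d) (R : MvPolynomial (Fin 3) k) (hR : R.IsHomogeneous d)
    (hc : eval (vc 1 0) R ≠ 0) (f : AbsoluteValue k ℝ) (hna : IsNonarchimedean f)
    (hF1 : ∀ i m, f ((F i).coeff m) ≤ 1) (hR1 : ∀ m, f (R.coeff m) ≤ 1)
    (hc1 : f (eval (vc 1 0) R) = 1) (x : ℕ → Fin 2 → k) (y : ℕ → k) (hx : ∀ n, x n ≠ 0)
    (hxs : ∀ n, x (n + 1) = sp F (x n)) (hys : ∀ n, y (n + 1) = eval (vc (y n) (x n)) R)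
    (h : nrm f (x 0) < f (y 0)) :
    ∃ c : ℝ, 0 < c ∧ ∀ n, Real.exp (c * d ^ n) * nrm f (x n) ≤ f (y n) := by
  obtain ⟨hdg, hcc⟩ := cf_const hR hc
  have hstep : ∀ (x : Fin 2 → k) (y : k), x ≠ 0 → nrm f x < f y →
      f y ^ d ≤ f (eval (vc y x) R) := by
    intro x y hx hxy
    have hn := nrm_pos f hx
    have hy := hn.trans hxy
    have h1 : eval (vc y x) R - eval (vc 1 0) R * y ^ d =
        ∑ j ∈ Finset.range d, eval x (cf R j) * y ^ j := by
      rw [eval_vc, hdg, Finset.sum_range_succ, hcc]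
      ring
    have h2 : f (eval (vc y x) R - eval (vc 1 0) R * y ^ d) ≤ nrm f x * f y ^ (d - 1) := by
      rw [h1]
      refine Pool.Agent.R847.HG.na_sum_le hna _ _ _ (by positivity) fun j hj => ?_
      have hjd : j < d := Finset.mem_range.1 hj
      rw [map_mul, map_pow]
      have h3 : f (eval x (cf R j)) ≤ nrm f x ^ (d - j) := by
        refine na_eval f hna _ (cf_hom hR hjd.le) (fun m => ?_) x
        rw [cf, finSuccEquiv_coeff_coeff]
        exact hR1 _
      calc f (eval x (cf R j)) * f y ^ j ≤ nrm f x ^ (d - j) * f y ^ j :=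
            mul_le_mul_of_nonneg_right h3 (by positivity)
        _ = nrm f x * (nrm f x ^ (d - j - 1) * f y ^ j) := by
            have e : d - j = (d - j - 1) + 1 := by omega
            conv_lhs => rw [e, pow_succ]
            ring
        _ ≤ nrm f x * (f y ^ (d - j - 1) * f y ^ j) := by
            have := pow_le_pow_left₀ hn.le hxy.le (d - j - 1)
            gcongr
        _ = nrm f x * f y ^ (d - 1) := by
            rw [← pow_add]
            congr 2
            omega
    have h4 : nrm f x * f y ^ (d - 1) < f y ^ d := by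
      have e : d = (d - 1) + 1 := by omega
      conv_rhs => rw [e, pow_succ, mul_comm]
      exact mul_lt_mul_of_pos_right hxy (pow_pos hy _)
    by_contra hlt
    push Not at hlt
    have h5 : f (eval (vc 1 0) R * y ^ d) ≤
        max (f (eval (vc y x) R)) (f (eval (vc y x) R - eval (vc 1 0) R * y ^ d)) := by
      have e : eval (vc 1 0) R * y ^ d =
          eval (vc y x) R + -(eval (vc y x) R - eval (vc 1 0) R * y ^ d) := by ring
      conv_lhs => rw [e]
      refine (hna _ _).trans ?_
      rw [AbsoluteValue.map_neg]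
    rw [map_mul, map_pow, hc1, one_mul] at h5
    rcases le_max_iff.1 h5 with h6 | h6
    · linarith
    · linarith
  have hbase : ∀ x : Fin 2 → k, nrm f (sp F x) ≤ nrm f x ^ d := fun x =>
    nrm_le (pow_nonneg (nrm_nonneg _ _) _) fun i => na_eval f hna (F i) (hF i) (hF1 i) x
  have hn0 := nrm_pos f (hx 0)
  set c : ℝ := Real.log (f (y 0) / nrm f (x 0)) with hcdef
  have hr : 1 < f (y 0) / nrm f (x 0) := by rwa [one_lt_div hn0]
  have hc0 : 0 < c := Real.log_pos hr
  refine ⟨c, hc0, fun n => ?_⟩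
  induction n with
  | zero =>
    rw [pow_zero, mul_one, hcdef, Real.exp_log (zero_lt_one.trans hr), div_mul_cancel₀ _ hn0.ne']
  | succ n ih =>
    have hn := nrm_pos f (hx n)
    have hdR : (2 : ℝ) ≤ d := by exact_mod_cast hd
    have h1 : nrm f (x n) < f (y n) := by
      refine lt_of_lt_of_le ?_ ih
      have h2 : 1 < Real.exp (c * d ^ n) := Real.one_lt_exp_iff.2 (by positivity)
      nlinarith
    have h2 := hstep (x n) (y n) (hx n) h1
    rw [hys, hxs]
    refine le_trans ?_ h2
    calc Real.exp (c * d ^ (n + 1)) * nrm f (sp F (x n)) ≤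
          Real.exp (c * d ^ (n + 1)) * nrm f (x n) ^ d :=
            mul_le_mul_of_nonneg_left (hbase _) (Real.exp_pos _).le
      _ = (Real.exp (c * d ^ n) * nrm f (x n)) ^ d := by
          rw [mul_pow, ← Real.exp_nat_mul]
          congr 2
          rw [pow_succ]
          ring
      _ ≤ f (y n) ^ d := pow_le_pow_left₀ (by positivity) ih d

/-- Escape at some place. -/
def Escapes (d : ℕ) (x : ℕ → Fin 2 → k) (y : ℕ → k) : Prop :=
  ∃ (v : Pl k) (n0 : ℕ) (c : ℝ), 0 < c ∧
    ∀ n, n0 ≤ n → Real.exp (c * d ^ n) * nrm (av v) (x n) ≤ av v (y n)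

theorem height_ge {m : ℕ} (u : Fin m → k) (j : Fin m) (hj : u j = 1) (S : Finset (Pl k)) :
    ∑ v ∈ S, wt v * Real.log (nrm (av v) u) ≤ logHeight u := by
  have h := Pool.Agent.W180.OP.partial_le u j hj S.toLeft S.toRight
  rw [← Finset.toLeft_disjSum_toRight (u := S), Finset.sum_disjSum]
  have e1 : ∑ v ∈ S.toRight, wt (Sum.inr v : Pl k) * Real.log (nrm (av (Sum.inr v : Pl k)) u) =
      ∑ v ∈ S.toRight, Real.log (nrm (fv v) u) := Finset.sum_congr rfl fun v _ => one_mul _
  rw [e1]
  exact h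

/-- A point whose height is large relative to the height of its image in the base escapes. -/
theorem escape_of_height {d : ℕ} (hd : 2 ≤ d) (F : Fin 2 → MvPolynomial (Fin 2) k)
    (hF : ∀ i, (F i).IsHomogeneous d) (R : MvPolynomial (Fin 3) k) (hR : R.IsHomogeneous d)
    (hc : eval (vc 1 0) R ≠ 0) :
    ∃ C : ℝ, ∀ (x : ℕ → Fin 2 → k) (y : ℕ → k), (∀ n, x n ≠ 0) →
      (∀ n, x (n + 1) = sp F (x n)) → (∀ n, y (n + 1) = eval (vc (y n) (x n)) R) →
      logHeight (x 0) + C < logHeight (vc (y 0) (x 0)) → Escapes d x y := by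
  classical
  choose B hB hdich using fun v : Pl k => dich F hF R hR hc hd (av v)
  let A : Set k := (⋃ i, (fun m => (F i).coeff m) '' ((F i).support : Set (Fin 2 →₀ ℕ))) ∪
    (fun m => R.coeff m) '' (R.support : Set (Fin 3 →₀ ℕ)) ∪
    {eval (vc 1 0) R, (eval (vc 1 0) R)⁻¹}
  have hA : A.Finite := by
    refine Set.Finite.union (Set.Finite.union (Set.finite_iUnion fun i => ?_) ?_) ?_
    · exact ((F i).support.finite_toSet).image _
    · exact (R.support.finite_toSet).image _
    · exact Set.toFinite _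
  obtain ⟨S, hS1, hS2⟩ := exists_S A hA
  refine ⟨∑ v ∈ S, wt v * Real.log (B v), fun x y hx hxs hys hlt => ?_⟩
  by_contra hne
  have hin : ∀ v, av v (y 0) ≤ B v * nrm (av v) (x 0) := by
    intro v
    rcases hdich v x y hx hxs hys with h | ⟨n0, c, hc0, h⟩
    · exact h 0
    · exact absurd ⟨v, n0, c, hc0, h⟩ hne
  have hout : ∀ v, v ∉ S → av v (y 0) ≤ nrm (av v) (x 0) := by
    intro v hv
    obtain ⟨hna, hint⟩ := hS2 v hv
    by_contra hgt
    push Not at hgt
    have hF1 : ∀ i m, av v ((F i).coeff m) ≤ 1 := by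
      intro i m
      by_cases hm : m ∈ (F i).support
      · exact hint _ (Or.inl (Or.inl (Set.mem_iUnion.2 ⟨i, m, hm, rfl⟩)))
      · rw [notMem_support_iff.1 hm, map_zero]
        exact zero_le_one
    have hR1 : ∀ m, av v (R.coeff m) ≤ 1 := by
      intro m
      by_cases hm : m ∈ R.support
      · exact hint _ (Or.inl (Or.inr ⟨m, hm, rfl⟩))
      · rw [notMem_support_iff.1 hm, map_zero]
        exact zero_le_one
    have hc1 : av v (eval (vc 1 0) R) = 1 := by
      refine le_antisymm (hint _ (Or.inr (Or.inl rfl))) ?_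
      have h1 : av v (eval (vc 1 0) R)⁻¹ ≤ 1 := hint _ (Or.inr (Or.inr rfl))
      rwa [map_inv₀, inv_le_one₀ ((av v).pos_iff.2 hc)] at h1
    obtain ⟨c, hc0, h⟩ := esc_good hd F hF R hR hc (av v) hna hF1 hR1 hc1 x y hx hxs hys hgt
    exact hne ⟨v, 0, c, hc0, fun n _ => h n⟩
  -- normalisation
  obtain ⟨j, hj⟩ := Function.ne_iff.1 (hx 0)
  have hj : x 0 j ≠ 0 := hj
  set t : k := (x 0 j)⁻¹ with ht
  have ht0 : t ≠ 0 := inv_ne_zero hj
  set u : Fin 2 → k := fun i => t * x 0 i with hu
  set w : k := t * y 0 with hw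
  have huj : u j = 1 := inv_mul_cancel₀ hj
  have hsc : ∀ v : Pl k, nrm (av v) u = av v t * nrm (av v) (x 0) := by
    intro v
    apply le_antisymm
    · refine nrm_le (mul_nonneg ((av v).nonneg _) (nrm_nonneg _ _)) fun i => ?_
      change av v (t * x 0 i) ≤ _
      rw [map_mul]
      exact mul_le_mul_of_nonneg_left (le_nrm _ _ _) ((av v).nonneg _)
    · obtain ⟨i, hi⟩ := exists_nrm (av v) (by norm_num : 0 < 2) (x 0)
      rw [← hi, ← map_mul]
      exact le_nrm (av v) u i
  have hw1 : ∀ v, av v w ≤ B v * nrm (av v) u := by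
    intro v
    rw [hw, hsc, map_mul]
    have := mul_le_mul_of_nonneg_left (hin v) ((av v).nonneg t)
    linarith
  have hw2 : ∀ v, v ∉ S → av v w ≤ nrm (av v) u := by
    intro v hv
    rw [hw, hsc, map_mul]
    exact mul_le_mul_of_nonneg_left (hout v hv) ((av v).nonneg t)
  have hh1 : logHeight (x 0) = logHeight u := by
    have e : u = t • x 0 := rfl
    rw [e, logHeight_smul_eq_logHeight _ ht0]
  have hh2 : logHeight (vc (y 0) (x 0)) = logHeight (vc w u) := by
    have e : vc w u = t • vc (y 0) (x 0) := (vc_smul t (y 0) (x 0))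
    rw [e, logHeight_smul_eq_logHeight _ ht0]
  obtain ⟨S2, hS21, hS22⟩ := exists_S (Set.range (vc w u)) (Set.finite_range _)
  have hvcu : vc w u j.succ = 1 := huj
  have hvc0 : vc w u ≠ 0 := by
    intro h
    have := congrFun h j.succ
    rw [hvcu] at this
    exact one_ne_zero this
  have hu0 : u ≠ 0 := by
    intro h
    have := congrFun h j
    rw [huj] at this
    exact one_ne_zero this
  have g1 := Pool.Agent.R847.SN.height_le (S ∪ S2) (fun w => Finset.mem_union_left _ (hS1 w))
    (vc w u) hvc0 (fun v hv e => (hS22 v fun h => hv (Finset.mem_union_right _ h)).2 _ ⟨e, rfl⟩)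
  have g2 := height_ge u j huj (S ∪ S2)
  have g3 : ∑ v ∈ S ∪ S2, wt v * Real.log (nrm (av v) (vc w u)) ≤
      ∑ v ∈ S ∪ S2, (wt v * Real.log (nrm (av v) u) + if v ∈ S then wt v * Real.log (B v) else 0) := by
    refine Finset.sum_le_sum fun v _ => ?_
    have hnu := nrm_pos (av v) hu0
    have hBv := hB v
    have hBv0 : 0 < B v := by linarith
    split_ifs with hv
    · rw [← mul_add]
      refine mul_le_mul_of_nonneg_left ?_ (wt_nonneg v)
      rw [← Real.log_mul hnu.ne' hBv0.ne']
      refine Real.log_le_log (nrm_pos (av v) hvc0) ?_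
      refine nrm_le (by positivity) fun i => ?_
      refine Fin.cases ?_ (fun l => ?_) i
      · have := hw1 v
        change av v w ≤ _
        linarith
      · have := le_nrm (av v) u l
        change av v (u l) ≤ _
        nlinarith
    · rw [add_zero]
      refine mul_le_mul_of_nonneg_left ?_ (wt_nonneg v)
      refine Real.log_le_log (nrm_pos (av v) hvc0) ?_
      refine nrm_le hnu.le fun i => ?_
      refine Fin.cases ?_ (fun l => ?_) i
      · exact hw2 v hv
      · exact le_nrm (av v) u l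
  rw [Finset.sum_add_distrib, Finset.sum_ite_mem, Finset.union_inter_cancel_left] at g3
  rw [hh1, hh2] at hlt
  linarith

end Pool.Agent.L5helper26.RO
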