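import Pool.Agent.L5helper26.RO.Cmp
import Pool.Agent.L5helper26.RO.Good

/-!
Algebraic points of the complex plane.
-/

set_option autoImplicit false
set_option linter.unusedSectionVars false

open MvPolynomial

namespace Pool.Agent.L5helper26.RO

open NumberField
open Pool.Agent.W180.OP (Pl av wt nrm le_nrm nrm_pos nrm_nonneg exists_nrm nrm_le cs cs_nonneg abv_mv)
open Pool.Agent.H936R2 (pt)
open Pool.Agent.L5helper26.PN (fibered cen)

/-- The indices. -/
def e3 : Fin 2 ⊕ Unit ≃ Fin 3 where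
  toFun := Sum.elim Fin.succ fun _ => 0
  invFun := Fin.cases (Sum.inr ()) Sum.inl
  left_inv := by
    rintro (i | i)
    · rfl
    · rfl
  right_inv := by
    intro i
    refine Fin.cases ?_ (fun j => ?_) i
    · rfl
    · rfl

theorem vc_e3 {K : Type} (x : Fin 2 → K) (y : K) (i : Fin 2 ⊕ Unit) :
    vc y x (e3 i) = Sum.elim x (fun _ => y) i := by
  rcases i with i | i
  · rfl
  · rfl

theorem exists_lift {K ι : Type} [Field K] (j : K →+* ℂ) (P : MvPolynomial ι ℂ)
    (h : ∀ m, P.coeff m ∈ j.range) : ∃ P' : MvPolynomial ι K, map j P' = P := by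
  have h1 : P ∈ Set.range (map (σ := ι) j) := by
    rw [mem_range_map_iff_coeffs_subset]
    intro c hc
    rw [Finset.mem_coe, mem_coeffs_iff] at hc
    obtain ⟨κ, -, rfl⟩ := hc
    exact h κ
  exact h1

/-- The number field. -/
theorem exists_nf (C : Finset ℂ) (hC : ∀ t ∈ C, IsAlgebraic ℚ t) :
    ∃ (k : Type) (_ : Field k) (_ : NumberField k) (j : k →+* ℂ), ∀ t ∈ C, t ∈ j.range := by
  let E : IntermediateField ℚ ℂ := IntermediateField.adjoin ℚ (C : Set ℂ)
  have hE : FiniteDimensional ℚ E := IntermediateField.finiteDimensional_adjoin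
    (fun y hy => (hC y hy).isIntegral)
  have : NumberField E := ⟨⟩
  refine ⟨E, inferInstance, inferInstance, (algebraMap E ℂ), fun t ht => ?_⟩
  exact ⟨⟨t, IntermediateField.subset_adjoin ℚ _ ht⟩, rfl⟩

variable {k : Type} [Field k]

/-- The orbit over the field. -/
noncomputable def orb (F : Fin 2 → MvPolynomial (Fin 2) k) (R : MvPolynomial (Fin 3) k)
    (x : Fin 2 → k) (y : k) : ℕ → (Fin 2 → k) × k
  | 0 => (x, y)
  | n + 1 => (sp F (orb F R x y n).1, eval (vc (orb F R x y n).2 (orb F R x y n).1) R)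

theorem orb_eq (j : k →+* ℂ) (F : Fin 2 → MvPolynomial (Fin 2) k)
    (R : Unit → MvPolynomial (Fin 2 ⊕ Unit) k) (x : Fin 2 → k) (y : k) (n : ℕ) :
    (pt (fibered (mp j F) fun u => map j (R u)))^[n] (Sum.elim (fun i => j (x i)) fun _ => j y) =
      Sum.elim (fun i => j ((orb F (rename e3 (R ())) x y n).1 i))
        fun _ => j (orb F (rename e3 (R ())) x y n).2 := by
  induction n with
  | zero => rfl
  | succ n ih =>
    rw [Function.iterate_succ_apply', ih]
    set X := (orb F (rename e3 (R ())) x y n).1 with hX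
    set Y := (orb F (rename e3 (R ())) x y n).2 with hY
    funext i
    rcases i with i | i
    · change eval _ (rename Sum.inl (map j (F i))) = j (eval X (F i))
      rw [eval_rename, eval_map]
      exact (eval₂_comp j X (F i)).symm
    · change eval _ (map j (R i)) = j (eval (vc Y X) (rename e3 (R ())))
      rw [eval_map, eval_rename]
      have h1 := eval₂_comp j (vc Y X ∘ e3) (R ())
      rw [h1]
      congr 1
      funext i
      rcases i with i | i
      · rfl
      · rfl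

theorem par_iff (j : k →+* ℂ) {x y : Fin 2 → k} (hx : x ≠ 0) (hy : y ≠ 0) :
    (∃ c : ℂ, c ≠ 0 ∧ (fun i => j (x i)) = c • fun i => j (y i)) ↔ cr x y = 0 := by
  constructor
  · rintro ⟨c, -, h⟩
    have h1 : j (cr x y) = 0 := by
      rw [← cr_map]
      have h2 : j ∘ x = c • (j ∘ y) := h
      rw [h2, cr_smul_left, cr_self, mul_zero]
    exact (map_eq_zero j).1 h1
  · intro h
    rw [cr_comm, neg_eq_zero] at h
    obtain ⟨c, hc, hc'⟩ := par_of_cr hy hx h
    refine ⟨j c, (map_ne_zero j).2 hc, ?_⟩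
    funext i
    change j (x i) = j c * j (y i)
    rw [hc', ← map_mul]
    rfl

/-- The standing hypotheses over the algebraic closure. -/
theorem cl_data (j : k →+* ℂ) {d : ℕ} (hd : 1 ≤ d) (F : Fin 2 → MvPolynomial (Fin 2) k)
    (hF : ∀ i, (F i).IsHomogeneous d)
    (h0 : ∀ x : Fin 2 → ℂ, (∀ i, eval x (mp j F i) = 0) → x = 0) (hne : NoExc (mp j F)) :
    (∀ x : Fin 2 → AlgebraicClosure k, (∀ i, aeval x (F i) = 0) → x = 0) ∧ NoExc (cl F) := by
  letI : Algebra k ℂ := j.toAlgebra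
  let σ : AlgebraicClosure k →ₐ[k] ℂ := IsAlgClosed.lift
  have h1 : mp (σ : AlgebraicClosure k →+* ℂ) (cl F) = mp j F := by
    funext i
    change map (σ : AlgebraicClosure k →+* ℂ) (map (algebraMap k (AlgebraicClosure k)) (F i)) =
      map j (F i)
    rw [map_map]
    have h2 : (σ : AlgebraicClosure k →+* ℂ).comp (algebraMap k (AlgebraicClosure k)) = j := by
      ext c
      exact σ.commutes c
    rw [h2]
  have h2 : ∀ x : Fin 2 → ℂ, (∀ i, eval x (mp (σ : AlgebraicClosure k →+* ℂ) (cl F) i) = 0) →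
      x = 0 := by
    rw [h1]
    exact h0
  constructor
  · intro x hx
    refine zero_of_map (σ : AlgebraicClosure k →+* ℂ) (cl F) h2 x fun i => ?_
    change eval x (map (algebraMap k (AlgebraicClosure k)) (F i)) = 0
    rw [eval_map]
    exact hx i
  · refine noExc_of_map (d := d) (σ : AlgebraicClosure k →+* ℂ) (cl F)
      (fun i => (hF i).map _) h2 hd ?_
    rw [h1]
    exact hne

section

variable {k : Type} [Field k] [NumberField k] (j : k →+* ℂ) {d : ℕ}
  (F : Fin 2 → MvPolynomial (Fin 2) k) (hF : ∀ i, (F i).IsHomogeneous d)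
  (h0 : ∀ x : Fin 2 → ℂ, (∀ i, eval x (mp j F i) = 0) → x = 0)
  (R : Unit → MvPolynomial (Fin 2 ⊕ Unit) k) (hR : ∀ u, (R u).IsHomogeneous d)
  (hc : eval cen (map j (R ())) ≠ 0) (hne : NoExc (mp j F))

/-- The vector over the complex numbers. -/
def cv (j : k →+* ℂ) (x : Fin 2 → k) (y : k) : Fin 2 ⊕ Unit → ℂ :=
  Sum.elim (fun i => j (x i)) fun _ => j y

theorem set_eq (x : Fin 2 → k) (y : k) (S : Set (MvPolynomial (Fin 2 ⊕ Unit) ℂ))
    (S' : Set (MvPolynomial (Fin 3) k))
    (h : ∀ v : Fin 3 → k, (∀ g ∈ S, eval (fun i => j (v (e3 i))) g = 0) ↔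
        ∀ g ∈ S', eval v g = 0) :
    {n : ℕ | ∀ g ∈ S, eval ((pt (fibered (mp j F) fun u => map j (R u)))^[n] (cv j x y)) g = 0} =
        {n | ∀ g ∈ S', eval (vc (orb F (rename e3 (R ())) x y n).2
          (orb F (rename e3 (R ())) x y n).1) g = 0} := by
  ext n
  rw [Set.mem_ofPred_eq, Set.mem_ofPred_eq, ← h, cv, orb_eq j F R x y n]
  have e : (Sum.elim (fun i => j ((orb F (rename e3 (R ())) x y n).1 i))
        fun _ => j (orb F (rename e3 (R ())) x y n).2 : Fin 2 ⊕ Unit → ℂ) =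
      fun i => j (vc (orb F (rename e3 (R ())) x y n).2
        (orb F (rename e3 (R ())) x y n).1 (e3 i)) := by
    funext i
    rcases i with i | i
    · rfl
    · rfl
  rw [e]

theorem base_eq (x : Fin 2 → k) (y : k) (n : ℕ) :
    (pt (mp j F))^[n] (fun i => j (x i)) = fun i => j ((orb F (rename e3 (R ())) x y n).1 i) := by
  induction n with
  | zero => rfl
  | succ n ih =>
    rw [Function.iterate_succ_apply', ih]
    exact sp_map j F _

include h0 in
theorem orb_ne {x : Fin 2 → k} (hx : x ≠ 0) (y : k) (n : ℕ) :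
    (orb F (rename e3 (R ())) x y n).1 ≠ 0 := by
  induction n with
  | zero => exact hx
  | succ n ih => exact sp_ne F (zero_of_map j F h0) ih

include h0 in
theorem orb_par {x : Fin 2 → k} (hx : x ≠ 0) (y : k)
    (hpar : ∀ n m, n ≠ m → ¬ ∃ c : ℂ, c ≠ 0 ∧
      (pt (mp j F))^[n] (fun i => j (x i)) = c • (pt (mp j F))^[m] (fun i => j (x i))) :
    ∀ n m, n ≠ m → cr (orb F (rename e3 (R ())) x y n).1 (orb F (rename e3 (R ())) x y m).1 ≠ 0 := by
  intro n m hnm h
  apply hpar n m hnm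
  rw [base_eq j F R x y n, base_eq j F R x y m]
  exact (par_iff j (orb_ne j F h0 R hx y n) (orb_ne j F h0 R hx y m)).2 h

theorem cen_ne {k : Type} [Field k] (j : k →+* ℂ) (R : Unit → MvPolynomial (Fin 2 ⊕ Unit) k)
    (hc : eval cen (map j (R ())) ≠ 0) : eval (vc 1 0) (rename e3 (R ())) ≠ 0 := by
  intro h
  apply hc
  rw [eval_map]
  have h1 := eval₂_comp j (vc 1 0 ∘ e3) (R ())
  rw [eval_rename] at h
  rw [h, map_zero] at h1
  rw [h1]
  congr 1
  funext i
  rcases i with i | i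
  · change (0 : ℂ) = j 0
    rw [map_zero]
  · change (1 : ℂ) = j 1
    rw [map_one]

include hF h0 hR hc hne in
/-- Closed sets all of whose curves pass through the centre. -/
theorem curves_k (hd : 2 ≤ d) {x : Fin 2 → k} (hx : x ≠ 0) (y : k)
    (hpar : ∀ n m, n ≠ m → ¬ ∃ c : ℂ, c ≠ 0 ∧
      (pt (mp j F))^[n] (fun i => j (x i)) = c • (pt (mp j F))^[m] (fun i => j (x i)))
    (S : Set (MvPolynomial (Fin 2 ⊕ Unit) ℂ)) (hS : ∀ g ∈ S, ∃ e : ℕ, g.IsHomogeneous e)
    (hcen : ∀ p : MvPolynomial (Fin 2 ⊕ Unit) ℂ, Irreducible p → (∀ g ∈ S, p ∣ g) →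
      eval cen p = 0) :
    {n : ℕ | ∀ g ∈ S, eval ((pt (fibered (mp j F) fun u => map j (R u)))^[n] (cv j x y)) g =
      0}.Finite ∨ ∀ g ∈ S, g = 0 := by
  letI : Algebra k ℂ := j.toAlgebra
  obtain ⟨S', hS', hcen', hv, hz, -⟩ := cmp_set (K := k) e3 S hS (vc 1 0)
  replace hcen' := hcen' (by
    intro p hp hpS
    have h1 := hcen p hp hpS
    rw [← h1]
    congr 2
    funext i
    rcases i with i | i
    · change j 0 = 0
      rw [map_zero]
    · change j 1 = 1
      rw [map_one])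
  rw [set_eq j F R x y S S' hv]
  obtain ⟨h0', hne'⟩ := cl_data j (by omega) F hF h0 hne
  rcases set_k F hF h0' (rename e3 (R ())) (hR ()).rename_isHomogeneous (cen_ne j R hc) hd hne'
    (fun n => (orb F (rename e3 (R ())) x y n).1) (fun n => (orb F (rename e3 (R ())) x y n).2)
    hx (fun n => rfl) (fun n => rfl) (orb_par j F h0 R hx y hpar) S' hS' hcen' with h | h
  · exact Or.inl h
  · exact Or.inr (hz h)

include hF h0 hne in
/-- Points which escape to the centre at some place. -/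
theorem escapes_k (hd : 2 ≤ d) {x : Fin 2 → k} (hx : x ≠ 0) (y : k)
    (hpar : ∀ n m, n ≠ m → ¬ ∃ c : ℂ, c ≠ 0 ∧
      (pt (mp j F))^[n] (fun i => j (x i)) = c • (pt (mp j F))^[m] (fun i => j (x i)))
    (hesc : Escapes d (fun n => (orb F (rename e3 (R ())) x y n).1)
      fun n => (orb F (rename e3 (R ())) x y n).2)
    (S : Set (MvPolynomial (Fin 2 ⊕ Unit) ℂ)) (hS : ∀ g ∈ S, ∃ e : ℕ, g.IsHomogeneous e) :
    {n : ℕ | ∀ g ∈ S, eval ((pt (fibered (mp j F) fun u => map j (R u)))^[n] (cv j x y)) g =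
      0}.Finite ∨ ∀ g ∈ S, g = 0 := by
  letI : Algebra k ℂ := j.toAlgebra
  obtain ⟨S', hS', -, hv, hz, -⟩ := cmp_set (K := k) e3 S hS (vc 1 0)
  by_cases hall : ∀ g ∈ S', g = 0
  · exact Or.inr (hz hall)
  left
  push Not at hall
  obtain ⟨g0, hg0, hg0'⟩ := hall
  obtain ⟨e0, he0⟩ := hS' g0 hg0
  obtain ⟨v, n0, c, hc0, hes⟩ := hesc
  obtain ⟨h0', hne'⟩ := cl_data j (by omega) F hF h0 hne
  rw [set_eq j F R x y S S' hv]
  exact (escape_finite F hF h0' hd hne' v _ _ hx (fun n => rfl)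
    (orb_par j F h0 R hx y hpar) n0 c hc0 hes g0 he0 hg0').subset fun n hn => hn g0 hg0

include hF h0 hR hc in
/-- Points which are not bounded away from the centre with respect to an absolute value. -/
theorem escapes_of_unbounded (hd : 2 ≤ d) {x : Fin 2 → k} (hx : x ≠ 0) (y : k)
    (f : AbsoluteValue ℂ ℝ) (hf : IsNonarchimedean f ∨ ∃ σ : ℂ →+* ℂ, ∀ z, f z = ‖σ z‖)
    (hub : ∀ B : ℝ, ∃ n : ℕ, ∀ i : Fin 2,
      B * f ((pt (fibered (mp j F) fun u => map j (R u)))^[n] (cv j x y) (Sum.inl i)) <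
        f ((pt (fibered (mp j F) fun u => map j (R u)))^[n] (cv j x y) (Sum.inr ()))) :
    Escapes d (fun n => (orb F (rename e3 (R ())) x y n).1)
      fun n => (orb F (rename e3 (R ())) x y n).2 := by
  set X : ℕ → Fin 2 → k := fun n => (orb F (rename e3 (R ())) x y n).1 with hX
  set Y : ℕ → k := fun n => (orb F (rename e3 (R ())) x y n).2 with hY
  have hxn : ∀ n, X n ≠ 0 := orb_ne j F h0 R hx y
  let f' : AbsoluteValue k ℝ := f.comp (f := j) j.injective
  have hf' : ∀ z, f' z = f (j z) := fun z => rfl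
  have hub' : ∀ B : ℝ, ∃ n, B * nrm f' (X n) < f' (Y n) := by
    intro B
    obtain ⟨n, hn⟩ := hub B
    refine ⟨n, ?_⟩
    obtain ⟨i, hi⟩ := exists_nrm f' (by norm_num) (X n)
    rw [← hi]
    have h1 := hn i
    rw [cv, orb_eq j F R x y n] at h1
    exact h1
  obtain ⟨B, hB, hdich⟩ := dich F hF (rename e3 (R ())) (hR ()).rename_isHomogeneous
    (cen_ne j R hc) hd f'
  have hesc : ∃ (n0 : ℕ) (c : ℝ), 0 < c ∧
      ∀ n, n0 ≤ n → Real.exp (c * d ^ n) * nrm f' (X n) ≤ f' (Y n) := by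
    rcases hdich X Y hxn (fun n => rfl) (fun n => rfl) with h | h
    · exfalso
      obtain ⟨n, hn⟩ := hub' B
      exact absurd (h n) (not_le.2 hn)
    · exact h
  obtain ⟨n0, c, hc0, hes⟩ := hesc
  have hplace : ∃ (v : Pl k) (s : ℝ), 0 < s ∧ ∀ z, f' z = av v z ^ s := by
    rcases hf with hna | ⟨σ, hσ⟩
    · have hna' : IsNonarchimedean f' := fun z w => by
        rw [hf', hf', hf', map_add]
        exact hna _ _
      by_cases hnt : f'.IsNontrivial
      · exact exists_place f' hna' hnt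
      · exfalso
        have h1 : ∀ z, z ≠ 0 → f' z = 1 := by
          intro z hz
          by_contra h
          exact hnt ⟨z, hz, h⟩
        obtain ⟨n, hn⟩ := hub' 1
        have h2 : f' (Y n) ≤ 1 := by
          by_cases h : Y n = 0
          · rw [h, map_zero]
            exact zero_le_one
          · rw [h1 _ h]
        obtain ⟨i, hi⟩ := Function.ne_iff.1 (hxn n)
        have h3 : 1 ≤ nrm f' (X n) := by
          rw [← h1 (X n i) hi]
          exact le_nrm _ _ _
        linarith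
    · refine ⟨Sum.inl (InfinitePlace.mk (σ.comp j)), 1, one_pos, fun z => ?_⟩
      rw [Real.rpow_one, hf', hσ]
      rfl
  obtain ⟨v, s, hs, hvs⟩ := hplace
  obtain ⟨c', hc', hes'⟩ := esc_rpow v f' s hs hvs hc0 hes
  exact ⟨v, n0, c', hc', hes'⟩

end

end Pool.Agent.L5helper26.RO
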