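import Mathlib

/-!
Auxiliary forms which vanish to high order along one fibre of a plane curve.
-/

set_option autoImplicit false
set_option linter.unusedSectionVars false

namespace Pool.Agent.L5helper26.RO

open Polynomial

variable {k : Type} [Field k]

/-- The dehomogenisation: the variable `0` becomes the outer variable, `1` becomes one, `2` becomes
the inner variable. -/
noncomputable def de : MvPolynomial (Fin 3) k →ₐ[k] k[X][X] :=
  MvPolynomial.aeval ![X, 1, C X]

theorem eval_de (g : MvPolynomial (Fin 3) k) (t y : k) :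
    (de g).evalEval t y = MvPolynomial.eval ![y, 1, t] g := by
  have h : (evalEvalRingHom t y).comp (de : MvPolynomial (Fin 3) k →ₐ[k] k[X][X]).toRingHom =
      MvPolynomial.eval ![y, 1, t] := by
    apply MvPolynomial.ringHom_ext
    · intro c
      change evalEval t y (de (MvPolynomial.C c)) = _
      rw [MvPolynomial.eval_C]
      have h1 : de (MvPolynomial.C c : MvPolynomial (Fin 3) k) = C (C c) :=
        MvPolynomial.aeval_C _ c
      rw [h1, evalEval_C, eval_C]
    · intro i
      change evalEval t y (de (MvPolynomial.X i)) = _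
      rw [MvPolynomial.eval_X]
      have h1 : de (MvPolynomial.X i : MvPolynomial (Fin 3) k) = (![X, 1, C X] : Fin 3 → k[X][X]) i :=
        MvPolynomial.aeval_X _ i
      rw [h1]
      fin_cases i
      · change evalEval t y X = y
        exact evalEval_X t y
      · change evalEval t y 1 = 1
        exact evalEval_one t y
      · change evalEval t y (C X) = t
        rw [evalEval_C, eval_X]
  exact DFunLike.congr_fun h g

/-- The functionals which have to vanish. -/
noncomputable def Lf (p : k[X][X]) (b : k) (j i : ℕ) : k[X][X] →ₗ[k] k :=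
  (lcoeff k i) ∘ₗ (taylor b) ∘ₗ ((lcoeff k[X] j).restrictScalars k) ∘ₗ
    ((modByMonicHom p).restrictScalars k)

theorem Lf_apply (p : k[X][X]) (b : k) (j i : ℕ) (P : k[X][X]) :
    Lf p b j i P = (taylor b ((P %ₘ p).coeff j)).coeff i := rfl

/-- The monomials. -/
noncomputable def mon (e κ : ℕ) : Fin e × Fin (κ - e + 1) ⊕ Fin (κ - e + 1) →
    MvPolynomial (Fin 3) k
  | Sum.inl i => MvPolynomial.X 0 ^ (i.1 : ℕ) * MvPolynomial.X 2 ^ (i.2 : ℕ) *
      MvPolynomial.X 1 ^ (κ - i.1 - i.2)
  | Sum.inr i => MvPolynomial.X 0 ^ (e + i) * MvPolynomial.X 1 ^ (κ - e - i)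

theorem mon_hom {e κ : ℕ} (h : e ≤ κ) (i : Fin e × Fin (κ - e + 1) ⊕ Fin (κ - e + 1)) :
    (mon (k := k) e κ i).IsHomogeneous κ := by
  rcases i with ⟨c, a⟩ | c
  · have h1 := (((MvPolynomial.isHomogeneous_X k (0 : Fin 3)).pow (c : ℕ)).mul
      ((MvPolynomial.isHomogeneous_X k (2 : Fin 3)).pow (a : ℕ))).mul
      ((MvPolynomial.isHomogeneous_X k (1 : Fin 3)).pow (κ - c - a))
    have e1 : 1 * (c : ℕ) + 1 * (a : ℕ) + 1 * (κ - c - a) = κ := by
      have := c.2; have := a.2; omega
    rw [e1] at h1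
    exact h1
  · have h1 := ((MvPolynomial.isHomogeneous_X k (0 : Fin 3)).pow (e + c : ℕ)).mul
      ((MvPolynomial.isHomogeneous_X k (1 : Fin 3)).pow (κ - e - c))
    have e1 : 1 * (e + c : ℕ) + 1 * (κ - e - c) = κ := by
      have := c.2; omega
    rw [e1] at h1
    exact h1

theorem de_mon_inl (e κ : ℕ) (c : Fin e) (a : Fin (κ - e + 1)) :
    de (mon (k := k) e κ (Sum.inl (c, a))) = C (X ^ (a : ℕ)) * X ^ (c : ℕ) := by
  simp only [mon, map_mul, map_pow, de, MvPolynomial.aeval_X]
  simp [mul_comm]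

theorem de_mon_inr (e κ : ℕ) (c : Fin (κ - e + 1)) :
    de (mon (k := k) e κ (Sum.inr c)) = X ^ (e + c : ℕ) := by
  simp only [mon, map_mul, map_pow, de, MvPolynomial.aeval_X]
  simp

/-- The form with given coefficients. -/
noncomputable def frm (e κ : ℕ) (u : Fin e × Fin (κ - e + 1) ⊕ Fin (κ - e + 1) → k) :
    MvPolynomial (Fin 3) k := ∑ i, MvPolynomial.C (u i) * mon e κ i

theorem frm_hom {e κ : ℕ} (h : e ≤ κ) (u : Fin e × Fin (κ - e + 1) ⊕ Fin (κ - e + 1) → k) :
    (frm e κ u).IsHomogeneous κ := by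
  refine MvPolynomial.IsHomogeneous.sum _ _ _ fun i _ => ?_
  have h1 := (MvPolynomial.isHomogeneous_C (Fin 3) (u i)).mul (mon_hom (k := k) h i)
  rwa [zero_add] at h1

theorem de_frm (e κ : ℕ) (u : Fin e × Fin (κ - e + 1) ⊕ Fin (κ - e + 1) → k) :
    de (frm e κ u) = ∑ c : Fin e, C (∑ a, C (u (Sum.inl (c, a))) * X ^ (a : ℕ)) * X ^ (c : ℕ) +
      ∑ c : Fin (κ - e + 1), C (C (u (Sum.inr c))) * X ^ (e + c : ℕ) := by
  rw [frm, map_sum, Fintype.sum_sum_type, Fintype.sum_prod_type]
  congr 1
  · refine Finset.sum_congr rfl fun c _ => ?_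
    rw [map_sum, Finset.sum_mul]
    refine Finset.sum_congr rfl fun a _ => ?_
    rw [map_mul, de_mon_inl]
    have h1 : de (MvPolynomial.C (u (Sum.inl (c, a))) : MvPolynomial (Fin 3) k) =
        C (C (u (Sum.inl (c, a)))) := MvPolynomial.aeval_C _ _
    rw [h1, C_mul]
    ring
  · refine Finset.sum_congr rfl fun c _ => ?_
    rw [map_mul, de_mon_inr]
    have h1 : de (MvPolynomial.C (u (Sum.inr c)) : MvPolynomial (Fin 3) k) =
        C (C (u (Sum.inr c))) := MvPolynomial.aeval_C _ _
    rw [h1]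

theorem coeff_low (e κ : ℕ) (u : Fin e × Fin (κ - e + 1) ⊕ Fin (κ - e + 1) → k) (c : Fin e) :
    (de (frm e κ u)).coeff c = ∑ a, C (u (Sum.inl (c, a))) * X ^ (a : ℕ) := by
  classical
  have h2 : ∑ b, (C (C (u (Sum.inr b))) * X ^ (e + b : ℕ) : k[X][X]).coeff c = 0 := by
    refine Finset.sum_eq_zero fun i _ => ?_
    rw [coeff_C_mul, coeff_X_pow, if_neg, mul_zero]
    have := c.2
    omega
  rw [de_frm, coeff_add, finsetSum_coeff, finsetSum_coeff, h2, add_zero, Finset.sum_eq_single c]
  · rw [coeff_C_mul, coeff_X_pow, if_pos rfl, mul_one]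
  · intro i _ hi
    rw [coeff_C_mul, coeff_X_pow, if_neg, mul_zero]
    exact fun h => hi (Fin.ext h.symm)
  · intro h
    exact absurd (Finset.mem_univ _) h

theorem coeff_high (e κ : ℕ) (u : Fin e × Fin (κ - e + 1) ⊕ Fin (κ - e + 1) → k)
    (c : Fin (κ - e + 1)) : (de (frm e κ u)).coeff (e + c) = C (u (Sum.inr c)) := by
  classical
  rw [de_frm, coeff_add, finsetSum_coeff, finsetSum_coeff, Finset.sum_eq_zero, zero_add,
    Finset.sum_eq_single c]
  · rw [coeff_C_mul, coeff_X_pow, if_pos rfl, mul_one]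
  · intro i _ hi
    rw [coeff_C_mul, coeff_X_pow, if_neg, mul_zero]
    exact fun h => hi (Fin.ext (by omega))
  · intro h
    exact absurd (Finset.mem_univ _) h
  · intro i _
    rw [coeff_C_mul, coeff_X_pow, if_neg, mul_zero]
    have := i.2
    omega

theorem coeff_top (e κ : ℕ) (u : Fin e × Fin (κ - e + 1) ⊕ Fin (κ - e + 1) → k) (j : ℕ)
    (hj : e + (κ - e + 1) ≤ j) : (de (frm e κ u)).coeff j = 0 := by
  classical
  rw [de_frm, coeff_add, finsetSum_coeff, finsetSum_coeff, Finset.sum_eq_zero, zero_add,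
    Finset.sum_eq_zero]
  · intro i _
    rw [coeff_C_mul, coeff_X_pow, if_neg, mul_zero]
    have := i.2
    omega
  · intro i _
    rw [coeff_C_mul, coeff_X_pow, if_neg, mul_zero]
    have := i.2
    omega

theorem frm_ne (e κ : ℕ) (u : Fin e × Fin (κ - e + 1) ⊕ Fin (κ - e + 1) → k) (hu : u ≠ 0) :
    de (frm e κ u) ≠ 0 := by
  classical
  intro h
  apply hu
  funext i
  rcases i with ⟨c, a⟩ | c
  · have h1 := coeff_low e κ u c
    rw [h, coeff_zero] at h1
    have h2 := congrArg (fun p => p.coeff (a : ℕ)) h1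
    simp only [coeff_zero, finsetSum_coeff, coeff_C_mul, coeff_X_pow] at h2
    rw [Finset.sum_eq_single a] at h2
    · simpa using h2.symm
    · intro b _ hb
      rw [if_neg, mul_zero]
      exact fun h => hb (Fin.ext h.symm)
    · intro h
      exact absurd (Finset.mem_univ _) h
  · have h1 := coeff_high e κ u c
    rw [h, coeff_zero] at h1
    exact (C_eq_zero.1 h1.symm)

/-- Multiples of `q` are not of this shape. -/
theorem frm_not_dvd (q : k[X][X]) (hα : 1 ≤ q.leadingCoeff.natDegree) (κ : ℕ)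
    (u : Fin q.natDegree × Fin (κ - q.natDegree + 1) ⊕ Fin (κ - q.natDegree + 1) → k)
    (hu : u ≠ 0) : ¬ q ∣ de (frm q.natDegree κ u) := by
  rintro ⟨B, hB⟩
  have hG := frm_ne q.natDegree κ u hu
  have hB0 : B ≠ 0 := by
    rintro rfl
    rw [mul_zero] at hB
    exact hG hB
  have hq0 : q ≠ 0 := by
    rintro rfl
    rw [zero_mul] at hB
    exact hG hB
  set N := (de (frm q.natDegree κ u)).natDegree with hN
  have h1 : N = q.natDegree + B.natDegree := by
    rw [hN, hB, natDegree_mul hq0 hB0]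
  have h2 : (de (frm q.natDegree κ u)).leadingCoeff = q.leadingCoeff * B.leadingCoeff := by
    rw [hB, leadingCoeff_mul]
  have h3 : N < q.natDegree + (κ - q.natDegree + 1) := by
    by_contra hge
    push Not at hge
    have := coeff_top q.natDegree κ u N hge
    exact hG (leadingCoeff_eq_zero.1 this)
  have h4 : (de (frm q.natDegree κ u)).leadingCoeff =
      C (u (Sum.inr ⟨B.natDegree, by omega⟩)) := by
    have h5 := coeff_high q.natDegree κ u ⟨B.natDegree, by omega⟩
    rw [← h5]
    change coeff _ N = coeff _ (q.natDegree + B.natDegree)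
    rw [h1]
  have h5 := congrArg natDegree (h4.symm.trans h2)
  rw [natDegree_C, natDegree_mul (leadingCoeff_ne_zero.2 hq0) (leadingCoeff_ne_zero.2 hB0)] at h5
  omega

/-- **The auxiliary form.** -/
theorem exists_aux [Infinite k] (q : k[X][X]) (hα : 1 ≤ q.leadingCoeff.natDegree) :
    ∃ (κ : ℕ) (G : MvPolynomial (Fin 3) k) (b : k) (Q A : k[X][X]),
      G.IsHomogeneous κ ∧ ¬ q ∣ de G ∧ de G = q * Q + C ((X - C b) ^ (κ + 1)) * A := by
  classical
  set e := q.natDegree with he
  set κ := e * (e + 1) with hκ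
  have heκ : e ≤ κ := by rw [hκ]; nlinarith
  set α := q.leadingCoeff with hαd
  have hα0 : α ≠ 0 := by
    intro h
    rw [h, natDegree_zero] at hα
    omega
  -- a point where the leading coefficient does not vanish
  obtain ⟨b, hb⟩ : ∃ b, α.eval b ≠ 0 := by
    by_contra hcon
    push Not at hcon
    exact hα0 (Polynomial.funext fun t => by rw [hcon, eval_zero])
  set w : k[X] := (X - C b) ^ (κ + 1) with hw
  have hcop : IsCoprime α w := by
    apply IsCoprime.pow_right
    have h1 : (X - C b) ∣ α - C (α.eval b) := by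
      rw [dvd_iff_isRoot, IsRoot.def, eval_sub, eval_C, sub_self]
    obtain ⟨s, hs⟩ := h1
    refine ⟨C (α.eval b)⁻¹, -(C (α.eval b)⁻¹ * s), ?_⟩
    have h2 : α = (X - C b) * s + C (α.eval b) := by rw [← hs]; ring
    calc C (α.eval b)⁻¹ * α + -(C (α.eval b)⁻¹ * s) * (X - C b) =
        C (α.eval b)⁻¹ * (α - (X - C b) * s) := by ring
      _ = C (α.eval b)⁻¹ * C (α.eval b) := by rw [← hs]; ring
      _ = 1 := by rw [← C_mul, inv_mul_cancel₀ hb, C_1]
  obtain ⟨β, γ, hβγ⟩ := hcop
  -- the monic polynomial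
  set p : k[X][X] := C β * q + C (γ * w) * X ^ e with hp
  have hpm : p.Monic := by
    apply monic_of_natDegree_le_of_coeff_eq_one e
    · refine (natDegree_add_le _ _).trans (max_le ?_ ?_)
      · exact (natDegree_C_mul_le _ _)
      · exact (natDegree_C_mul_X_pow_le _ _)
    · rw [hp, coeff_add, coeff_C_mul, coeff_C_mul, coeff_X_pow, if_pos rfl, mul_one]
      exact hβγ
  have hpd : p.natDegree = e := by
    apply le_antisymm
    · refine (natDegree_add_le _ _).trans (max_le ?_ ?_)
      · exact (natDegree_C_mul_le _ _)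
      · exact (natDegree_C_mul_X_pow_le _ _)
    · apply le_natDegree_of_ne_zero
      have h1 : p.coeff e = 1 := by
        rw [hp, coeff_add, coeff_C_mul, coeff_C_mul, coeff_X_pow, if_pos rfl, mul_one]
        exact hβγ
      rw [h1]
      exact one_ne_zero
  -- the linear system
  let I := Fin e × Fin (κ - e + 1) ⊕ Fin (κ - e + 1)
  let Λ : (I → k) →ₗ[k] (Fin e × Fin (κ + 1) → k) := LinearMap.pi fun r =>
    ∑ i : I, (LinearMap.proj i).smulRight (Lf p b r.1 r.2 (de (mon e κ i)))
  have hΛ : ∀ u r, Λ u r = Lf p b r.1 r.2 (de (frm e κ u)) := by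
    intro u r
    rw [frm, map_sum, map_sum]
    change (∑ i : I, (LinearMap.proj i).smulRight (Lf p b r.1 r.2 (de (mon e κ i)))) u = _
    rw [LinearMap.sum_apply]
    refine Finset.sum_congr rfl fun i _ => ?_
    rw [LinearMap.smulRight_apply, LinearMap.proj_apply, ← map_smul, ← map_smul,
      MvPolynomial.smul_eq_C_mul]
  have hker : LinearMap.ker Λ ≠ ⊥ := by
    apply LinearMap.ker_ne_bot_of_finrank_lt
    rw [Module.finrank_fintype_fun_eq_card, Module.finrank_fintype_fun_eq_card]
    simp only [I, Fintype.card_sum, Fintype.card_prod, Fintype.card_fin]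
    obtain ⟨s, hs⟩ := Nat.exists_eq_add_of_le heκ
    have h1 : κ - e + 1 = s + 1 := by omega
    rw [h1]
    have h2 : e * (e + 1) = e + s := by rw [← hκ, hs]
    rw [hs]
    nlinarith
  obtain ⟨u, hu, hu0⟩ := (Submodule.ne_bot_iff _).1 hker
  rw [LinearMap.mem_ker] at hu
  set G := frm e κ u with hG
  -- the remainder is divisible
  have hdiv : ∀ j, w ∣ (de G %ₘ p).coeff j := by
    intro j
    by_cases hj : j < e
    · rw [hw, X_sub_C_pow_dvd_iff, ← taylor_apply, X_pow_dvd_iff]
      intro i hi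
      have h1 := congrFun hu (⟨j, hj⟩, ⟨i, hi⟩)
      rw [hΛ] at h1
      exact h1
    · rw [coeff_eq_zero_of_degree_lt, ]
      · exact dvd_zero _
      · refine (degree_modByMonic_lt _ hpm).trans_le ?_
        rw [degree_eq_natDegree hpm.ne_zero, hpd]
        exact_mod_cast (by omega : e ≤ j)
  obtain ⟨r, hr⟩ := (C_dvd_iff_dvd_coeff w (de G %ₘ p)).2 hdiv
  refine ⟨κ, G, b, C β * (de G /ₘ p), C γ * X ^ e * (de G /ₘ p) + r, frm_hom heκ u,
    frm_not_dvd q hα κ u hu0, ?_⟩
  have h1 := modByMonic_add_div (de G) p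
  rw [hr] at h1
  conv_lhs => rw [← h1]
  have h2 : ∀ T : k[X][X], p * T = q * (C β * T) + C w * (C γ * X ^ e * T) := by
    intro T
    rw [hp, C_mul]
    ring
  rw [h2]
  ring

end Pool.Agent.L5helper26.RO
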