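import Mathlib

/-!
Binary forms over algebraically closed fields are products of linear forms.
-/

set_option autoImplicit false
set_option linter.unusedSectionVars false

open MvPolynomial

namespace Pool.Agent.L5helper26.RO

variable {K : Type} [Field K]

theorem hom_aeval {R : Type} [CommRing R] [Algebra K R] {n : ℕ} {f : MvPolynomial (Fin 2) K}
    (hf : f.IsHomogeneous n) (s : R) (v : Fin 2 → R) :
    aeval (fun i => s * v i) f = s ^ n * aeval v f := by
  rw [aeval_def, aeval_def, eval₂_eq', eval₂_eq', Finset.mul_sum]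
  refine Finset.sum_congr rfl fun m hm => ?_
  have h1 : ∑ i, m i = n := by
    have h2 := hf (mem_support_iff.1 hm)
    rw [Finsupp.weight_apply, Finsupp.sum_fintype _ _ (fun i => by simp)] at h2
    simpa using h2
  simp only [mul_pow, Finset.prod_mul_distrib, Finset.prod_pow_eq_pow_sum]
  rw [h1]
  ring

theorem hom_eval {n : ℕ} {f : MvPolynomial (Fin 2) K}
    (hf : f.IsHomogeneous n) (s : K) (v : Fin 2 → K) :
    eval (fun i => s * v i) f = s ^ n * eval v f := by
  have := hom_aeval hf s v
  rwa [MvPolynomial.aeval_eq_eval, MvPolynomial.aeval_eq_eval] at this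

theorem eval_poly (f : MvPolynomial (Fin 2) K) (v : Fin 2 → Polynomial K) (t : K) :
    (aeval v f : Polynomial K).eval t = eval (fun i => (v i).eval t) f := by
  have h : ((Polynomial.aeval t).comp (MvPolynomial.aeval v)) =
      MvPolynomial.aeval (fun i => (v i).eval t) := by
    apply MvPolynomial.algHom_ext
    intro i
    simp
  have h2 := AlgHom.congr_fun h f
  rw [AlgHom.comp_apply, Polynomial.coe_aeval_eq_eval] at h2
  rw [h2, MvPolynomial.aeval_eq_eval]

/-- a binary form vanishing at a point is divisible by the linear form of this point -/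
theorem lin_dvd {n : ℕ} {f : MvPolynomial (Fin 2) K} (hf : f.IsHomogeneous n)
    {x : Fin 2 → K} (hx : x ≠ 0) (h : eval x f = 0) :
    (C (x 0) * X 1 - C (x 1) * X 0 : MvPolynomial (Fin 2) K) ∣ f := by
  obtain ⟨k, hk⟩ := Function.ne_iff.1 hx
  have hk : x k ≠ 0 := hk
  set l : MvPolynomial (Fin 2) K := C (x 0) * X 1 - C (x 1) * X 0 with hl
  set I : Ideal (MvPolynomial (Fin 2) K) := Ideal.span {l} with hI
  let A := MvPolynomial (Fin 2) K ⧸ I
  let v : Fin 2 → A := fun i => Ideal.Quotient.mk I (X i)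
  have hl0 : Ideal.Quotient.mk I l = 0 := Ideal.Quotient.eq_zero_iff_mem.2
    (Ideal.subset_span (Set.mem_singleton _))
  have h01 : algebraMap K A (x 0) * v 1 = algebraMap K A (x 1) * v 0 := by
    rw [hl, map_sub, map_mul, map_mul] at hl0
    exact sub_eq_zero.1 hl0
  have h1 : ∀ i, algebraMap K A (x k) * v i = v k * algebraMap K A (x i) := by
    intro i
    have h2 : k = 0 ∨ k = 1 := by fin_cases k <;> simp
    have h3 : i = 0 ∨ i = 1 := by fin_cases i <;> simp
    rcases h2 with rfl | rfl <;> rcases h3 with rfl | rfl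
    · ring
    · rw [h01]; ring
    · rw [← h01]; ring
    · ring
  have h2 := hom_aeval hf (algebraMap K A (x k)) v
  have h3 := hom_aeval hf (v k) (fun i => algebraMap K A (x i))
  have h4 : (fun i => algebraMap K A (x k) * v i) = fun i => v k * algebraMap K A (x i) :=
    funext h1
  rw [h4, h3] at h2
  have h5 : aeval (fun i => algebraMap K A (x i)) f = algebraMap K A (eval x f) := by
    refine (MvPolynomial.aeval_algebraMap_apply A x f).trans ?_
    rw [MvPolynomial.aeval_eq_eval]
  have h6 : aeval v f = Ideal.Quotient.mk I f := by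
    have : (aeval v : MvPolynomial (Fin 2) K →ₐ[K] A) = Ideal.Quotient.mkₐ K I := by
      apply MvPolynomial.algHom_ext
      intro i
      rw [aeval_X]
      rfl
    rw [this]
    rfl
  rw [h5, h, map_zero, mul_zero, h6] at h2
  have h7 : Ideal.Quotient.mk I (C (x k ^ n) * f) = 0 := by
    rw [map_mul, h2]
    congr 1
    rw [C_pow, map_pow]
    rfl
  have h8 := Ideal.mem_span_singleton.1 (Ideal.Quotient.eq_zero_iff_mem.1 h7)
  have h9 : f = C ((x k ^ n)⁻¹) * (C (x k ^ n) * f) := by
    rw [← mul_assoc, ← C_mul, inv_mul_cancel₀ (pow_ne_zero n hk), C_1, one_mul]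
  rw [h9]
  exact Dvd.dvd.mul_left h8 _

theorem lin_hom (z : Fin 2 → K) :
    (C (z 0) * X 1 - C (z 1) * X 0 : MvPolynomial (Fin 2) K).IsHomogeneous 1 :=
  (isHomogeneous_C_mul_X (z 0) 1).sub (isHomogeneous_C_mul_X (z 1) 0)

attribute [local instance] MvPolynomial.gradedAlgebra in
theorem hom_cofactor {n : ℕ} {l g : MvPolynomial (Fin 2) K} (hl : l.IsHomogeneous 1)
    (hf : (l * g).IsHomogeneous (n + 1)) : ∃ g' : MvPolynomial (Fin 2) K, g'.IsHomogeneous n ∧
      l * g = l * g' := by
  refine ⟨homogeneousComponent n g, homogeneousComponent_isHomogeneous n g, ?_⟩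
  have h1 := DirectSum.coe_decompose_mul_add_of_left_mem (homogeneousSubmodule (Fin 2) K)
    (a := l) (b := g) (i := 1) (j := n) hl
  have h2 : homogeneousComponent (1 + n) (l * g) = l * homogeneousComponent n g :=
    (decomposition.decompose'_apply (l * g) (1 + n)).symm.trans
      (h1.trans (congrArg (l * ·) (decomposition.decompose'_apply g n)))
  rw [← h2, add_comm 1 n]
  exact (homogeneousComponent_eq_self hf).symm

/-- The dehomogenisation. -/
noncomputable def dh (f : MvPolynomial (Fin 2) K) : Polynomial K :=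
  aeval (![1, Polynomial.X] : Fin 2 → Polynomial K) f

theorem eval_dh (f : MvPolynomial (Fin 2) K) (t : K) : (dh f).eval t = eval ![1, t] f := by
  rw [dh, eval_poly]
  congr 2
  funext i
  fin_cases i <;> simp

theorem eval_hom {n : ℕ} {f : MvPolynomial (Fin 2) K} (hf : f.IsHomogeneous n) (x : Fin 2 → K)
    (hx : x 0 ≠ 0) : eval x f = x 0 ^ n * (dh f).eval (x 1 / x 0) := by
  rw [eval_dh, ← hom_eval hf]
  congr 2
  funext i
  fin_cases i
  · simp
  · change x 1 = x 0 * (x 1 / x 0)
    field_simp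

theorem dh_ne {n : ℕ} [Infinite K] {f : MvPolynomial (Fin 2) K} (hf : f.IsHomogeneous n)
    (h0 : f ≠ 0) : dh f ≠ 0 := by
  intro h
  apply h0
  have h1 : (X 0 * f : MvPolynomial (Fin 2) K) = 0 := by
    apply MvPolynomial.funext
    intro x
    rw [map_mul, eval_X, map_zero]
    by_cases hx : x 0 = 0
    · rw [hx, zero_mul]
    · rw [eval_hom hf x hx, h, Polynomial.eval_zero, mul_zero, mul_zero]
  exact (mul_eq_zero.1 h1).resolve_left (X_ne_zero 0)

/-- a binary form of positive degree has a nontrivial zero -/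
theorem exists_zero2 [IsAlgClosed K] {n : ℕ} {f : MvPolynomial (Fin 2) K} (hf : f.IsHomogeneous n)
    (hn : 0 < n) : ∃ x : Fin 2 → K, x ≠ 0 ∧ eval x f = 0 := by
  have : Infinite K := IsAlgClosed.instInfinite
  by_cases hr : ∃ t, (dh f).eval t = 0
  · obtain ⟨t, ht⟩ := hr
    refine ⟨![1, t], fun h => ?_, by rwa [← eval_dh]⟩
    have := congrFun h 0
    simp at this
  push Not at hr
  have hdeg : (dh f).degree = 0 := by
    by_contra hc
    obtain ⟨t, ht⟩ := IsAlgClosed.exists_root (dh f) hc
    exact hr t ht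
  have hC := Polynomial.eq_C_of_degree_eq_zero hdeg
  refine ⟨![0, 1], fun h => ?_, ?_⟩
  · have := congrFun h 1
    simp at this
  -- f = c X_0 ^ n
  have h1 : f = C ((dh f).coeff 0) * X 0 ^ n := by
    have h2 : (X 0 * f : MvPolynomial (Fin 2) K) = X 0 * (C ((dh f).coeff 0) * X 0 ^ n) := by
      apply MvPolynomial.funext
      intro x
      rw [map_mul, map_mul, eval_X, map_mul, eval_C, map_pow, eval_X]
      by_cases hx : x 0 = 0
      · rw [hx, zero_mul, zero_mul]
      · rw [eval_hom hf x hx]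
        conv_lhs => rw [hC, Polynomial.eval_C]
        ring
    exact mul_left_cancel₀ (X_ne_zero 0) h2
  rw [h1]
  simp [hn.ne']

/-- binary forms are products of linear forms -/
theorem bin_fact [IsAlgClosed K] : ∀ (n : ℕ) (f : MvPolynomial (Fin 2) K), f.IsHomogeneous n →
    ∃ (c : K) (z : Fin n → Fin 2 → K), (∀ i, z i ≠ 0) ∧
      f = C c * ∏ i, (C (z i 0) * X 1 - C (z i 1) * X 0) := by
  intro n
  induction n with
  | zero =>
    intro f hf
    refine ⟨coeff 0 f, Fin.elim0, fun i => i.elim0, ?_⟩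
    rw [Fin.prod_univ_zero, mul_one]
    exact totalDegree_eq_zero_iff_eq_C.1 (Nat.le_zero.1 hf.totalDegree_le)
  | succ n ih =>
    intro f hf
    obtain ⟨x, hx, h0⟩ := exists_zero2 hf (Nat.succ_pos n)
    obtain ⟨g, hg⟩ := lin_dvd hf hx h0
    rw [hg] at hf
    obtain ⟨g', hg', e'⟩ := hom_cofactor (lin_hom _) hf
    obtain ⟨c, z, hz, h⟩ := ih g' hg'
    refine ⟨c, Fin.cons x z, fun i => ?_, ?_⟩
    · refine Fin.cases ?_ (fun j => ?_) i
      · exact hx
      · exact hz j
    · rw [hg, e', h, Fin.prod_univ_succ]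
      simp only [Fin.cons_zero, Fin.cons_succ]
      ring

/-- The linear form of a point. -/
def cr (z x : Fin 2 → K) : K := z 0 * x 1 - z 1 * x 0

/-- The values of a binary form. -/
theorem bin_eval [IsAlgClosed K] {n : ℕ} {f : MvPolynomial (Fin 2) K} (hf : f.IsHomogeneous n)
    (h0 : f ≠ 0) : ∃ (c : K) (z : Fin n → Fin 2 → K), c ≠ 0 ∧ (∀ i, z i ≠ 0) ∧
      ∀ x, eval x f = c * ∏ i, cr (z i) x := by
  obtain ⟨c, z, hz, h⟩ := bin_fact n f hf
  refine ⟨c, z, ?_, hz, fun x => ?_⟩
  · rintro rfl
    apply h0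
    rw [h, C_0, zero_mul]
  · rw [h, map_mul, eval_C, map_prod]
    congr 1
    refine Finset.prod_congr rfl fun i _ => ?_
    simp [cr]

end Pool.Agent.L5helper26.RO
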