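import Pool.Agent.L5helper26.RO.Tr
import Pool.Agent.L5helper26.RO.Av
import Pool.Agent.L5helper26.PN.Plane

/-!
Components of forms with respect to a subfield.
-/

set_option autoImplicit false
set_option linter.unusedSectionVars false

open MvPolynomial

namespace Pool.Agent.L5helper26.RO

/-- The components of a form over a larger field. -/
theorem exists_cmp {ι K L : Type} [Field K] [Field L] [Algebra K L] (g : MvPolynomial ι L) :
    ∃ (m : ℕ) (c : Fin m → L) (q : Fin m → MvPolynomial ι K), LinearIndependent K c ∧
      g = ∑ i, C (c i) * map (algebraMap K L) (q i) ∧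
      ∀ e, g.IsHomogeneous e → ∀ i, (q i).IsHomogeneous e := by
  classical
  let W : Submodule K L :=
    Submodule.span K ((fun m => g.coeff m) '' (g.support : Set (ι →₀ ℕ)))
  have hW : FiniteDimensional K W :=
    FiniteDimensional.span_of_finite K ((Finset.finite_toSet _).image _)
  have hmem : ∀ m, g.coeff m ∈ W := by
    intro m
    by_cases h : m ∈ g.support
    · exact Submodule.subset_span ⟨m, h, rfl⟩
    · rw [notMem_support_iff.1 h]
      exact W.zero_mem
  let b := Module.finBasis K W
  refine ⟨Module.finrank K W, fun i => (b i : L),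
    fun i => ∑ m ∈ g.support, monomial m (b.repr ⟨g.coeff m, hmem m⟩ i), ?_, ?_, ?_⟩
  · exact b.linearIndependent.map' W.subtype (Submodule.ker_subtype W)
  · ext m
    have h1 : ∀ i, coeff m (∑ m' ∈ g.support,
        monomial m' (b.repr ⟨g.coeff m', hmem m'⟩ i) : MvPolynomial ι K) =
        b.repr ⟨g.coeff m, hmem m⟩ i := by
      intro i
      rw [coeff_sum]
      simp only [coeff_monomial]
      rw [Finset.sum_ite_eq']
      split_ifs with h
      · rfl
      · have h2 : (⟨g.coeff m, hmem m⟩ : W) = 0 := Subtype.ext (notMem_support_iff.1 h)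
        rw [h2, map_zero]
        rfl
    rw [coeff_sum]
    simp only [coeff_C_mul, coeff_map]
    rw [Finset.sum_congr rfl fun i _ => by rw [h1 i]]
    have h3 := congrArg (fun w : W => (w : L)) (b.sum_repr ⟨g.coeff m, hmem m⟩)
    simp only [Submodule.coe_sum, Submodule.coe_smul] at h3
    refine h3.symm.trans (Finset.sum_congr rfl fun i _ => ?_)
    rw [Algebra.smul_def, mul_comm]
  · intro e he i
    refine IsHomogeneous.sum _ _ _ fun m hm => ?_
    refine isHomogeneous_monomial _ ?_
    exact (DFunLike.congr_fun (Finsupp.degree_eq_weight_one (σ := ι) (R := ℕ)) m).trans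
      (he (mem_support_iff.1 hm))

theorem eval_cmp {ι K L : Type} [Field K] [Field L] [Algebra K L] {g : MvPolynomial ι L}
    {m : ℕ} {c : Fin m → L} {q : Fin m → MvPolynomial ι K} (hc : LinearIndependent K c)
    (hg : g = ∑ i, C (c i) * map (algebraMap K L) (q i)) (v : ι → K) :
    eval (fun i => algebraMap K L (v i)) g = 0 ↔ ∀ i, eval v (q i) = 0 := by
  have h1 : eval (fun i => algebraMap K L (v i)) g = ∑ i, eval v (q i) • c i := by
    rw [hg, map_sum]
    refine Finset.sum_congr rfl fun i _ => ?_
    rw [map_mul, eval_C, eval_map, Algebra.smul_def, mul_comm]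
    congr 1
    exact (eval₂_comp (algebraMap K L) v (q i)).symm
  rw [h1]
  constructor
  · exact fun h => Fintype.linearIndependent_iff.1 hc _ h
  · intro h
    exact Finset.sum_eq_zero fun i _ => by rw [h i, zero_smul]

theorem hom_of_map {ι K L : Type} [Field K] [Field L] (j : K →+* L) {P : MvPolynomial ι K}
    {d : ℕ} (h : (map j P).IsHomogeneous d) : P.IsHomogeneous d := by
  intro m hm
  apply h
  rw [coeff_map]
  exact (map_ne_zero j).2 hm

/-- A closed set over the larger field and the condition on its curves. -/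
theorem cmp_set {ι κ K L : Type} [Finite ι] [Field K] [Field L] [Algebra K L] (e : ι ≃ κ)
    (S : Set (MvPolynomial ι L)) (hS : ∀ g ∈ S, ∃ e : ℕ, g.IsHomogeneous e) (cen : κ → K) :
    ∃ S' : Set (MvPolynomial κ K), (∀ g ∈ S', ∃ e : ℕ, g.IsHomogeneous e) ∧
      ((∀ p : MvPolynomial ι L, Irreducible p → (∀ g ∈ S, p ∣ g) →
        eval (fun i => algebraMap K L (cen (e i))) p = 0) →
        ∀ p : MvPolynomial κ K, Irreducible p → (∀ g ∈ S', p ∣ g) → eval cen p = 0) ∧
      (∀ v : κ → K, (∀ g ∈ S, eval (fun i => algebraMap K L (v (e i))) g = 0) ↔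
        ∀ g ∈ S', eval v g = 0) ∧
      ((∀ g ∈ S', g = 0) → ∀ g ∈ S, g = 0) ∧ ((∀ g ∈ S, g = 0) → ∀ g ∈ S', g = 0) := by
  classical
  choose m c q hc hg hq using fun g : MvPolynomial ι L => exists_cmp (K := K) g
  let S' : Set (MvPolynomial κ K) := {r | ∃ g ∈ S, ∃ i, r = rename e (q g i)}
  have hdec : ∀ g : MvPolynomial ι L, ∀ p : MvPolynomial κ K,
      (∀ i, p ∣ rename e (q g i)) → map (algebraMap K L) (rename e.symm p) ∣ g := by
    intro g p hp
    have h1 : map (algebraMap K L) (rename e.symm p) ∣
        ∑ i, C (c g i) * map (algebraMap K L) (q g i) := by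
      refine Finset.dvd_sum fun i _ => ?_
      obtain ⟨r, hr⟩ := hp i
      have h2 : q g i = rename e.symm p * rename e.symm r := by
        rw [← map_mul, ← hr, rename_rename, Equiv.symm_comp_self, rename_id_apply]
      rw [h2, map_mul]
      exact Dvd.dvd.mul_left (Dvd.intro _ rfl) _
    rwa [← hg g] at h1
  refine ⟨S', ?_, ?_, ?_, ?_, ?_⟩
  · rintro _ ⟨g, hgS, i, rfl⟩
    obtain ⟨n, hn⟩ := hS g hgS
    exact ⟨n, (hq g n hn i).rename_isHomogeneous⟩
  · intro hcen p hirr hp
    set P : MvPolynomial ι L := map (algebraMap K L) (rename e.symm p) with hP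
    have hPS : ∀ g ∈ S, P ∣ g := fun g hgS => hdec g p fun i => hp _ ⟨g, hgS, i, rfl⟩
    have hev : eval (fun i => algebraMap K L (cen (e i))) P = algebraMap K L (eval cen p) := by
      rw [hP, eval_map]
      have h1 := eval₂_comp (algebraMap K L) (fun i => cen (e i)) (rename e.symm p)
      have h2 : eval (fun i => cen (e i)) (rename e.symm p) = eval cen p := by
        rw [eval_rename]
        congr 2
        funext i
        simp
      rw [h2] at h1
      exact h1.symm
    have hP0 : P ≠ 0 := by
      intro h
      have h1 : rename e.symm p = 0 :=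
        map_injective _ (algebraMap K L).injective (by rw [← hP, h, map_zero])
      exact hirr.ne_zero (rename_injective _ e.symm.injective (by rw [h1, map_zero]))
    have hPu : ¬ IsUnit P := by
      intro hu
      obtain ⟨z, hz, hz1⟩ := MvPolynomial.isUnit_iff_eq_C_of_isReduced.1 hu
      have h1 : rename e.symm p = C (coeff 0 (rename e.symm p)) := by
        ext m'
        rw [coeff_C]
        split_ifs with hm
        · rw [hm]
        · have h2 := congrArg (coeff m') hz1
          rw [hP, coeff_map, coeff_C, if_neg hm] at h2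
          exact (map_eq_zero _).1 h2
      have h2 : p = C (coeff 0 (rename e.symm p)) := by
        have h3 := congrArg (rename e) h1
        rwa [rename_rename, Equiv.self_comp_symm, rename_id_apply, rename_C] at h3
      apply hirr.not_isUnit
      rw [h2]
      refine IsUnit.map _ (Ne.isUnit fun h => hirr.ne_zero ?_)
      rw [h2, h, C_0]
    obtain ⟨Q, hQ, hQP⟩ := WfDvdMonoid.exists_irreducible_factor hPu hP0
    have h1 := hcen Q hQ fun g hgS => hQP.trans (hPS g hgS)
    obtain ⟨T, hT⟩ := hQP
    have h2 : eval (fun i => algebraMap K L (cen (e i))) P = 0 := by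
      rw [hT, map_mul, h1, zero_mul]
    rw [hev] at h2
    exact (map_eq_zero _).1 h2
  · intro v
    constructor
    · rintro h _ ⟨g, hgS, i, rfl⟩
      rw [eval_rename]
      exact (eval_cmp (hc g) (hg g) (v ∘ e)).1 (h g hgS) i
    · intro h g hgS
      refine (eval_cmp (hc g) (hg g) (v ∘ e)).2 fun i => ?_
      have h1 := h _ ⟨g, hgS, i, rfl⟩
      rwa [eval_rename] at h1
  · intro h g hgS
    rw [hg g]
    refine Finset.sum_eq_zero fun i _ => ?_
    have h1 : q g i = 0 := rename_injective _ e.injective (by
      rw [h _ ⟨g, hgS, i, rfl⟩, map_zero])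
    rw [h1, map_zero, mul_zero]
  · rintro h _ ⟨g, hgS, i, rfl⟩
    have h0 : ∀ v : ι → L, eval v g = 0 := fun v => by rw [h g hgS, map_zero]
    have h1 : q g i = 0 := by
      have h2 : ∀ m', coeff m' (q g i) = 0 := by
        intro m'
        have h3 := congrArg (coeff m') (hg g)
        have h5 : coeff m' g = 0 := by rw [h g hgS, coeff_zero]
        rw [h5, coeff_sum] at h3
        simp only [coeff_C_mul, coeff_map] at h3
        have h4 : ∑ l, coeff m' (q g l) • c g l = 0 := by
          rw [h3]
          refine Finset.sum_congr rfl fun l _ => ?_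
          rw [Algebra.smul_def, mul_comm]
        exact Fintype.linearIndependent_iff.1 (hc g) _ h4 i
      ext m'
      rw [h2, coeff_zero]
    rw [h1, map_zero]

end Pool.Agent.L5helper26.RO
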