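import Pool.Agent.L5helper26.RO.Alg

/-!
Endomorphisms of the complex projective plane over the algebraic numbers which preserve a pencil.
-/

set_option autoImplicit false
set_option linter.unusedSectionVars false

open MvPolynomial

namespace Pool.Agent.L5helper26.RO

open NumberField Height
open Pool.Agent.H936R2 (pt)
open Pool.Agent.L5helper26.PN (fibered cen Prog)

theorem prog_of_finite {A : Set ℕ} (h : A.Finite) : Prog A := by
  classical
  refine ⟨h.toFinset.image fun n => (0, n), ?_⟩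
  ext n
  rw [Set.mem_ofPred_eq]
  constructor
  · intro hn
    exact ⟨(0, n), Finset.mem_image.2 ⟨n, h.mem_toFinset.2 hn, rfl⟩, 0, by simp⟩
  · rintro ⟨q, hq, m, hm⟩
    obtain ⟨n', hn', rfl⟩ := Finset.mem_image.1 hq
    rw [zero_mul, zero_add] at hm
    rw [hm]
    exact h.mem_toFinset.1 hn'

theorem prog_univ {A : Set ℕ} (h : ∀ n, n ∈ A) : Prog A := by
  refine ⟨{(1, 0)}, ?_⟩
  ext n
  rw [Set.mem_ofPred_eq]
  exact ⟨fun _ => ⟨(1, 0), Finset.mem_singleton_self _, n, by simp⟩, fun _ => h n⟩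

theorem prog_of {ι : Type} {f : ι → MvPolynomial ι ℂ} {a : ι → ℂ} {S : Set (MvPolynomial ι ℂ)}
    (h : {n : ℕ | ∀ g ∈ S, eval ((pt f)^[n] a) g = 0}.Finite ∨ ∀ g ∈ S, g = 0) :
    Prog {n : ℕ | ∀ g ∈ S, eval ((pt f)^[n] a) g = 0} := by
  rcases h with h | h
  · exact prog_of_finite h
  · refine prog_univ fun n => ?_
    rw [Set.mem_ofPred_eq]
    intro g hg
    rw [h g hg, map_zero]

section

variable {d : ℕ} (F : Fin 2 → MvPolynomial (Fin 2) ℂ) (hF : ∀ i, (F i).IsHomogeneous d)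
  (halg : ∀ i κ, IsAlgebraic ℚ ((F i).coeff κ))
  (h0 : ∀ x : Fin 2 → ℂ, (∀ i, eval x (F i) = 0) → x = 0)
  (R : Unit → MvPolynomial (Fin 2 ⊕ Unit) ℂ) (hR : ∀ j, (R j).IsHomogeneous d)
  (hRalg : ∀ κ, IsAlgebraic ℚ ((R ()).coeff κ)) (hc : eval cen (R ()) ≠ 0) (hne : NoExc F)

include hF h0 hR in
/-- The cases in which the orbit of the base point is finite. -/
theorem prog_cases (hd : 2 ≤ d) (a : Fin 2 ⊕ Unit → ℂ)
    (S : Set (MvPolynomial (Fin 2 ⊕ Unit) ℂ)) (hS : ∀ g ∈ S, ∃ e : ℕ, g.IsHomogeneous e)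
    (h : a ∘ Sum.inl ≠ 0 → (∀ n m, n ≠ m → ¬ ∃ c : ℂ, c ≠ 0 ∧
      (pt F)^[n] (a ∘ Sum.inl) = c • (pt F)^[m] (a ∘ Sum.inl)) →
      Prog {n : ℕ | ∀ g ∈ S, eval ((pt (fibered F R))^[n] a) g = 0}) :
    Prog {n : ℕ | ∀ g ∈ S, eval ((pt (fibered F R))^[n] a) g = 0} := by
  by_cases hx : a ∘ Sum.inl = 0
  · exact Pool.Agent.L5helper26.PN.centre F hF R hR hd a hx S
  by_cases hpre : ∃ n m : ℕ, n < m ∧ ∃ c : ℂ, c ≠ 0 ∧
      (pt F)^[m] (a ∘ Sum.inl) = c • (pt F)^[n] (a ∘ Sum.inl)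
  · obtain ⟨n, m, hnm, hp⟩ := hpre
    exact Pool.Agent.L5helper26.PN.preper_base F hF h0 R hR hd a hx n m hnm hp S hS
  · refine h hx fun n m hnm hp => hpre ?_
    rcases lt_or_gt_of_ne hnm with hlt | hlt
    · exact ⟨n, m, hlt, Pool.Agent.L5helper26.DM.Par.symm hp⟩
    · exact ⟨m, n, hlt, hp⟩

include hF hR in
theorem exists_desc (C : Finset ℂ) (hC : ∀ t ∈ C, IsAlgebraic ℚ t)
    (halg : ∀ i κ, IsAlgebraic ℚ ((F i).coeff κ))
    (hRalg : ∀ κ, IsAlgebraic ℚ ((R ()).coeff κ)) :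
    ∃ (k : Type) (_ : Field k) (_ : NumberField k) (j : k →+* ℂ)
      (F' : Fin 2 → MvPolynomial (Fin 2) k) (R' : Unit → MvPolynomial (Fin 2 ⊕ Unit) k),
      mp j F' = F ∧ (fun u => map j (R' u)) = R ∧ (∀ i, (F' i).IsHomogeneous d) ∧
      (∀ u, (R' u).IsHomogeneous d) ∧ ∀ t ∈ C, t ∈ j.range := by
  classical
  let C' : Finset ℂ := (Finset.univ.biUnion fun i => (F i).support.image fun κ => (F i).coeff κ) ∪
    ((R ()).support.image fun κ => (R ()).coeff κ) ∪ C
  have hC' : ∀ t ∈ C', IsAlgebraic ℚ t := by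
    intro t ht
    simp only [C', Finset.mem_union, Finset.mem_biUnion, Finset.mem_image, Finset.mem_univ,
      true_and] at ht
    rcases ht with (⟨i, κ, -, rfl⟩ | ⟨κ, -, rfl⟩) | h
    · exact halg i κ
    · exact hRalg κ
    · exact hC t h
  obtain ⟨k, _, _, j, hj⟩ := exists_nf C' hC'
  have hFj : ∀ i κ, (F i).coeff κ ∈ j.range := by
    intro i κ
    by_cases hκ : κ ∈ (F i).support
    · refine hj _ ?_
      simp only [C', Finset.mem_union, Finset.mem_biUnion, Finset.mem_image, Finset.mem_univ,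
        true_and]
      exact Or.inl (Or.inl ⟨i, κ, hκ, rfl⟩)
    · rw [notMem_support_iff.1 hκ]
      exact zero_mem _
  have hRj : ∀ κ, (R ()).coeff κ ∈ j.range := by
    intro κ
    by_cases hκ : κ ∈ (R ()).support
    · refine hj _ ?_
      simp only [C', Finset.mem_union, Finset.mem_biUnion, Finset.mem_image, Finset.mem_univ,
        true_and]
      exact Or.inl (Or.inr ⟨κ, hκ, rfl⟩)
    · rw [notMem_support_iff.1 hκ]
      exact zero_mem _
  choose F' hF' using fun i => exists_lift j (F i) (hFj i)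
  obtain ⟨R', hR'⟩ := exists_lift j (R ()) hRj
  exact ⟨k, inferInstance, inferInstance, j, F', fun _ => R', funext hF', funext fun _ => hR',
    fun i => hom_of_map j (by rw [hF']; exact hF i),
    fun _ => hom_of_map j (by rw [hR']; exact hR ()),
    fun t ht => hj t (Finset.mem_union_right _ ht)⟩

include hF halg h0 hR hRalg hc hne in
theorem desc_point (hd : 2 ≤ d) (a : Fin 2 ⊕ Unit → ℂ) (ha : ∀ i, IsAlgebraic ℚ (a i)) :
    ∃ (k : Type) (_ : Field k) (_ : NumberField k) (j : k →+* ℂ)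
      (F' : Fin 2 → MvPolynomial (Fin 2) k) (R' : Unit → MvPolynomial (Fin 2 ⊕ Unit) k)
      (x : Fin 2 → k) (y : k),
      mp j F' = F ∧ (fun u => map j (R' u)) = R ∧ (∀ i, (F' i).IsHomogeneous d) ∧
      (∀ u, (R' u).IsHomogeneous d) ∧ a = cv j x y := by
  classical
  obtain ⟨k, _, _, j, F', R', h1, h2, h3, h4, h5⟩ := exists_desc F hF R hR
    (Finset.univ.image a) (by
      intro t ht
      obtain ⟨i, -, rfl⟩ := Finset.mem_image.1 ht
      exact ha i) halg hRalg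
  choose a' ha' using fun i => h5 (a i) (Finset.mem_image.2 ⟨i, Finset.mem_univ _, rfl⟩)
  refine ⟨k, inferInstance, inferInstance, j, F', R', fun i => a' (Sum.inl i), a' (Sum.inr ()), h1, h2, h3, h4, ?_⟩
  funext i
  rcases i with i | i
  · exact (ha' _).symm
  · exact (ha' _).symm

include hF halg h0 hR hRalg hc hne in
/-- Curves through the centre. -/
theorem curves (hd : 2 ≤ d) (a : Fin 2 ⊕ Unit → ℂ) (ha : ∀ i, IsAlgebraic ℚ (a i))
    (S : Set (MvPolynomial (Fin 2 ⊕ Unit) ℂ)) (hS : ∀ g ∈ S, ∃ e : ℕ, g.IsHomogeneous e)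
    (hcen : ∀ p : MvPolynomial (Fin 2 ⊕ Unit) ℂ, Irreducible p → (∀ g ∈ S, p ∣ g) →
      eval cen p = 0) :
    Prog {n : ℕ | ∀ g ∈ S, eval ((pt (fibered F R))^[n] a) g = 0} := by
  refine prog_cases F hF h0 R hR hd a S hS fun hx hpar => ?_
  obtain ⟨k, _, _, j, F', R', x, y, e1, e2, h3, h4, e5⟩ :=
    desc_point F hF halg h0 R hR hRalg hc hne hd a ha
  subst e1 e2 e5
  have hx' : x ≠ 0 := by
    rintro rfl
    apply hx
    funext i
    exact map_zero j
  exact prog_of (curves_k j F' h3 h0 R' h4 hc hne hd hx' y hpar S hS hcen)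

include hF halg h0 hR hRalg hc hne in
/-- Points which are not bounded away from the centre. -/
theorem unbounded (hd : 2 ≤ d) (a : Fin 2 ⊕ Unit → ℂ) (ha : ∀ i, IsAlgebraic ℚ (a i))
    (f : AbsoluteValue ℂ ℝ) (hf : IsNonarchimedean f ∨ ∃ σ : ℂ →+* ℂ, ∀ z, f z = ‖σ z‖)
    (hub : ∀ B : ℝ, ∃ n : ℕ, ∀ i : Fin 2, B * f ((pt (fibered F R))^[n] a (Sum.inl i)) <
        f ((pt (fibered F R))^[n] a (Sum.inr ())))
    (S : Set (MvPolynomial (Fin 2 ⊕ Unit) ℂ)) (hS : ∀ g ∈ S, ∃ e : ℕ, g.IsHomogeneous e) :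
    Prog {n : ℕ | ∀ g ∈ S, eval ((pt (fibered F R))^[n] a) g = 0} := by
  refine prog_cases F hF h0 R hR hd a S hS fun hx hpar => ?_
  obtain ⟨k, _, _, j, F', R', x, y, e1, e2, h3, h4, e5⟩ :=
    desc_point F hF halg h0 R hR hRalg hc hne hd a ha
  subst e1 e2 e5
  have hx' : x ≠ 0 := by
    rintro rfl
    apply hx
    funext i
    exact map_zero j
  exact prog_of (escapes_k j F' h3 h0 R' hne hd hx' y hpar
    (escapes_of_unbounded j F' h3 h0 R' h4 hc hd hx' y f hf hub) S hS)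

end

theorem vc_cv {k : Type} [Field k] (a : Fin 2 ⊕ Unit → k) :
    vc (a (Sum.inr ())) (fun i => a (Sum.inl i)) = a ∘ e3.symm := by
  funext i
  refine Fin.cases ?_ (fun l => ?_) i
  · rfl
  · rfl

/-- Points of large height relative to the base. -/
theorem large_k {k : Type} [Field k] [NumberField k] (j : k →+* ℂ) {d : ℕ}
    (F : Fin 2 → MvPolynomial (Fin 2) k) (hF : ∀ i, (F i).IsHomogeneous d)
    (h0 : ∀ x : Fin 2 → ℂ, (∀ i, eval x (mp j F i) = 0) → x = 0)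
    (R : Unit → MvPolynomial (Fin 2 ⊕ Unit) k) (hR : ∀ u, (R u).IsHomogeneous d)
    (hc : eval cen (map j (R ())) ≠ 0) (hne : NoExc (mp j F)) (hd : 2 ≤ d) :
    ∃ C : ℝ, ∀ a : Fin 2 ⊕ Unit → k, (fun i => a (Sum.inl i)) ≠ 0 →
      logHeight (fun i => a (Sum.inl i)) + C < logHeight a →
      ∀ S : Set (MvPolynomial (Fin 2 ⊕ Unit) ℂ), (∀ g ∈ S, ∃ e : ℕ, g.IsHomogeneous e) →
        Prog {n : ℕ | ∀ g ∈ S,
          eval ((pt (fibered (mp j F) fun u => map j (R u)))^[n] (fun i => j (a i))) g = 0} := by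
  obtain ⟨C, hC⟩ := escape_of_height hd F hF (rename e3 (R ())) (hR ()).rename_isHomogeneous
    (cen_ne j R hc)
  refine ⟨C, fun a ha hlt S hS => ?_⟩
  refine prog_cases (mp j F) (fun i => (hF i).map _) h0 _ (fun u => (hR u).map _) hd _ S hS
    fun hx hpar => ?_
  have e : (fun i => j (a i)) = cv j (fun i => a (Sum.inl i)) (a (Sum.inr ())) := by
    funext i
    rcases i with i | i
    · rfl
    · rfl
  rw [e]
  refine prog_of (escapes_k j F hF h0 R hne hd ha _ hpar ?_ S hS)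
  refine hC _ _ (orb_ne j F h0 R ha _) (fun n => rfl) (fun n => rfl) ?_
  have h1 : logHeight (vc (a (Sum.inr ())) (fun i => a (Sum.inl i))) = logHeight a := by
    rw [vc_cv]
    exact logHeight_comp_equiv _ _
  change logHeight (fun i => a (Sum.inl i)) + C <
    logHeight (vc (a (Sum.inr ())) (fun i => a (Sum.inl i)))
  rw [h1]
  exact hlt

/-- The Northcott property on a line of the pencil. -/
theorem finite_line {k : Type} [Field k] [NumberField k] (x : Fin 2 → k) (hx : x ≠ 0) (C : ℝ) :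
    {y : k | logHeight (Sum.elim x fun _ : Unit => y : Fin 2 ⊕ Unit → k) ≤ C}.Finite := by
  obtain ⟨i, hi⟩ := Function.ne_iff.1 hx
  have hi : x i ≠ 0 := hi
  have h1 : {z : k | logHeight₁ z ≤ C}.Finite := Northcott.finite_le C
  refine (h1.image fun z => z * x i).subset fun y hy => ?_
  rw [Set.mem_ofPred_eq] at hy
  refine ⟨y / x i, ?_, by change y / x i * x i = y; rw [div_mul_cancel₀ _ hi]⟩
  rw [Set.mem_ofPred_eq, logHeight₁_div_eq_logHeight]
  refine le_trans ?_ hy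
  have h2 := logHeight_comp_le ![Sum.inr (), Sum.inl i]
    (Sum.elim x fun _ : Unit => y : Fin 2 ⊕ Unit → k)
  have e : (Sum.elim x fun _ : Unit => y : Fin 2 ⊕ Unit → k) ∘ ![Sum.inr (), Sum.inl i] =
      ![y, x i] := by
    funext l
    fin_cases l
    · rfl
    · rfl
  rw [e] at h2
  exact h2

section

variable {d : ℕ} (F : Fin 2 → MvPolynomial (Fin 2) ℂ) (hF : ∀ i, (F i).IsHomogeneous d)
  (halg : ∀ i κ, IsAlgebraic ℚ ((F i).coeff κ))
  (h0 : ∀ x : Fin 2 → ℂ, (∀ i, eval x (F i) = 0) → x = 0)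
  (R : Unit → MvPolynomial (Fin 2 ⊕ Unit) ℂ) (hR : ∀ j, (R j).IsHomogeneous d)
  (hRalg : ∀ κ, IsAlgebraic ℚ ((R ()).coeff κ)) (hc : eval cen (R ()) ≠ 0) (hne : NoExc F)

include hF h0 hR hc hne in
/-- Points of large height relative to the base. -/
theorem large (hd : 2 ≤ d) (E : IntermediateField ℚ ℂ) [NumberField E]
    (hFE : ∀ i κ, (F i).coeff κ ∈ E) (hRE : ∀ κ, (R ()).coeff κ ∈ E) :
    ∃ C : ℝ, ∀ a : Fin 2 ⊕ Unit → E, (fun i => a (Sum.inl i)) ≠ 0 →
      logHeight (fun i => a (Sum.inl i)) + C < logHeight a →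
      ∀ S : Set (MvPolynomial (Fin 2 ⊕ Unit) ℂ), (∀ g ∈ S, ∃ e : ℕ, g.IsHomogeneous e) →
        Prog {n : ℕ | ∀ g ∈ S,
          eval ((pt (fibered F R))^[n] (fun i => (a i : ℂ))) g = 0} := by
  have hr : ∀ t ∈ E, t ∈ (algebraMap E ℂ).range := fun t ht => ⟨⟨t, ht⟩, rfl⟩
  choose F' hF' using fun i => exists_lift (algebraMap E ℂ) (F i) fun m => hr _ (hFE i m)
  obtain ⟨R', hR'⟩ := exists_lift (algebraMap E ℂ) (R ()) fun m => hr _ (hRE m)
  have e1 : mp (algebraMap E ℂ) F' = F := funext hF'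
  have e2 : (fun u : Unit => map (algebraMap E ℂ) ((fun _ : Unit => R') u)) = R :=
    funext fun _ => hR'
  obtain ⟨C, hC⟩ := large_k (algebraMap E ℂ) F'
    (fun i => hom_of_map (algebraMap E ℂ) (by rw [hF']; exact hF i)) (by rw [e1]; exact h0)
    (fun _ => R') (fun _ => hom_of_map (algebraMap E ℂ) (by rw [hR']; exact hR ()))
    (by rw [hR']; exact hc) (by rw [e1]; exact hne) hd
  rw [e1, e2] at hC
  exact ⟨C, hC⟩

include hF halg h0 hR hRalg hc hne in
/-- Almost all points of a line of the pencil. -/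
theorem almost_all (hd : 2 ≤ d) (E : IntermediateField ℚ ℂ) [NumberField E]
    (x : Fin 2 → ℂ) (hx : x ≠ 0) (hxE : ∀ i, x i ∈ E) :
    {y : ℂ | y ∈ E ∧ ¬ ∀ S : Set (MvPolynomial (Fin 2 ⊕ Unit) ℂ),
      (∀ g ∈ S, ∃ e : ℕ, g.IsHomogeneous e) →
        Prog {n : ℕ | ∀ g ∈ S,
          eval ((pt (fibered F R))^[n] (Sum.elim x fun _ => y)) g = 0}}.Finite := by
  classical
  let C : Finset ℂ := (Finset.univ.biUnion fun i => (F i).support.image fun κ => (F i).coeff κ) ∪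
    ((R ()).support.image fun κ => (R ()).coeff κ)
  have hC : ∀ t ∈ C, IsAlgebraic ℚ t := by
    intro t ht
    simp only [C, Finset.mem_union, Finset.mem_biUnion, Finset.mem_image, Finset.mem_univ,
      true_and] at ht
    rcases ht with ⟨i, κ, -, rfl⟩ | ⟨κ, -, rfl⟩
    · exact halg i κ
    · exact hRalg κ
  let E1 : IntermediateField ℚ ℂ := IntermediateField.adjoin ℚ (C : Set ℂ)
  have hE1 : FiniteDimensional ℚ E1 := IntermediateField.finiteDimensional_adjoin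
    (fun y hy => (hC y hy).isIntegral)
  let E2 : IntermediateField ℚ ℂ := E ⊔ E1
  have hE2 : FiniteDimensional ℚ E2 := IntermediateField.finiteDimensional_sup E E1
  have : NumberField E2 := ⟨⟩
  have hCE : ∀ t ∈ C, t ∈ E2 := fun t ht =>
    (le_sup_right : E1 ≤ E2) (IntermediateField.subset_adjoin ℚ _ ht)
  have hEE : ∀ t ∈ E, t ∈ E2 := fun t ht => (le_sup_left : E ≤ E2) ht
  have hFE : ∀ i κ, (F i).coeff κ ∈ E2 := by
    intro i κ
    by_cases hκ : κ ∈ (F i).support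
    · refine hCE _ ?_
      simp only [C, Finset.mem_union, Finset.mem_biUnion, Finset.mem_image, Finset.mem_univ,
        true_and]
      exact Or.inl ⟨i, κ, hκ, rfl⟩
    · rw [notMem_support_iff.1 hκ]
      exact E2.zero_mem
  have hRE : ∀ κ, (R ()).coeff κ ∈ E2 := by
    intro κ
    by_cases hκ : κ ∈ (R ()).support
    · refine hCE _ ?_
      simp only [C, Finset.mem_union, Finset.mem_biUnion, Finset.mem_image, Finset.mem_univ,
        true_and]
      exact Or.inr ⟨κ, hκ, rfl⟩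
    · rw [notMem_support_iff.1 hκ]
      exact E2.zero_mem
  obtain ⟨c, hc'⟩ := large F hF h0 R hR hc hne hd E2 hFE hRE
  let x' : Fin 2 → E2 := fun i => ⟨x i, hEE _ (hxE i)⟩
  have hx' : x' ≠ 0 := by
    intro h
    apply hx
    funext i
    have := congrFun h i
    exact congrArg Subtype.val this
  refine ((finite_line x' hx' (logHeight x' + c)).image fun y : E2 => (y : ℂ)).subset ?_
  rintro y ⟨hyE, hy⟩
  refine ⟨⟨y, hEE _ hyE⟩, ?_, rfl⟩
  rw [Set.mem_ofPred_eq]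
  by_contra hlt
  push Not at hlt
  apply hy
  intro S hS
  have h1 := hc' (Sum.elim x' fun _ : Unit => ⟨y, hEE _ hyE⟩) hx' hlt S hS
  have e : (fun i => (((Sum.elim x' fun _ : Unit => ⟨y, hEE _ hyE⟩) i : E2) : ℂ)) =
      Sum.elim x fun _ => y := by
    funext i
    rcases i with i | i
    · rfl
    · rfl
  rw [e] at h1
  exact h1

end

end Pool.Agent.L5helper26.RO
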