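import Pool.Agent.L5helper26.RO.Loc

/-!
An orbit which is attracted to the centre at some place meets every curve in finitely many points.
-/

set_option autoImplicit false
set_option linter.unusedSectionVars false

open MvPolynomial

namespace Pool.Agent.L5helper26.RO

open NumberField Height Module IsDedekindDomain
open Pool.Agent.W180.OP (Pl av wt nrm le_nrm nrm_pos nrm_nonneg exists_nrm nrm_le cs cs_nonneg abv_mv)
open Pool.Agent.R847.SN (IsExt exists_isExt)

variable {k : Type} [Field k] [NumberField k]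

section

variable {d : ℕ} (F : Fin 2 → MvPolynomial (Fin 2) k) (hF : ∀ i, (F i).IsHomogeneous d)
  (h0 : ∀ x : Fin 2 → AlgebraicClosure k, (∀ i, aeval x (F i) = 0) → x = 0)

include hF h0 in
theorem escape_finite (hd : 2 ≤ d) (hne : NoExc (cl F)) (v : Pl k) (x : ℕ → Fin 2 → k)
    (y : ℕ → k) (hx0 : x 0 ≠ 0) (hxs : ∀ n, x (n + 1) = sp F (x n))
    (hpar : ∀ n m, n ≠ m → cr (x n) (x m) ≠ 0) (n0 : ℕ) (c : ℝ) (hc : 0 < c)
    (hesc : ∀ n, n0 ≤ n → Real.exp (c * d ^ n) * nrm (av v) (x n) ≤ av v (y n))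
    {D : ℕ} (g : MvPolynomial (Fin 3) k) (hg : g.IsHomogeneous D) (hg0 : g ≠ 0) :
    {n | eval (vc (y n) (x n)) g = 0}.Finite := by
  classical
  have hxit : ∀ n, x n = (sp F)^[n] (x 0) := by
    intro n
    induction n with
    | zero => rfl
    | succ n ih => rw [hxs, Function.iterate_succ_apply', ← ih]
  have hxn : ∀ n, x n ≠ 0 := by
    intro n
    rw [hxit]
    exact sp_iter_ne F (base_zero F h0) hx0 n
  obtain ⟨W, hW⟩ := exists_isExt v
  obtain ⟨C, hC, hzb⟩ := zero_bound (av v) g hg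
  set e := dg g with he
  have heD : e ≤ D := dg_le hg
  set m := D - e with hm
  set a := cf g e with ha
  have hah : a.IsHomogeneous m := cf_hom hg heD
  have ha0 : a ≠ 0 := cf_top hg0
  set a' : MvPolynomial (Fin 2) (AlgebraicClosure k) :=
    map (algebraMap k (AlgebraicClosure k)) a with ha'
  have ha'0 : a' ≠ 0 := by
    intro h
    apply ha0
    apply map_injective _ (algebraMap k (AlgebraicClosure k)).injective
    rw [map_zero]
    exact h
  obtain ⟨c0, t, hc0, ht, hfac⟩ := bin_eval (hah.map (algebraMap k (AlgebraicClosure k))) ha'0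
  have hdR : (2 : ℝ) ≤ d := by exact_mod_cast hd
  set ε : ℝ := c / (2 * (m + 1)) with hε
  have hε0 : 0 < ε := by positivity
  have hsil : ∀ i, ∃ n1 : ℕ, ∀ n, n1 ≤ n → Real.exp (-(ε * d ^ n)) ≤ dl v W (t i) (x n) := by
    intro i
    obtain ⟨n1, h⟩ := sil F hF h0 hd hne hW (x 0) hx0 (fun n m hnm => by
      rw [← hxit, ← hxit]; exact hpar n m hnm) (t i) (ht i) ε hε0
    exact ⟨n1, fun n hn => by rw [hxit]; exact h n hn⟩
  choose n1 hn1 using hsil
  set N1 := ∑ i, n1 i with hN1
  have hN1le : ∀ i, n1 i ≤ N1 := fun i =>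
    Finset.single_le_sum (f := n1) (fun _ _ => Nat.zero_le _) (Finset.mem_univ i)
  have hWc0 : 0 < W c0 := W.pos_iff.2 hc0
  obtain ⟨n2, hn2⟩ : ∃ n2 : ℕ, (C / W c0) / (c / 2) < n2 := exists_nat_gt _
  refine (Set.finite_lt_nat (n0 + N1 + n2 + 1)).subset fun n hn => ?_
  rw [Set.mem_ofPred_eq] at hn ⊢
  by_contra hlt
  push Not at hlt
  have hX := nrm_pos (av v) (hxn n)
  have hes := hesc n (by omega)
  have hdn : (0 : ℝ) < (d : ℝ) ^ n := by positivity
  have hxy : nrm (av v) (x n) ≤ av v (y n) := by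
    refine le_trans ?_ hes
    have h1 : 1 ≤ Real.exp (c * d ^ n) := Real.one_le_exp (by positivity)
    nlinarith
  have h1 := hzb (x n) (y n) (hxn n) hxy hn
  -- the leading coefficient
  have h2 : av v (eval (x n) a) = W c0 * ((∏ i, dl v W (t i) (x n)) * nrm (av v) (x n) ^ m) := by
    have e1 : algebraMap k (AlgebraicClosure k) (eval (x n) a) = eval (up (x n)) a' := by
      rw [ha', eval_map]
      exact eval₂_comp (algebraMap k (AlgebraicClosure k)) (x n) a
    rw [← hW.1, e1, hfac, map_mul, map_prod]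
    congr 1
    have e2 : ∀ i, W (cr (t i) (up (x n))) = dl v W (t i) (x n) * nrm (av v) (x n) := fun i => by
      rw [dl, div_mul_cancel₀ _ hX.ne']
    rw [Finset.prod_congr rfl fun i _ => e2 i, Finset.prod_mul_distrib, Finset.prod_const,
      Finset.card_univ, Fintype.card_fin]
  have h3 : Real.exp (-(ε * d ^ n)) ^ m ≤ ∏ i, dl v W (t i) (x n) := by
    have e1 : Real.exp (-(ε * d ^ n)) ^ m = ∏ _i : Fin m, Real.exp (-(ε * d ^ n)) := by
      rw [Finset.prod_const, Finset.card_univ, Fintype.card_fin]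
    rw [e1]
    exact Finset.prod_le_prod (fun i _ => (Real.exp_pos _).le) fun i _ =>
      hn1 i n (by have := hN1le i; omega)
  have h4 : W c0 * Real.exp (-(ε * d ^ n)) ^ m * nrm (av v) (x n) ^ m ≤ av v (eval (x n) a) := by
    rw [h2, mul_assoc]
    gcongr
  have h5 : W c0 * Real.exp (-(ε * d ^ n)) ^ m * nrm (av v) (x n) ^ m *
      (Real.exp (c * d ^ n) * nrm (av v) (x n)) ≤ C * nrm (av v) (x n) ^ (m + 1) := by
    refine le_trans ?_ h1
    exact mul_le_mul h4 hes (by positivity) ((av v).nonneg _)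
  have h6 : W c0 * (Real.exp (-(ε * d ^ n)) ^ m * Real.exp (c * d ^ n)) ≤ C := by
    have e1 : 0 < nrm (av v) (x n) ^ (m + 1) := by positivity
    refine le_of_mul_le_mul_right (le_trans (le_of_eq ?_) h5) e1
    rw [pow_succ]
    ring
  rw [← Real.exp_nat_mul, ← Real.exp_add] at h6
  have h7 : c / 2 * d ^ n ≤ (m : ℝ) * -(ε * d ^ n) + c * d ^ n := by
    have e1 : (m : ℝ) * ε ≤ c / 2 := by
      rw [hε, mul_div_assoc', div_le_div_iff₀ (by positivity) (by norm_num)]
      nlinarith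
    have e2 : (m : ℝ) * -(ε * d ^ n) = -((m : ℝ) * ε * d ^ n) := by ring
    rw [e2]
    have e3 : (m : ℝ) * ε * d ^ n ≤ c / 2 * d ^ n := mul_le_mul_of_nonneg_right e1 hdn.le
    linarith
  have h8 : W c0 * (c / 2 * d ^ n) ≤ C := by
    refine le_trans ?_ h6
    refine mul_le_mul_of_nonneg_left ?_ hWc0.le
    have e1 := Real.add_one_le_exp ((m : ℝ) * -(ε * d ^ n) + c * d ^ n)
    linarith
  have h9 : (n2 : ℝ) ≤ (d : ℝ) ^ n := by
    have e1 : n2 ≤ n := by omega
    have e2 : n < d ^ n := Nat.lt_pow_self (by omega)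
    have e3 : n2 ≤ d ^ n := by omega
    exact_mod_cast e3
  have h10 := hn2.trans_le h9
  rw [div_lt_iff₀ (by positivity), div_lt_iff₀ hWc0] at h10
  linarith

end

end Pool.Agent.L5helper26.RO
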