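import Pool.Agent.L5helper26.RO.Elim
import Pool.Agent.L5helper26.RO.AuxF

/-!
Points of a plane curve through the centre whose last coordinate is bounded by the first two at all
places have bounded height.
-/

set_option autoImplicit false
set_option linter.unusedSectionVars false

open MvPolynomial

namespace Pool.Agent.L5helper26.RO

open NumberField Height Module IsDedekindDomain
open Pool.Agent.W180.OP (Pl av wt nrm le_nrm nrm_pos nrm_nonneg exists_nrm nrm_le cs cs_nonneg abv_mv
  wt_nonneg)

section field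

variable {K : Type} [Field K]

theorem ev_sum (A : Polynomial (Polynomial K)) (t y : K) : A.evalEval t y =
    ∑ j ∈ A.support, ∑ i ∈ (A.coeff j).support, (A.coeff j).coeff i * t ^ i * y ^ j := by
  rw [Polynomial.evalEval, Polynomial.eval_eq_sum (p := A), Polynomial.sum,
    Polynomial.eval_finsetSum]
  refine Finset.sum_congr rfl fun j _ => ?_
  rw [Polynomial.eval_mul, Polynomial.eval_pow, Polynomial.eval_C, Polynomial.eval_eq_sum,
    Polynomial.sum, Finset.sum_mul]

theorem ev_bound (f : AbsoluteValue K ℝ) (A : Polynomial (Polynomial K)) (T : ℝ) (hT : 1 ≤ T) :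
    ∃ C : ℝ, 0 ≤ C ∧ ∀ t y : K, f t ≤ T → f y ≤ T → f (A.evalEval t y) ≤ C := by
  refine ⟨∑ j ∈ A.support, ∑ i ∈ (A.coeff j).support, f ((A.coeff j).coeff i) * T ^ i * T ^ j,
    ?_, fun t y ht hy => ?_⟩
  · exact Finset.sum_nonneg fun j _ => Finset.sum_nonneg fun i _ =>
      mul_nonneg (mul_nonneg (f.nonneg _) (by positivity)) (by positivity)
  · rw [ev_sum]
    refine (f.sum_le _ _).trans (Finset.sum_le_sum fun j _ => ?_)
    refine (f.sum_le _ _).trans (Finset.sum_le_sum fun i _ => ?_)
    rw [map_mul, map_mul, map_pow, map_pow]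
    have := f.nonneg t
    have := f.nonneg y
    have := f.nonneg ((A.coeff j).coeff i)
    gcongr

theorem ev_na (f : AbsoluteValue K ℝ) (hf : IsNonarchimedean f) (A : Polynomial (Polynomial K))
    (hA : ∀ j i, f ((A.coeff j).coeff i) ≤ 1) (t y : K) (ht : f t ≤ 1) (hy : f y ≤ 1) :
    f (A.evalEval t y) ≤ 1 := by
  rw [ev_sum]
  refine Pool.Agent.R847.HG.na_sum_le hf _ _ _ zero_le_one fun j _ => ?_
  refine Pool.Agent.R847.HG.na_sum_le hf _ _ _ zero_le_one fun i _ => ?_
  rw [map_mul, map_mul, map_pow, map_pow]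
  have h1 := f.nonneg t
  have h2 := f.nonneg y
  have h3 := f.nonneg ((A.coeff j).coeff i)
  have h4 : f t ^ i ≤ 1 := pow_le_one₀ h1 ht
  have h5 : f y ^ j ≤ 1 := pow_le_one₀ h2 hy
  calc f ((A.coeff j).coeff i) * f t ^ i * f y ^ j ≤ 1 * 1 * 1 := by
        gcongr
        exact hA j i
    _ = 1 := by norm_num

/-- The value of a form and of its dehomogenisation. -/
theorem eval_vc_de {n : ℕ} {G : MvPolynomial (Fin 3) K} (hG : G.IsHomogeneous n) (x : Fin 2 → K)
    (y : K) (hx : x 0 ≠ 0) :
    eval (vc y x) G = x 0 ^ n * (de G).evalEval (x 1 / x 0) (y / x 0) := by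
  rw [eval_de, ← hom_eval3 hG]
  congr 2
  funext i
  fin_cases i
  · change y = x 0 * (y / x 0)
    field_simp
  · change x 0 = x 0 * 1
    rw [mul_one]
  · change x 1 = x 0 * (x 1 / x 0)
    field_simp

end field

variable {k : Type} [Field k] [NumberField k]

theorem bounded_height {D κ : ℕ} (p G : MvPolynomial (Fin 3) k) (hp : p.IsHomogeneous D)
    (hG : G.IsHomogeneous κ) (b : k) (Q A : Polynomial (Polynomial k))
    (hGA : de G = de p * Q + Polynomial.C ((Polynomial.X - Polynomial.C b) ^ (κ + 1)) * A)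
    (S0 : Finset (Pl k))
    (hS0 : ∀ w : InfinitePlace k, Sum.inl w ∈ S0) (B : Pl k → ℝ) (hB : ∀ v, 1 ≤ B v) :
    ∃ Cst : ℝ,
      ∀ (x : Fin 2 → k) (y : k), x 0 ≠ 0 → x 1 ≠ b * x 0 → eval (vc y x) p = 0 →
        eval (vc y x) G ≠ 0 → (∀ v ∈ S0, av v y ≤ B v * nrm (av v) x) →
        (∀ v, v ∉ S0 → av v y ≤ nrm (av v) x) → logHeight x ≤ Cst := by
  classical
  -- the finite sets of coefficients
  let Ac : Set k := (⋃ j ∈ A.support, (fun i => (A.coeff j).coeff i) ''
      ((A.coeff j).support : Set ℕ)) ∪
    (fun m => G.coeff m) '' (G.support : Set (Fin 3 →₀ ℕ)) ∪ {b}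
  have hAc : Ac.Finite := by
    refine Set.Finite.union (Set.Finite.union ?_ ?_) (Set.toFinite _)
    · exact Set.Finite.biUnion A.support.finite_toSet fun j _ =>
        ((A.coeff j).support.finite_toSet).image _
    · exact (G.support.finite_toSet).image _
  obtain ⟨S1, hS1, hS2⟩ := exists_S Ac hAc
  set S : Finset (Pl k) := S0 ∪ S1 with hS
  -- the constants
  let T : Pl k → ℝ := fun v => 2 * (1 + av v b)
  have hT : ∀ v, 1 ≤ T v := fun v => by
    have := (av v).nonneg b
    simp only [T]
    linarith
  choose CA hCA0 hCA using fun v : Pl k => ev_bound (av v) A (B v * T v)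
    (one_le_mul_of_one_le_of_one_le (hB v) (hT v))
  let Cv : Pl k → ℝ := fun v => 1 + T v * CA v + cs (av v) G * B v ^ κ * 2 ^ (κ + 1)
  have hCv : ∀ v, 1 ≤ Cv v := fun v => by
    have h1 := hCA0 v
    have h2 := hT v
    have h3 := cs_nonneg (av v) G
    have h4 := hB v
    have h5 : 0 ≤ T v * CA v := mul_nonneg (by linarith) h1
    have h6 : 0 ≤ cs (av v) G * B v ^ κ * 2 ^ (κ + 1) := by positivity
    simp only [Cv]
    linarith
  refine ⟨∑ v ∈ S, wt v * Real.log (Cv v), fun x y hx0 hxb hpz hGz hy1 hy2 => ?_⟩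
  have hx : x ≠ 0 := fun h => hx0 (congrFun h 0)
  have hx' : x 1 - b * x 0 ≠ 0 := sub_ne_zero.2 hxb
  set s : k := eval (vc y x) G / (x 1 - b * x 0) ^ (κ + 1) with hs
  have hs0 : s ≠ 0 := div_ne_zero hGz (pow_ne_zero _ hx')
  set z : Fin 2 → k := s • x with hz
  have hz0 : z ≠ 0 := smul_ne_zero hs0 hx
  have hht : logHeight x = logHeight z := by
    rw [hz, logHeight_eq_log_mulHeight, logHeight_eq_log_mulHeight, mulHeight_smul_eq_mulHeight x hs0]
  -- in the chart
  have hq0 : (de p).evalEval (x 1 / x 0) (y / x 0) = 0 := by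
    have h1 := eval_vc_de hp x y hx0
    rw [hpz] at h1
    exact (mul_eq_zero.1 h1.symm).resolve_left (pow_ne_zero _ hx0)
  have hGv : eval (vc y x) G = x 0 ^ κ * ((x 1 / x 0 - b) ^ (κ + 1) *
      A.evalEval (x 1 / x 0) (y / x 0)) := by
    rw [eval_vc_de hG x y hx0, hGA, Polynomial.evalEval_add, Polynomial.evalEval_mul, hq0, zero_mul,
      zero_add, Polynomial.evalEval_mul, Polynomial.evalEval_C, Polynomial.eval_pow,
      Polynomial.eval_sub, Polynomial.eval_X, Polynomial.eval_C]
  have hsA : s = A.evalEval (x 1 / x 0) (y / x 0) / x 0 := by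
    rw [hs, hGv]
    have h1 : x 1 / x 0 - b = (x 1 - b * x 0) / x 0 := by
      field_simp
    rw [h1, div_pow]
    field_simp
    ring
  have hzA : ∀ i, z i = x i / x 0 * A.evalEval (x 1 / x 0) (y / x 0) := by
    intro i
    rw [hz, Pi.smul_apply, smul_eq_mul, hsA]
    ring
  have hzG : ∀ i, z i = x i * eval (vc y x) G / (x 1 - b * x 0) ^ (κ + 1) := by
    intro i
    rw [hz, Pi.smul_apply, smul_eq_mul, hs]
    ring
  -- the norm of x
  have hnle : ∀ v : Pl k, nrm (av v) x ≤ max (av v (x 0)) (av v (x 1)) := by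
    intro v
    refine nrm_le (le_max_of_le_left ((av v).nonneg _)) fun i => ?_
    fin_cases i
    · exact le_max_left _ _
    · exact le_max_right _ _
  have hvx0 : ∀ v : Pl k, 0 < av v (x 0) := fun v => (av v).pos_iff.2 hx0
  -- places outside of S
  have hout : ∀ v, v ∉ S → ∀ i, av v (z i) ≤ 1 := by
    intro v hv i
    have hv0 : v ∉ S0 := fun h => hv (Finset.mem_union_left _ h)
    have hv1 : v ∉ S1 := fun h => hv (Finset.mem_union_right _ h)
    obtain ⟨hna, hint⟩ := hS2 v hv1
    have hyx := hy2 v hv0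
    rcases le_or_gt (av v (x 1)) (av v (x 0)) with hle | hgt
    · have hX : nrm (av v) x ≤ av v (x 0) := (hnle v).trans (max_le le_rfl hle)
      have hxi : av v (x i / x 0) ≤ 1 := by
        rw [map_div₀, div_le_one (hvx0 v)]
        exact (le_nrm (av v) x i).trans hX
      have h1 : av v (A.evalEval (x 1 / x 0) (y / x 0)) ≤ 1 := by
        apply ev_na (av v) hna
        · intro j i
          by_cases hj : j ∈ A.support
          · by_cases hi : i ∈ (A.coeff j).support
            · exact hint _ (Or.inl (Or.inl (Set.mem_biUnion hj ⟨i, hi, rfl⟩)))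
            · rw [Polynomial.notMem_support_iff.1 hi, map_zero]
              exact zero_le_one
          · rw [Polynomial.notMem_support_iff.1 hj, Polynomial.coeff_zero, map_zero]
            exact zero_le_one
        · rw [map_div₀, div_le_one (hvx0 v)]
          exact hle
        · rw [map_div₀, div_le_one (hvx0 v)]
          exact hyx.trans hX
      rw [hzA, map_mul]
      calc _ ≤ (1 : ℝ) * 1 := mul_le_mul hxi h1 ((av v).nonneg _) zero_le_one
        _ = 1 := one_mul 1
    · have hX : nrm (av v) x ≤ av v (x 1) := (hnle v).trans (max_le hgt.le le_rfl)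
      have hx1 : 0 < av v (x 1) := (hvx0 v).trans hgt
      have h1 : av v (x 1) ≤ av v (x 1 - b * x 0) := by
        have h2 : av v (x 1) ≤ max (av v (x 1 - b * x 0)) (av v (b * x 0)) := by
          have h3 := hna (x 1 - b * x 0) (b * x 0)
          rwa [sub_add_cancel] at h3
        rcases le_max_iff.1 h2 with h3 | h3
        · exact h3
        · exfalso
          have h4 : av v b ≤ 1 := hint _ (Or.inr rfl)
          rw [map_mul] at h3
          have h5 := (hvx0 v).le
          nlinarith
      have h2 : av v (eval (vc y x) G) ≤ av v (x 1) ^ κ := by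
        refine (na_eval (av v) hna G hG (fun m => ?_) _).trans ?_
        · by_cases hm : m ∈ G.support
          · exact hint _ (Or.inl (Or.inr ⟨m, hm, rfl⟩))
          · rw [notMem_support_iff.1 hm, map_zero]
            exact zero_le_one
        · refine pow_le_pow_left₀ (nrm_nonneg _ _) ?_ κ
          refine nrm_le hx1.le fun j => ?_
          refine Fin.cases ?_ (fun l => ?_) j
          · exact hyx.trans hX
          · exact (le_nrm (av v) x l).trans hX
      rw [hzG, map_div₀, map_mul, map_pow, div_le_one (pow_pos (hx1.trans_le h1) _)]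
      calc av v (x i) * av v (eval (vc y x) G) ≤ av v (x 1) * av v (x 1) ^ κ :=
            mul_le_mul ((le_nrm (av v) x i).trans hX) h2 ((av v).nonneg _) hx1.le
        _ = av v (x 1) ^ (κ + 1) := by rw [pow_succ]; ring
        _ ≤ _ := pow_le_pow_left₀ hx1.le h1 _
  -- places in S
  have hin : ∀ v ∈ S, nrm (av v) z ≤ Cv v := by
    intro v _
    have hyx : av v y ≤ B v * nrm (av v) x := by
      by_cases h : v ∈ S0
      · exact hy1 v h
      · refine (hy2 v h).trans ?_
        have h1 := hB v
        have h2 := nrm_nonneg (av v) x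
        nlinarith
    have hBv := hB v
    have hTv := hT v
    have hCA0v := hCA0 v
    have hcs := cs_nonneg (av v) G
    refine nrm_le (by have := hCv v; linarith) fun i => ?_
    rcases le_or_gt (av v (x 1)) (T v * av v (x 0)) with hle | hgt
    · have hX : nrm (av v) x ≤ T v * av v (x 0) := (hnle v).trans (max_le (by
        have := hvx0 v; nlinarith) hle)
      have hxi : av v (x i / x 0) ≤ T v := by
        rw [map_div₀, div_le_iff₀ (hvx0 v)]
        exact (le_nrm (av v) x i).trans hX
      have h1 : av v (A.evalEval (x 1 / x 0) (y / x 0)) ≤ CA v := by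
        apply hCA v
        · rw [map_div₀, div_le_iff₀ (hvx0 v)]
          refine hle.trans (mul_le_mul_of_nonneg_right ?_ (hvx0 v).le)
          exact le_mul_of_one_le_left (by linarith) hBv
        · rw [map_div₀, div_le_iff₀ (hvx0 v)]
          calc av v y ≤ B v * nrm (av v) x := hyx
            _ ≤ B v * (T v * av v (x 0)) := mul_le_mul_of_nonneg_left hX (by linarith)
            _ = _ := by ring
      rw [hzA, map_mul]
      have h2 : av v (x i / x 0) * av v (A.evalEval (x 1 / x 0) (y / x 0)) ≤ T v * CA v :=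
        mul_le_mul hxi h1 ((av v).nonneg _) (by linarith)
      have h6 : 0 ≤ cs (av v) G * B v ^ κ * 2 ^ (κ + 1) := by positivity
      simp only [Cv]
      linarith
    · have hx1 : 0 < av v (x 1) := lt_of_le_of_lt (mul_nonneg (by linarith) (hvx0 v).le) hgt
      have hX : nrm (av v) x ≤ av v (x 1) := (hnle v).trans (max_le (by
        have := hvx0 v; nlinarith) le_rfl)
      have h1 : av v (x 1) / 2 ≤ av v (x 1 - b * x 0) := by
        have h2 : av v (x 1) ≤ av v (x 1 - b * x 0) + av v (b * x 0) := by
          have h3 := (av v).add_le (x 1 - b * x 0) (b * x 0)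
          rwa [sub_add_cancel] at h3
        rw [map_mul] at h2
        have h4 := (av v).nonneg b
        have h5 := hvx0 v
        simp only [T] at hgt
        nlinarith
      have h2 : av v (eval (vc y x) G) ≤ cs (av v) G * (B v * av v (x 1)) ^ κ := by
        refine (abv_mv (av v) G hG _).trans ?_
        refine mul_le_mul_of_nonneg_left ?_ hcs
        refine pow_le_pow_left₀ (nrm_nonneg _ _) ?_ κ
        refine nrm_le (by positivity) fun j => ?_
        refine Fin.cases ?_ (fun l => ?_) j
        · refine hyx.trans ?_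
          gcongr
        · refine (le_nrm (av v) x l).trans ?_
          nlinarith
      rw [hzG, map_div₀, map_mul, map_pow]
      have h3 : 0 < av v (x 1 - b * x 0) := (av v).pos_iff.2 hx'
      rw [div_le_iff₀ (pow_pos h3 _)]
      calc av v (x i) * av v (eval (vc y x) G) ≤
          av v (x 1) * (cs (av v) G * (B v * av v (x 1)) ^ κ) :=
            mul_le_mul ((le_nrm (av v) x i).trans hX) h2 ((av v).nonneg _) hx1.le
        _ = cs (av v) G * B v ^ κ * 2 ^ (κ + 1) * (av v (x 1) / 2) ^ (κ + 1) := by
            rw [mul_pow, div_pow, pow_succ (av v (x 1)) κ]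
            field_simp
        _ ≤ cs (av v) G * B v ^ κ * 2 ^ (κ + 1) * av v (x 1 - b * x 0) ^ (κ + 1) := by
            gcongr
        _ ≤ Cv v * av v (x 1 - b * x 0) ^ (κ + 1) := by
            refine mul_le_mul_of_nonneg_right ?_ (pow_pos h3 _).le
            simp only [Cv]
            have : 0 ≤ T v * CA v := mul_nonneg (by linarith) hCA0v
            linarith
  rw [hht]
  refine (Pool.Agent.R847.SN.height_le S (fun w => Finset.mem_union_left _ (hS0 w)) z hz0
    hout).trans ?_
  refine Finset.sum_le_sum fun v hv => mul_le_mul_of_nonneg_left ?_ (wt_nonneg v)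
  exact Real.log_le_log (nrm_pos (av v) hz0) (hin v hv)

end Pool.Agent.L5helper26.RO
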