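import Pool.Agent.L5helper26.RO.Sil
import Pool.Agent.R847.SN.Glob

/-!
The growth of the last coordinate relative to the first two: local estimates.
-/

set_option autoImplicit false
set_option linter.unusedSectionVars false

open MvPolynomial

namespace Pool.Agent.L5helper26.RO

open NumberField Height Module IsDedekindDomain
open Pool.Agent.W180.OP (Pl av wt nrm le_nrm nrm_pos nrm_nonneg exists_nrm nrm_le cs cs_nonneg abv_mv
  fv_support_finite)
open Pool.Agent.R847.SN (IsExt)

section field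

variable {K : Type} [Field K]

/-- The vector `(y, x)`. -/
def vc (y : K) (x : Fin 2 → K) : Fin 3 → K := Fin.cons y x

/-- The coefficients with respect to the first variable. -/
noncomputable def cf (g : MvPolynomial (Fin 3) K) (j : ℕ) : MvPolynomial (Fin 2) K :=
  (finSuccEquiv K 2 g).coeff j

/-- The degree with respect to the first variable. -/
noncomputable def dg (g : MvPolynomial (Fin 3) K) : ℕ := (finSuccEquiv K 2 g).natDegree

theorem eval_vc (g : MvPolynomial (Fin 3) K) (y : K) (x : Fin 2 → K) :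
    eval (vc y x) g = ∑ j ∈ Finset.range (dg g + 1), eval x (cf g j) * y ^ j := by
  have h := eval_eq_eval_mv_eval' x y g
  rw [Polynomial.eval_map, Polynomial.eval₂_eq_sum_range] at h
  exact h

theorem dg_le {D : ℕ} {g : MvPolynomial (Fin 3) K} (hg : g.IsHomogeneous D) : dg g ≤ D := by
  rw [dg, natDegree_finSuccEquiv]
  exact (degreeOf_le_totalDegree g 0).trans hg.totalDegree_le

theorem cf_hom {D : ℕ} {g : MvPolynomial (Fin 3) K} (hg : g.IsHomogeneous D) {j : ℕ}
    (hj : j ≤ D) : (cf g j).IsHomogeneous (D - j) :=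
  hg.finSuccEquiv_coeff_isHomogeneous j (D - j) (by omega)

theorem cf_top {g : MvPolynomial (Fin 3) K} (hg : g ≠ 0) : cf g (dg g) ≠ 0 := by
  rw [cf, dg]
  have h : (finSuccEquiv K 2 g) ≠ 0 := fun h => hg ((finSuccEquiv K 2).injective (by
    rw [h, map_zero]))
  exact Polynomial.leadingCoeff_ne_zero.2 h

theorem lead_bound (f : AbsoluteValue K ℝ) {D : ℕ} (g : MvPolynomial (Fin 3) K)
    (hg : g.IsHomogeneous D) : ∃ C : ℝ, 0 ≤ C ∧ ∀ (x : Fin 2 → K) (y : K), nrm f x ≤ f y →
      f (eval (vc y x) g - eval x (cf g (dg g)) * y ^ dg g) * f y ≤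
        C * nrm f x ^ (D - dg g + 1) * f y ^ dg g := by
  set e := dg g with he
  have heD : e ≤ D := dg_le hg
  refine ⟨∑ j ∈ Finset.range e, cs f (cf g j), Finset.sum_nonneg fun _ _ => cs_nonneg _ _,
    fun x y hxy => ?_⟩
  have hX := nrm_nonneg f x
  have hY := f.nonneg y
  have h1 : eval (vc y x) g - eval x (cf g e) * y ^ e =
      ∑ j ∈ Finset.range e, eval x (cf g j) * y ^ j := by
    rw [eval_vc, Finset.sum_range_succ]
    ring
  rw [h1, Finset.sum_mul, Finset.sum_mul]
  calc f (∑ j ∈ Finset.range e, eval x (cf g j) * y ^ j) * f y ≤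
      (∑ j ∈ Finset.range e, f (eval x (cf g j) * y ^ j)) * f y :=
        mul_le_mul_of_nonneg_right (f.sum_le _ _) hY
    _ = ∑ j ∈ Finset.range e, f (eval x (cf g j) * y ^ j) * f y := Finset.sum_mul _ _ _
    _ ≤ _ := Finset.sum_le_sum fun j hj => ?_
  rw [Finset.mem_range] at hj
  rw [map_mul, map_pow]
  have h2 := abv_mv f (cf g j) (cf_hom hg (by omega : j ≤ D)) x
  have h3 : nrm f x ^ (D - j) ≤ nrm f x ^ (D - e + 1) * f y ^ (e - 1 - j) := by
    have e1 : D - j = (D - e + 1) + (e - 1 - j) := by omega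
    rw [e1, pow_add]
    exact mul_le_mul_of_nonneg_left (pow_le_pow_left₀ hX hxy _) (pow_nonneg hX _)
  calc f (eval x (cf g j)) * f y ^ j * f y ≤
      (cs f (cf g j) * (nrm f x ^ (D - e + 1) * f y ^ (e - 1 - j))) * f y ^ j * f y := by
        gcongr
        exact h2.trans (mul_le_mul_of_nonneg_left h3 (cs_nonneg _ _))
    _ = cs f (cf g j) * nrm f x ^ (D - e + 1) * f y ^ e := by
        have e2 : e = (e - 1 - j) + j + 1 := by omega
        conv_rhs => rw [e2, pow_add, pow_add, pow_one]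
        rw [← e2]
        ring

/-- At a zero the leading coefficient is small. -/
theorem zero_bound (f : AbsoluteValue K ℝ) {D : ℕ} (g : MvPolynomial (Fin 3) K)
    (hg : g.IsHomogeneous D) : ∃ C : ℝ, 0 ≤ C ∧ ∀ (x : Fin 2 → K) (y : K), x ≠ 0 →
      nrm f x ≤ f y → eval (vc y x) g = 0 →
      f (eval x (cf g (dg g))) * f y ≤ C * nrm f x ^ (D - dg g + 1) := by
  obtain ⟨C, hC, h⟩ := lead_bound f g hg
  refine ⟨C, hC, fun x y hx hxy h0 => ?_⟩
  have hy : 0 < f y := (nrm_pos f hx).trans_le hxy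
  have h1 := h x y hxy
  rw [h0, zero_sub, AbsoluteValue.map_neg, map_mul, map_pow] at h1
  have h2 : 0 < f y ^ dg g := by positivity
  refine le_of_mul_le_mul_right ?_ h2
  linarith

/-- The value at the centre. -/
theorem cf_const {d : ℕ} {R : MvPolynomial (Fin 3) K} (hR : R.IsHomogeneous d)
    (hc : eval (vc 1 0) R ≠ 0) : dg R = d ∧ ∀ x, eval x (cf R d) = eval (vc 1 0) R := by
  have h1 : ∀ x, eval x (cf R d) = eval 0 (cf R d) := by
    intro x
    have h2 := cf_hom hR (le_refl d)
    rw [Nat.sub_self] at h2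
    have h3 : (cf R d).totalDegree = 0 := Nat.le_zero.1 h2.totalDegree_le
    rw [totalDegree_eq_zero_iff_eq_C.1 h3, eval_C, eval_C]
  have h2 : ∀ j, j < d → eval 0 (cf R j) = 0 := by
    intro j hj
    have h3 := hom_eval (cf_hom hR hj.le) (0 : K) (0 : Fin 2 → K)
    rw [zero_pow (by omega), zero_mul] at h3
    have e : (fun i => (0 : K) * (0 : Fin 2 → K) i) = 0 := by
      funext i; simp
    rwa [e] at h3
  have hdg : dg R = d := by
    rcases lt_or_eq_of_le (dg_le hR) with h | h
    · exfalso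
      apply hc
      rw [eval_vc]
      refine Finset.sum_eq_zero fun j hj => ?_
      rw [Finset.mem_range] at hj
      rw [h2 j (by omega), zero_mul]
    · exact h
  refine ⟨hdg, fun x => ?_⟩
  rw [h1, eval_vc, hdg, Finset.sum_range_succ, Finset.sum_eq_zero, zero_add, one_pow, mul_one]
  intro j hj
  rw [h2 j (Finset.mem_range.1 hj), zero_mul]

theorem na_eval (f : AbsoluteValue K ℝ) (hf : IsNonarchimedean f) {n D : ℕ}
    (G : MvPolynomial (Fin n) K) (hG : G.IsHomogeneous D) (h1 : ∀ m, f (G.coeff m) ≤ 1)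
    (x : Fin n → K) : f (eval x G) ≤ nrm f x ^ D := by
  rw [MvPolynomial.eval_eq]
  refine Pool.Agent.R847.HG.na_sum_le hf _ _ _ (pow_nonneg (nrm_nonneg _ _) _) fun m hm => ?_
  rw [map_mul]
  calc f (G.coeff m) * f (∏ i ∈ m.support, x i ^ m i) ≤ 1 * f (∏ i ∈ m.support, x i ^ m i) :=
        mul_le_mul_of_nonneg_right (h1 m) (f.nonneg _)
    _ = f (∏ i ∈ m.support, x i ^ m i) := one_mul _
    _ ≤ _ := ?_
  rw [map_prod]
  have h1 : m.degree = D := by
    have := hG (MvPolynomial.mem_support_iff.1 hm)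
    exact (DFunLike.congr_fun (Finsupp.degree_eq_weight_one (σ := Fin n) (R := ℕ)) m).trans this
  have h2 : ∑ i ∈ m.support, m i = D := by rw [← h1]; rfl
  rw [← h2, ← Finset.prod_pow_eq_pow_sum]
  refine Finset.prod_le_prod (fun i _ => f.nonneg _) fun i _ => ?_
  rw [map_pow]
  exact pow_le_pow_left₀ (f.nonneg _) (le_nrm f x i) _

end field

variable {k : Type} [Field k] [NumberField k]

theorem na_av (v : HeightOneSpectrum (𝓞 k)) : IsNonarchimedean (av (Sum.inr v : Pl k)) :=
  fun x y => Pool.Agent.Y742.SF.fv_add_le v x y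

/-- All but finitely many places are non-archimedean and given elements are integral. -/
theorem exists_S (A : Set k) (hA : A.Finite) : ∃ S : Finset (Pl k),
    (∀ w : InfinitePlace k, Sum.inl w ∈ S) ∧
    ∀ v, v ∉ S → IsNonarchimedean (av v) ∧ ∀ a ∈ A, av v a ≤ 1 := by
  classical
  have h1 : (⋃ a ∈ A, {v : HeightOneSpectrum (𝓞 k) | a ≠ 0 ∧
      Pool.Agent.W180.OP.fv v a ≠ 1}).Finite := by
    refine hA.biUnion fun a _ => ?_
    by_cases ha : a = 0
    · refine Set.Finite.subset Set.finite_empty ?_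
      rintro v ⟨h, -⟩
      exact absurd ha h
    · exact (fv_support_finite ha).subset fun v hv => hv.2
  refine ⟨Finset.univ.image Sum.inl ∪ h1.toFinset.image Sum.inr, fun w => ?_, fun v hv => ?_⟩
  · exact Finset.mem_union_left _ (Finset.mem_image_of_mem _ (Finset.mem_univ _))
  · rcases v with w | v
    · exact absurd (Finset.mem_union_left _ (Finset.mem_image_of_mem _ (Finset.mem_univ _))) hv
    · refine ⟨na_av v, fun a ha => ?_⟩
      by_cases ha0 : a = 0
      · rw [ha0, map_zero]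
        exact zero_le_one
      · by_contra hgt
        apply hv
        refine Finset.mem_union_right _ (Finset.mem_image_of_mem _ ?_)
        rw [Set.Finite.mem_toFinset]
        refine Set.mem_biUnion ha ⟨ha0, fun h => hgt ?_⟩
        change Pool.Agent.W180.OP.fv v a ≤ 1
        rw [h]

section

variable {d : ℕ} (F : Fin 2 → MvPolynomial (Fin 2) k) (hF : ∀ i, (F i).IsHomogeneous d)
  (h0 : ∀ x : Fin 2 → AlgebraicClosure k, (∀ i, aeval x (F i) = 0) → x = 0)
  (R : MvPolynomial (Fin 3) k) (hR : R.IsHomogeneous d) (hc : eval (vc 1 0) R ≠ 0)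

include hF hR hc in
/-- The last coordinate stays bounded relative to the first two, or is much larger. -/
theorem dich (hd : 2 ≤ d) (f : AbsoluteValue k ℝ) : ∃ B : ℝ, 1 ≤ B ∧
    ∀ (x : ℕ → Fin 2 → k) (y : ℕ → k), (∀ n, x n ≠ 0) → (∀ n, x (n + 1) = sp F (x n)) →
      (∀ n, y (n + 1) = eval (vc (y n) (x n)) R) →
      (∀ n, f (y n) ≤ B * nrm f (x n)) ∨ ∃ (n0 : ℕ) (c : ℝ), 0 < c ∧
        ∀ n, n0 ≤ n → Real.exp (c * d ^ n) * nrm f (x n) ≤ f (y n) := by
  obtain ⟨hdg, hcc⟩ := cf_const hR hc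
  obtain ⟨C, hC, hlead⟩ := lead_bound f R hR
  obtain ⟨C1, hC1, hsp⟩ := nrm_sp F hF f
  set c := eval (vc 1 0) R with hcd
  have hfc : 0 < f c := f.pos_iff.2 hc
  set B0 : ℝ := 1 + 2 * C / f c with hB0
  have hB01 : 1 ≤ B0 := by
    have : 0 ≤ 2 * C / f c := by positivity
    linarith
  set c' : ℝ := f c / 2 / C1 with hc'
  have hc'0 : 0 < c' := by positivity
  set κ : ℝ := |Real.log c'| with hκ
  have hκ0 : 0 ≤ κ := abs_nonneg _
  have hcκ : Real.exp (-κ) ≤ c' := by
    rw [← Real.le_log_iff_exp_le hc'0]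
    exact neg_abs_le _
  -- the step
  have hstep : ∀ (x : Fin 2 → k) (y : k), x ≠ 0 → B0 * nrm f x ≤ f y →
      Real.exp (-κ) * (f y / nrm f x) ^ d * nrm f (sp F x) ≤ f (eval (vc y x) R) := by
    intro x y hx hy
    have hn := nrm_pos f hx
    have hxy : nrm f x ≤ f y := le_trans (by nlinarith) hy
    have hy0 : 0 < f y := hn.trans_le hxy
    have h1 := hlead x y hxy
    rw [hdg, hcc, Nat.sub_self, zero_add, pow_one] at h1
    have h2 : C * nrm f x ≤ f c / 2 * f y := by
      have h3 : 2 * C / f c * nrm f x ≤ f y := by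
        refine le_trans ?_ hy
        rw [hB0]
        nlinarith
      have h4 : f c * (2 * C / f c * nrm f x) ≤ f c * f y := mul_le_mul_of_nonneg_left h3 hfc.le
      have h5 : f c * (2 * C / f c * nrm f x) = 2 * (C * nrm f x) := by
        field_simp
      linarith
    have h3 : f (eval (vc y x) R - c * y ^ d) * f y ≤ f c / 2 * f y ^ d * f y := by
      calc _ ≤ C * nrm f x * f y ^ d := h1
        _ ≤ f c / 2 * f y * f y ^ d := mul_le_mul_of_nonneg_right h2 (by positivity)
        _ = _ := by ring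
    have h4 := le_of_mul_le_mul_right h3 hy0
    have h5 : f c * f y ^ d ≤ f (eval (vc y x) R) + f (eval (vc y x) R - c * y ^ d) := by
      rw [← map_pow, ← map_mul]
      have e1 : c * y ^ d = eval (vc y x) R - (eval (vc y x) R - c * y ^ d) := by ring
      conv_lhs => rw [e1]
      exact f.sub_le_add _ _
    have h6 : f c / 2 * f y ^ d ≤ f (eval (vc y x) R) := by linarith
    refine le_trans ?_ h6
    have h7 := hsp x
    have h8 : 0 ≤ nrm f (sp F x) := nrm_nonneg _ _
    calc Real.exp (-κ) * (f y / nrm f x) ^ d * nrm f (sp F x) ≤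
        c' * (f y / nrm f x) ^ d * (C1 * nrm f x ^ d) := by gcongr
      _ = f c / 2 * f y ^ d := by
          rw [hc', div_pow]
          field_simp
  refine ⟨Real.exp (κ + 1) + B0, by have := Real.exp_pos (κ + 1); linarith,
    fun x y hx hxs hys => ?_⟩
  by_cases hall : ∀ n, f (y n) ≤ (Real.exp (κ + 1) + B0) * nrm f (x n)
  · exact Or.inl hall
  right
  push Not at hall
  obtain ⟨n0, hn0⟩ := hall
  have hind : ∀ i : ℕ, B0 * nrm f (x (n0 + i)) ≤ f (y (n0 + i)) ∧
      Real.exp (κ + (d : ℝ) ^ i) * nrm f (x (n0 + i)) ≤ f (y (n0 + i)) := by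
    intro i
    induction i with
    | zero =>
      have hn := nrm_pos f (hx n0)
      have h1 := Real.exp_pos (κ + 1)
      rw [Nat.add_zero, pow_zero]
      constructor
      · nlinarith
      · nlinarith
    | succ i ih =>
      obtain ⟨ih1, ih2⟩ := ih
      have hn := nrm_pos f (hx (n0 + i))
      have hn' := nrm_pos f (hx (n0 + (i + 1)))
      have h1 := hstep (x (n0 + i)) (y (n0 + i)) (hx _) ih1
      rw [← hxs, ← hys] at h1
      have e1 : n0 + i + 1 = n0 + (i + 1) := by ring
      rw [e1] at h1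
      set u := f (y (n0 + i)) / nrm f (x (n0 + i)) with hu
      have hu1 : B0 ≤ u := by rw [hu, le_div_iff₀ hn]; exact ih1
      have hu2 : Real.exp (κ + (d : ℝ) ^ i) ≤ u := by rw [hu, le_div_iff₀ hn]; exact ih2
      have hdi : (1 : ℝ) ≤ (d : ℝ) ^ i := one_le_pow₀ (by exact_mod_cast (by omega : 1 ≤ d))
      have hu0 : 0 < u := (Real.exp_pos _).trans_le hu2
      constructor
      · refine le_trans ?_ h1
        refine mul_le_mul_of_nonneg_right ?_ hn'.le
        have h3 : Real.exp κ ≤ u := le_trans (Real.exp_le_exp.2 (by linarith)) hu2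
        have h4 : u ≤ u ^ (d - 1) := by
          have h5 : 1 ≤ u := le_trans (by linarith) hu1
          calc u = u ^ 1 := (pow_one u).symm
            _ ≤ u ^ (d - 1) := pow_le_pow_right₀ h5 (by omega)
        calc B0 ≤ u := hu1
          _ = Real.exp (-κ) * Real.exp κ * u := by rw [← Real.exp_add, neg_add_cancel,
              Real.exp_zero, one_mul]
          _ ≤ Real.exp (-κ) * u ^ (d - 1) * u := by
              have := Real.exp_pos (-κ)
              gcongr
              exact h3.trans h4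
          _ = Real.exp (-κ) * u ^ d := by
              rw [mul_assoc, ← pow_succ, Nat.sub_add_cancel (by omega)]
      · refine le_trans ?_ h1
        refine mul_le_mul_of_nonneg_right ?_ hn'.le
        have h3 : Real.exp (κ + (d : ℝ) ^ i) ^ d ≤ u ^ d := pow_le_pow_left₀ (Real.exp_pos _).le hu2 d
        rw [← Real.exp_nat_mul] at h3
        calc Real.exp (κ + (d : ℝ) ^ (i + 1)) ≤
            Real.exp (-κ) * Real.exp (d * (κ + (d : ℝ) ^ i)) := by
              rw [← Real.exp_add, Real.exp_le_exp, pow_succ]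
              have hdR : (2 : ℝ) ≤ d := by exact_mod_cast hd
              nlinarith
          _ ≤ _ := mul_le_mul_of_nonneg_left h3 (Real.exp_pos _).le
  refine ⟨n0, ((d : ℝ) ^ n0)⁻¹, ?_, fun n hn => ?_⟩
  · have : (0 : ℝ) < d := by exact_mod_cast (by omega : 0 < d)
    positivity
  · obtain ⟨i, rfl⟩ := Nat.exists_eq_add_of_le hn
    refine le_trans ?_ (hind i).2
    refine mul_le_mul_of_nonneg_right (Real.exp_le_exp.2 ?_) (nrm_nonneg _ _)
    have : (0 : ℝ) < d := by exact_mod_cast (by omega : 0 < d)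
    rw [pow_add, ← mul_assoc, inv_mul_cancel₀ (by positivity), one_mul]
    linarith

include hF h0 hR in
/-- At almost all places the last coordinate stays below the first two. -/
theorem good_places (x : ℕ → Fin 2 → k) (y : ℕ → k) (hx : x 0 ≠ 0)
    (hxs : ∀ n, x (n + 1) = sp F (x n)) (hys : ∀ n, y (n + 1) = eval (vc (y n) (x n)) R) :
    ∃ S : Finset (Pl k), (∀ w : InfinitePlace k, Sum.inl w ∈ S) ∧
      ∀ v, v ∉ S → ∀ n, av v (y n) ≤ nrm (av v) (x n) := by
  classical
  obtain ⟨M, q, hq, hqe⟩ := Pool.Agent.R847.HG.exists_cert (N := 1) F hF h0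
  obtain ⟨i0, hi0⟩ := Function.ne_iff.1 hx
  have hi0 : x 0 i0 ≠ 0 := hi0
  -- the coefficients
  let A : Set k := (⋃ a, (fun m => (q a).coeff m) '' ((q a).support : Set (Fin 2 →₀ ℕ))) ∪
    (fun m => R.coeff m) '' (R.support : Set (Fin 3 →₀ ℕ)) ∪ {y 0, (x 0 i0)⁻¹}
  have hA : A.Finite := by
    refine Set.Finite.union (Set.Finite.union (Set.finite_iUnion fun a => ?_) ?_) ?_
    · exact ((q a).support.finite_toSet).image _
    · exact (R.support.finite_toSet).image _
    · exact Set.toFinite _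
  obtain ⟨S, hS1, hS2⟩ := exists_S A hA
  refine ⟨S, hS1, fun v hv => ?_⟩
  obtain ⟨hna, hint⟩ := hS2 v hv
  have hRc : ∀ m, av v (R.coeff m) ≤ 1 := by
    intro m
    by_cases hm : m ∈ R.support
    · exact hint _ (Or.inl (Or.inr ⟨m, hm, rfl⟩))
    · rw [notMem_support_iff.1 hm, map_zero]
      exact zero_le_one
  have hqc : ∀ a m, av v ((q a).coeff m) ≤ 1 := by
    intro a m
    by_cases hm : m ∈ (q a).support
    · exact hint _ (Or.inl (Or.inl (Set.mem_iUnion.2 ⟨a, m, hm, rfl⟩)))
    · rw [notMem_support_iff.1 hm, map_zero]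
      exact zero_le_one
  have hy0 : av v (y 0) ≤ 1 := hint _ (Or.inr (Or.inl rfl))
  have hx0 : 1 ≤ nrm (av v) (x 0) := by
    have h1 : av v (x 0 i0)⁻¹ ≤ 1 := hint _ (Or.inr (Or.inr rfl))
    rw [map_inv₀] at h1
    have h2 : 0 < av v (x 0 i0) := (av v).pos_iff.2 hi0
    have h3 : 1 ≤ av v (x 0 i0) := by
      rw [inv_le_one₀ h2] at h1
      exact h1
    exact h3.trans (le_nrm _ _ _)
  -- good reduction
  have hgood : ∀ z : Fin 2 → k, z ≠ 0 → nrm (av v) z ^ d ≤ nrm (av v) (sp F z) := by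
    intro z hz
    have hn := nrm_pos (av v) hz
    obtain ⟨a, ha⟩ := exists_nrm (av v) (by norm_num : 0 < 2) z
    have h1 := congrArg (eval z) (hqe a)
    rw [map_pow, eval_X, map_sum] at h1
    have h2 : nrm (av v) z ^ (M + d) ≤ nrm (av v) z ^ M * nrm (av v) (sp F z) := by
      rw [← ha, ← map_pow, ← h1, ha]
      refine Pool.Agent.R847.HG.na_sum_le hna _ _ _ (mul_nonneg (pow_nonneg hn.le _)
        (nrm_nonneg _ _)) fun j _ => ?_
      rw [map_mul, map_mul]
      exact mul_le_mul (na_eval (av v) hna _ (hq (a, j)) (hqc (a, j)) z)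
        (le_nrm (av v) (sp F z) j) ((av v).nonneg _) (pow_nonneg hn.le _)
    rw [pow_add] at h2
    exact le_of_mul_le_mul_left h2 (pow_pos hn _)
  intro n
  have hxn : ∀ n, x n ≠ 0 := by
    intro n
    induction n with
    | zero => exact hx
    | succ n ih =>
      rw [hxs]
      exact sp_ne F (base_zero F h0) ih
  induction n with
  | zero => exact hy0.trans hx0
  | succ n ih =>
    rw [hys, hxs]
    refine le_trans ?_ (hgood _ (hxn n))
    refine (na_eval (av v) hna R hR hRc _).trans ?_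
    refine pow_le_pow_left₀ (nrm_nonneg _ _) ?_ d
    refine nrm_le (nrm_nonneg _ _) fun i => ?_
    refine Fin.cases ?_ (fun j => ?_) i
    · exact ih
    · exact le_nrm (av v) (x n) j

end

end Pool.Agent.L5helper26.RO
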