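import Pool.Agent.L5helper26.RO.Hb
import Pool.Agent.L5helper26.RO.Esc

/-!
Curves through the centre, over a number field.
-/

set_option autoImplicit false
set_option linter.unusedSectionVars false

open MvPolynomial

namespace Pool.Agent.L5helper26.RO

open NumberField Height Module IsDedekindDomain
open Pool.Agent.W180.OP (Pl av wt nrm le_nrm nrm_pos nrm_nonneg exists_nrm nrm_le cs cs_nonneg abv_mv
  wt_nonneg)
open Pool.Agent.R847.HG (stepR)

section field

variable {K : Type} [Field K]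

/-- Substitution in the last two variables. -/
noncomputable def dev (v : Fin 2 → Polynomial K) : MvPolynomial (Fin 3) K →ₐ[K]
    Polynomial (Polynomial K) :=
  aeval (Fin.cons Polynomial.X (fun i => Polynomial.C (v i)) : Fin 3 → Polynomial (Polynomial K))

theorem dev_eq (v : Fin 2 → Polynomial K) (g : MvPolynomial (Fin 3) K) :
    dev v g = (finSuccEquiv K 2 g).map (aeval v : MvPolynomial (Fin 2) K →ₐ[K] Polynomial K).toRingHom := by
  have h : (dev v).toRingHom = (Polynomial.mapRingHom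
      (aeval v : MvPolynomial (Fin 2) K →ₐ[K] Polynomial K).toRingHom).comp
      (finSuccEquiv K 2).toAlgHom.toRingHom := by
    apply MvPolynomial.ringHom_ext
    · intro c
      change dev v (C c) = ((finSuccEquiv K 2) (C c)).map _
      rw [finSuccEquiv_apply, eval₂Hom_C]
      have h1 : dev v (C c) = Polynomial.C (Polynomial.C c) := MvPolynomial.aeval_C _ c
      rw [h1]
      simp
    · intro i
      change dev v (X i) = ((finSuccEquiv K 2) (X i)).map _
      rw [dev, aeval_X]
      refine Fin.cases ?_ (fun j => ?_) i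
      · rw [finSuccEquiv_X_zero, Polynomial.map_X]
        rfl
      · rw [finSuccEquiv_X_succ, Polynomial.map_C]
        simp
  exact DFunLike.congr_fun h g

theorem dev_coeff (v : Fin 2 → Polynomial K) (g : MvPolynomial (Fin 3) K) (j : ℕ) :
    (dev v g).coeff j = aeval v (cf g j) := by
  rw [dev_eq, Polynomial.coeff_map]
  rfl

theorem dev_lead (v : Fin 2 → Polynomial K) (g : MvPolynomial (Fin 3) K)
    (h : aeval v (cf g (dg g)) ≠ 0) : (dev v g).leadingCoeff = aeval v (cf g (dg g)) := by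
  have h1 : (dev v g).natDegree = dg g := by
    apply le_antisymm
    · rw [dev_eq]
      exact Polynomial.natDegree_map_le
    · apply Polynomial.le_natDegree_of_ne_zero
      rw [dev_coeff]
      exact h
  rw [Polynomial.leadingCoeff, h1, dev_coeff]

theorem de_eq_dev : (de : MvPolynomial (Fin 3) K →ₐ[K] Polynomial (Polynomial K)) =
    dev ![1, Polynomial.X] := by
  rw [de, dev]
  congr 1
  funext i
  fin_cases i
  · rfl
  · change (1 : Polynomial (Polynomial K)) = Polynomial.C 1
    rw [map_one]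
  · rfl

/-- Exchange of the last two variables. -/
noncomputable def sw (g : MvPolynomial (Fin 3) K) : MvPolynomial (Fin 3) K :=
  rename (Equiv.swap 1 2) g

theorem eval_sw (g : MvPolynomial (Fin 3) K) (y : K) (x : Fin 2 → K) :
    eval (vc y (x ∘ Equiv.swap 0 1)) (sw g) = eval (vc y x) g := by
  rw [sw, eval_rename]
  congr 2
  funext i
  fin_cases i
  · change vc y (x ∘ Equiv.swap 0 1) ((Equiv.swap 1 2) 0) = y
    rw [Equiv.swap_apply_of_ne_of_ne (by decide) (by decide)]
    rfl
  · change vc y (x ∘ Equiv.swap 0 1) ((Equiv.swap 1 2) 1) = x 0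
    rw [Equiv.swap_apply_left]
    change x ((Equiv.swap 0 1) 1) = x 0
    rw [Equiv.swap_apply_right]
  · change vc y (x ∘ Equiv.swap 0 1) ((Equiv.swap 1 2) 2) = x 1
    rw [Equiv.swap_apply_right]
    change x ((Equiv.swap 0 1) 0) = x 1
    rw [Equiv.swap_apply_left]

theorem de_sw (g : MvPolynomial (Fin 3) K) : de (sw g) = dev ![Polynomial.X, 1] g := by
  rw [sw, de, aeval_rename, dev]
  congr 2
  funext i
  fin_cases i
  · change (![Polynomial.X, 1, Polynomial.C Polynomial.X] : Fin 3 → Polynomial (Polynomial K))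
      ((Equiv.swap 1 2) 0) = Polynomial.X
    rw [Equiv.swap_apply_of_ne_of_ne (by decide) (by decide)]
    rfl
  · change (![Polynomial.X, 1, Polynomial.C Polynomial.X] : Fin 3 → Polynomial (Polynomial K))
      ((Equiv.swap 1 2) 1) = Polynomial.C Polynomial.X
    rw [Equiv.swap_apply_left]
    rfl
  · change (![Polynomial.X, 1, Polynomial.C Polynomial.X] : Fin 3 → Polynomial (Polynomial K))
      ((Equiv.swap 1 2) 2) = Polynomial.C 1
    rw [Equiv.swap_apply_right, map_one]
    rfl

theorem cr_swap (x y : Fin 2 → K) : cr (x ∘ Equiv.swap 0 1) (y ∘ Equiv.swap 0 1) = -cr x y := by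
  simp only [cr, Function.comp_apply, Equiv.swap_apply_left, Equiv.swap_apply_right]
  ring

theorem nrm_swap (f : AbsoluteValue K ℝ) (x : Fin 2 → K) :
    nrm f (x ∘ Equiv.swap 0 1) = nrm f x := by
  unfold nrm
  exact (Equiv.swap (0 : Fin 2) 1).iSup_comp (g := fun j => f (x j))

/-- A binary form of positive degree has a nonconstant dehomogenisation. -/
theorem chart [Infinite K] {m : ℕ} {a : MvPolynomial (Fin 2) K} (ha : a.IsHomogeneous m)
    (ha0 : a ≠ 0) (hm : 1 ≤ m) : 1 ≤ (aeval ![1, Polynomial.X] a : Polynomial K).natDegree ∨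
      1 ≤ (aeval ![Polynomial.X, 1] a : Polynomial K).natDegree := by
  by_cases h : 1 ≤ (aeval ![1, Polynomial.X] a : Polynomial K).natDegree
  · exact Or.inl h
  right
  have h0 : (dh a).natDegree = 0 := by
    rw [dh]
    omega
  have hC := Polynomial.eq_C_of_natDegree_eq_zero h0
  have h1 : a = C ((dh a).coeff 0) * X 0 ^ m := by
    have h2 : (X 0 * a : MvPolynomial (Fin 2) K) = X 0 * (C ((dh a).coeff 0) * X 0 ^ m) := by
      apply MvPolynomial.funext
      intro x
      rw [map_mul, map_mul, eval_X, map_mul, eval_C, map_pow, eval_X]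
      by_cases hx : x 0 = 0
      · rw [hx, zero_mul, zero_mul]
      · rw [eval_hom ha x hx]
        conv_lhs => rw [hC, Polynomial.eval_C]
        ring
    exact mul_left_cancel₀ (X_ne_zero 0) h2
  have hc : (dh a).coeff 0 ≠ 0 := by
    intro h2
    apply ha0
    rw [h1, h2, C_0, zero_mul]
  have h2 : (aeval ![Polynomial.X, 1] a : Polynomial K) =
      Polynomial.C ((dh a).coeff 0) * Polynomial.X ^ m := by
    conv_lhs => rw [h1]
    rw [map_mul, map_pow, aeval_X]
    have h3 : (aeval ![Polynomial.X, 1] (C ((dh a).coeff 0) : MvPolynomial (Fin 2) K) :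
      Polynomial K) = Polynomial.C ((dh a).coeff 0) := MvPolynomial.aeval_C _ _
    rw [h3]
    rfl
  rw [h2, Polynomial.natDegree_C_mul_X_pow _ _ hc]
  exact hm

end field

variable {k : Type} [Field k] [NumberField k]

/-- The algebraic part of the argument for a curve through the centre. -/
def Cert {K : Type} [Field K] (p : MvPolynomial (Fin 3) K) : Prop :=
  ∃ (κ : ℕ) (G : MvPolynomial (Fin 3) K) (b : K) (Q A : Polynomial (Polynomial K)),
    G.IsHomogeneous κ ∧ Idn p G ∧
    de G = de p * Q + Polynomial.C ((Polynomial.X - Polynomial.C b) ^ (κ + 1)) * A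

theorem exists_cert0 {K : Type} [Field K] [Infinite K] {p : MvPolynomial (Fin 3) K}
    (hirr : Irreducible p) (hα : 1 ≤ (de p).leadingCoeff.natDegree) : Cert p := by
  obtain ⟨κ, G, b, Q, A, hG, hnd, hGA⟩ := exists_aux (de p) hα
  exact ⟨κ, G, b, Q, A, hG, exists_idn hirr fun ⟨E, hE⟩ => hnd ⟨de E, by rw [hE, map_mul]⟩, hGA⟩

/-- Irreducible curves through the centre. -/
theorem exists_cert {K : Type} [Field K] [Infinite K] {D : ℕ} {p : MvPolynomial (Fin 3) K}
    (hp : p.IsHomogeneous D) (hirr : Irreducible p) (hpe : eval (vc 1 0) p = 0) :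
    Cert p ∨ Cert (sw p) := by
  set a := cf p (dg p) with ha
  have ha0 : a ≠ 0 := cf_top hirr.ne_zero
  have hah : a.IsHomogeneous (D - dg p) := cf_hom hp (dg_le hp)
  have hm : 1 ≤ D - dg p := by
    by_contra hlt
    have hD : dg p = D := by have := dg_le hp; omega
    have h1 : a.totalDegree = 0 := by
      have := hah.totalDegree_le
      omega
    have h2 := totalDegree_eq_zero_iff_eq_C.1 h1
    rw [eval_vc, Finset.sum_range_succ, Finset.sum_eq_zero, zero_add, one_pow, mul_one, ← ha, h2,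
      eval_C] at hpe
    · apply ha0
      rw [h2, hpe, C_0]
    · intro j hj
      rw [Finset.mem_range] at hj
      have h3 := hom_eval (cf_hom hp (by omega : j ≤ D)) (0 : K) (0 : Fin 2 → K)
      rw [zero_pow (by omega), zero_mul] at h3
      have e : (fun i => (0 : K) * (0 : Fin 2 → K) i) = 0 := by
        funext i; simp
      rw [e] at h3
      rw [h3, zero_mul]
  rcases chart hah ha0 hm with h | h
  · left
    apply exists_cert0 hirr
    rw [de_eq_dev, dev_lead]
    · exact h
    · intro h3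
      rw [ha, h3, Polynomial.natDegree_zero] at h
      omega
  · right
    apply exists_cert0
    · exact (MulEquiv.irreducible_iff
        (renameEquiv K (Equiv.swap (1 : Fin 3) 2)).toRingEquiv.toMulEquiv).2 hirr
    rw [de_sw, dev_lead]
    · exact h
    · intro h3
      rw [ha, h3, Polynomial.natDegree_zero] at h
      omega

/-- Curves through the centre, without dynamics. -/
theorem core {D : ℕ} (p : MvPolynomial (Fin 3) k) (hp : p.IsHomogeneous D) (hcert : Cert p)
    (S0 : Finset (Pl k))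
    (hS0 : ∀ w : InfinitePlace k, Sum.inl w ∈ S0) (B : Pl k → ℝ) (hB : ∀ v, 1 ≤ B v)
    (x : ℕ → Fin 2 → k) (y : ℕ → k) (hpar : ∀ n m, n ≠ m → cr (x n) (x m) ≠ 0)
    (h1 : ∀ v n, av v (y n) ≤ B v * nrm (av v) (x n))
    (h2 : ∀ v, v ∉ S0 → ∀ n, av v (y n) ≤ nrm (av v) (x n))
    (hgr : ∀ C : ℝ, {n | logHeight (x n) ≤ C}.Finite) :
    {n | eval (vc (y n) (x n)) p = 0}.Finite := by
  obtain ⟨κ, G, b, Q, A, hG, hidn, hGA⟩ := hcert
  obtain ⟨Cst, hbd⟩ := bounded_height p G hp hG b Q A hGA S0 hS0 B hB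
  obtain ⟨r, j, hr, hr0, hrz⟩ := common_idn hp hG hidn
  have f1 := finite_zeros (isHomogeneous_X k (0 : Fin 2)) (X_ne_zero 0) x hpar
  have e1 : (C 1 * X 1 - C b * X 0 : MvPolynomial (Fin 2) k) ≠ 0 := by
    intro h
    have := congrArg (eval ![0, 1]) h
    simp at this
  have f2 := finite_zeros (lin_hom ![(1 : k), b]) e1 x hpar
  have f3 := finite_zeros hr hr0 x hpar
  refine (((f1.union f2).union f3).union (hgr Cst)).subset fun n hn => ?_
  rw [Set.mem_ofPred_eq] at hn
  by_cases c1 : x n 0 = 0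
  · refine Or.inl (Or.inl (Or.inl ?_))
    rw [Set.mem_ofPred_eq, eval_X]
    exact c1
  by_cases c2 : x n 1 = b * x n 0
  · refine Or.inl (Or.inl (Or.inr ?_))
    rw [Set.mem_ofPred_eq]
    simp [c2]
  by_cases c3 : eval (vc (y n) (x n)) G = 0
  · exact Or.inl (Or.inr (hrz _ _ hn c3))
  · exact Or.inr (hbd (x n) (y n) c1 c2 hn c3 (fun v _ => h1 v n) fun v hv => h2 v hv n)

section

variable {d : ℕ} (F : Fin 2 → MvPolynomial (Fin 2) k) (hF : ∀ i, (F i).IsHomogeneous d)
  (h0 : ∀ x : Fin 2 → AlgebraicClosure k, (∀ i, aeval x (F i) = 0) → x = 0)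
  (R : MvPolynomial (Fin 3) k) (hR : R.IsHomogeneous d) (hc : eval (vc 1 0) R ≠ 0)

include hF h0 in
theorem grows (hd : 2 ≤ d) (x : ℕ → Fin 2 → k) (hx0 : x 0 ≠ 0)
    (hxs : ∀ n, x (n + 1) = sp F (x n)) (hpar : ∀ n m, n ≠ m → cr (x n) (x m) ≠ 0) (C : ℝ) :
    {n | logHeight (x n) ≤ C}.Finite := by
  have hxit : ∀ n, x n = (stepR F)^[n] (x 0) := by
    intro n
    induction n with
    | zero => rfl
    | succ n ih => rw [hxs, Function.iterate_succ_apply', ← ih, sp_eq_stepR]
  rcases Pool.Agent.R847.HG.growth (N := 1) hd F hF h0 (x 0) hx0 with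
    ⟨m, n, hmn, c, -, hcx⟩ | ⟨c, n₀, hc, hgrow⟩
  · exfalso
    apply hpar m n (by omega)
    rw [hxit m, hxit n, hcx, cr_smul_right, cr_self, mul_zero]
  · obtain ⟨n1, hn1⟩ : ∃ n1 : ℕ, C / c < n1 := exists_nat_gt _
    refine (Set.finite_lt_nat (n₀ + n1 + 1)).subset fun n hn => ?_
    rw [Set.mem_ofPred_eq] at hn ⊢
    by_contra hlt
    push Not at hlt
    have h1 := hgrow n (by omega)
    rw [← hxit] at h1
    have h2 : (n1 : ℝ) ≤ (d : ℝ) ^ n := by
      have e2 : n < d ^ n := Nat.lt_pow_self (by omega)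
      have e3 : n1 ≤ d ^ n := by omega
      exact_mod_cast e3
    rw [div_lt_iff₀ hc] at hn1
    nlinarith

include hF h0 hR hc in
/-- A curve through the centre is met by the orbit finitely often. -/
theorem main_cert (hd : 2 ≤ d) (hne : NoExc (cl F)) (x : ℕ → Fin 2 → k) (y : ℕ → k)
    (hx0 : x 0 ≠ 0) (hxs : ∀ n, x (n + 1) = sp F (x n))
    (hys : ∀ n, y (n + 1) = eval (vc (y n) (x n)) R)
    (hpar : ∀ n m, n ≠ m → cr (x n) (x m) ≠ 0) {D : ℕ} (p : MvPolynomial (Fin 3) k)
    (hp : p.IsHomogeneous D) (hp0 : p ≠ 0) (hcert : Cert p ∨ Cert (sw p)) :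
    {n | eval (vc (y n) (x n)) p = 0}.Finite := by
  classical
  have hxn : ∀ n, x n ≠ 0 := by
    intro n
    induction n with
    | zero => exact hx0
    | succ n ih =>
      rw [hxs]
      exact sp_ne F (base_zero F h0) ih
  choose B hB hdich using fun v : Pl k => dich F hF R hR hc hd (av v)
  by_cases hesc : ∃ v : Pl k, ∃ (n0 : ℕ) (c : ℝ), 0 < c ∧
      ∀ n, n0 ≤ n → Real.exp (c * d ^ n) * nrm (av v) (x n) ≤ av v (y n)
  · obtain ⟨v, n0, c, hc0, hes⟩ := hesc
    exact escape_finite F hF h0 hd hne v x y hx0 hxs hpar n0 c hc0 hes p hp hp0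
  have hbd : ∀ v n, av v (y n) ≤ B v * nrm (av v) (x n) := by
    intro v
    rcases hdich v x y hxn hxs hys with h | ⟨n0, c, hc0, hes⟩
    · exact h
    · exact absurd ⟨v, n0, c, hc0, hes⟩ hesc
  obtain ⟨S0, hS0, hgood⟩ := good_places F hF h0 R hR x y hx0 hxs hys
  have hgr := grows F hF h0 hd x hx0 hxs hpar
  rcases hcert with h | h
  · exact core p hp h S0 hS0 B hB x y hpar hbd hgood hgr
  · have hp' : (sw p).IsHomogeneous D := hp.rename_isHomogeneous
    have h5 := core (sw p) hp' h S0 hS0 B hB (fun n => x n ∘ Equiv.swap 0 1) y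
      (fun n m hnm => by
        rw [cr_swap]
        exact neg_ne_zero.2 (hpar n m hnm))
      (fun v n => by rw [nrm_swap]; exact hbd v n)
      (fun v hv n => by rw [nrm_swap]; exact hgood v hv n)
      (fun C => by
        refine (hgr C).subset fun n hn => ?_
        rw [Set.mem_ofPred_eq] at hn ⊢
        have h6 : logHeight (x n ∘ Equiv.swap 0 1) = logHeight (x n) :=
          logHeight_comp_equiv _ _
        rwa [h6] at hn)
    refine h5.subset fun n hn => ?_
    rw [Set.mem_ofPred_eq] at hn ⊢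
    rw [eval_sw]
    exact hn

include hF h0 hR hc in
/-- An irreducible curve through the centre is met by the orbit finitely often. -/
theorem main_k (hd : 2 ≤ d) (hne : NoExc (cl F)) (x : ℕ → Fin 2 → k) (y : ℕ → k)
    (hx0 : x 0 ≠ 0) (hxs : ∀ n, x (n + 1) = sp F (x n))
    (hys : ∀ n, y (n + 1) = eval (vc (y n) (x n)) R)
    (hpar : ∀ n m, n ≠ m → cr (x n) (x m) ≠ 0) {D : ℕ} (p : MvPolynomial (Fin 3) k)
    (hp : p.IsHomogeneous D) (hirr : Irreducible p) (hpe : eval (vc 1 0) p = 0) :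
    {n | eval (vc (y n) (x n)) p = 0}.Finite :=
  main_cert F hF h0 R hR hc hd hne x y hx0 hxs hys hpar p hp hirr.ne_zero
    (exists_cert hp hirr hpe)

include hF h0 hR hc in
/-- Closed sets all of whose curves pass through the centre. -/
theorem set_k (hd : 2 ≤ d) (hne : NoExc (cl F)) (x : ℕ → Fin 2 → k) (y : ℕ → k)
    (hx0 : x 0 ≠ 0) (hxs : ∀ n, x (n + 1) = sp F (x n))
    (hys : ∀ n, y (n + 1) = eval (vc (y n) (x n)) R)
    (hpar : ∀ n m, n ≠ m → cr (x n) (x m) ≠ 0) (S : Set (MvPolynomial (Fin 3) k))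
    (hS : ∀ g ∈ S, ∃ e : ℕ, g.IsHomogeneous e)
    (hcen : ∀ p : MvPolynomial (Fin 3) k, Irreducible p → (∀ g ∈ S, p ∣ g) →
      eval (vc 1 0) p = 0) :
    {n | ∀ g ∈ S, eval (vc (y n) (x n)) g = 0}.Finite ∨ ∀ g ∈ S, g = 0 := by
  by_cases hall : ∀ g ∈ S, g = 0
  · exact Or.inr hall
  left
  push Not at hall
  obtain ⟨g0, hg0S, hg0⟩ := hall
  by_contra hinf
  obtain ⟨p, hirr, hpg, hpinf⟩ := exists_factor g0 hg0 (fun n => vc (y n) (x n)) _ hinf
    (fun n hn => hn g0 hg0S)
  obtain ⟨e0, he0⟩ := hS g0 hg0S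
  have hp := homog_of_dvd he0 hg0 hpg
  have hpS : ∀ g ∈ S, p ∣ g := by
    intro g hg
    by_contra hnd
    obtain ⟨e, he⟩ := hS g hg
    obtain ⟨r, j, hr, hr0, hrz⟩ := common hp he hirr hnd
    apply hpinf
    refine (finite_zeros hr hr0 x hpar).subset fun n hn => ?_
    exact hrz _ _ hn.2 (hn.1 g hg)
  apply hpinf
  exact (main_k F hF h0 R hR hc hd hne x y hx0 hxs hys hpar p hp hirr
    (hcen p hirr hpS)).subset fun n hn => hn.2

end

end Pool.Agent.L5helper26.RO
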