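import Pool.Agent.L5helper26.RO.Bin

/-!
Preimages of points under rational functions: the third iterate of a rational function without
exceptional point is nowhere totally ramified.
-/

set_option autoImplicit false
set_option linter.unusedSectionVars false

open MvPolynomial

namespace Pool.Agent.L5helper26.RO

variable {K : Type} [Field K]

/-- The self-map of the plane. -/
noncomputable def sp (F : Fin 2 → MvPolynomial (Fin 2) K) (x : Fin 2 → K) : Fin 2 → K :=
  fun i => eval x (F i)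

theorem cr_self (x : Fin 2 → K) : cr x x = 0 := by rw [cr]; ring

theorem cr_comm (x y : Fin 2 → K) : cr x y = -cr y x := by rw [cr, cr]; ring

theorem cr_smul_right (c : K) (x y : Fin 2 → K) : cr x (c • y) = c * cr x y := by
  simp only [cr, Pi.smul_apply, smul_eq_mul]; ring

theorem cr_smul_left (c : K) (x y : Fin 2 → K) : cr (c • x) y = c * cr x y := by
  simp only [cr, Pi.smul_apply, smul_eq_mul]; ring

theorem par_of_cr {x y : Fin 2 → K} (hx : x ≠ 0) (hy : y ≠ 0) (h : cr x y = 0) :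
    ∃ c : K, c ≠ 0 ∧ y = c • x := by
  obtain ⟨k, hk⟩ := Function.ne_iff.1 hx
  have hk : x k ≠ 0 := hk
  have h1 : y = (y k / x k) • x := by
    have h2 : x 0 * y 1 - x 1 * y 0 = 0 := h
    have h3 : k = 0 ∨ k = 1 := by fin_cases k <;> simp
    funext i
    rw [Pi.smul_apply, smul_eq_mul]
    rcases h3 with rfl | rfl <;> fin_cases i
    · change y 0 = y 0 / x 0 * x 0
      field_simp
    · change y 1 = y 0 / x 0 * x 1
      field_simp
      linear_combination h2
    · change y 0 = y 1 / x 1 * x 0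
      field_simp
      linear_combination -h2
    · change y 1 = y 1 / x 1 * x 1
      field_simp
  refine ⟨y k / x k, fun h0 => ?_, h1⟩
  rw [h0, zero_smul] at h1
  exact hy h1

theorem cr_trans {x y z : Fin 2 → K} (hy : y ≠ 0) (h1 : cr x y = 0) (h2 : cr y z = 0) :
    cr x z = 0 := by
  by_cases hx : x = 0
  · rw [hx]; simp [cr]
  · obtain ⟨c, -, rfl⟩ := par_of_cr hx hy h1
    rw [cr_smul_left] at h2
    rcases mul_eq_zero.1 h2 with h | h
    · rw [h, zero_smul] at hy
      exact absurd rfl hy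
    · exact h

section

variable {d : ℕ} (F : Fin 2 → MvPolynomial (Fin 2) K) (hF : ∀ i, (F i).IsHomogeneous d)
  (h0 : ∀ x : Fin 2 → K, (∀ i, eval x (F i) = 0) → x = 0)

include hF in
theorem sp_smul (c : K) (x : Fin 2 → K) : sp F (c • x) = c ^ d • sp F x := by
  funext i
  exact hom_eval (hF i) c x

include h0 in
theorem sp_ne {x : Fin 2 → K} (hx : x ≠ 0) : sp F x ≠ 0 := fun h => hx (h0 x fun i => congrFun h i)

include h0 in
theorem sp_iter_ne {x : Fin 2 → K} (hx : x ≠ 0) (n : ℕ) : (sp F)^[n] x ≠ 0 := by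
  induction n with
  | zero => exact hx
  | succ n ih =>
    rw [Function.iterate_succ_apply']
    exact sp_ne F h0 ih

include hF in
theorem sp_cr {x y : Fin 2 → K} (hx : x ≠ 0) (hy : y ≠ 0) (h : cr x y = 0) :
    cr (sp F x) (sp F y) = 0 := by
  obtain ⟨c, -, rfl⟩ := par_of_cr hx hy h
  rw [sp_smul F hF, cr_smul_right, cr_self, mul_zero]

include hF h0 in
theorem fac1 [IsAlgClosed K] (hd : 1 ≤ d) (t : Fin 2 → K) (ht : t ≠ 0) :
    ∃ (c : K) (z : Fin d → Fin 2 → K), c ≠ 0 ∧ (∀ i, z i ≠ 0) ∧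
      ∀ x, cr t (sp F x) = c * ∏ i, cr (z i) x := by
  have hP : (C (t 0) * F 1 - C (t 1) * F 0 : MvPolynomial (Fin 2) K).IsHomogeneous d := by
    have h1 := (isHomogeneous_C (Fin 2) (t 0)).mul (hF 1)
    have h2 := (isHomogeneous_C (Fin 2) (t 1)).mul (hF 0)
    rw [zero_add] at h1 h2
    exact h1.sub h2
  have hPe : ∀ x, eval x (C (t 0) * F 1 - C (t 1) * F 0 : MvPolynomial (Fin 2) K) =
      cr t (sp F x) := by
    intro x
    simp [cr, sp]
  have hP0 : (C (t 0) * F 1 - C (t 1) * F 0 : MvPolynomial (Fin 2) K) ≠ 0 := by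
    intro h
    obtain ⟨k, hk⟩ := Function.ne_iff.1 ht
    have hk : t k ≠ 0 := hk
    obtain ⟨x, hx, hx0⟩ := exists_zero2 (hF k) hd
    have h1 : cr t (sp F x) = 0 := by rw [← hPe, h, map_zero]
    obtain ⟨c, hc, hc'⟩ := par_of_cr ht (sp_ne F h0 hx) h1
    have h2 := congrFun hc' k
    change eval x (F k) = c * t k at h2
    rw [hx0] at h2
    exact mul_ne_zero hc hk h2.symm
  obtain ⟨c, z, hc, hz, h⟩ := bin_eval hP hP0
  exact ⟨c, z, hc, hz, fun x => by rw [← hPe, h]⟩

include hF h0 in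
theorem fac [IsAlgClosed K] (hd : 1 ≤ d) (j : ℕ) : ∀ (t : Fin 2 → K), t ≠ 0 →
    ∃ (c : K) (z : Fin (d ^ j) → Fin 2 → K), c ≠ 0 ∧ (∀ i, z i ≠ 0) ∧
      ∀ x, cr t ((sp F)^[j] x) = c * ∏ i, cr (z i) x := by
  induction j with
  | zero =>
    intro t ht
    refine ⟨1, fun _ => t, one_ne_zero, fun _ => ht, fun x => ?_⟩
    simp
  | succ j ih =>
    intro t ht
    obtain ⟨c, z, hc, hz, h⟩ := ih t ht
    choose c' z' hc' hz' h' using fun i => fac1 F hF h0 hd (z i) (hz i)
    let e : Fin (d ^ j) × Fin d ≃ Fin (d ^ (j + 1)) := finProdFinEquiv.trans (finCongr (pow_succ d j).symm)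
    refine ⟨c * ∏ i, c' i, fun i => z' (e.symm i).1 (e.symm i).2, mul_ne_zero hc
      (Finset.prod_ne_zero_iff.2 fun i _ => hc' i), fun i => hz' _ _, fun x => ?_⟩
    rw [Function.iterate_succ_apply, h]
    have h1 : ∏ i, cr (z i) (sp F x) = (∏ i, c' i) * ∏ i, ∏ l, cr (z' i l) x := by
      rw [← Finset.prod_mul_distrib]
      exact Finset.prod_congr rfl fun i _ => h' i x
    rw [h1, ← mul_assoc]
    congr 1
    rw [← Finset.prod_product', Finset.univ_product_univ]
    apply Fintype.prod_equiv e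
    intro p
    simp

include hF h0 in
theorem exists_pre [IsAlgClosed K] (hd : 1 ≤ d) (j : ℕ) (t : Fin 2 → K) (ht : t ≠ 0) :
    ∃ w : Fin 2 → K, w ≠ 0 ∧ cr t ((sp F)^[j] w) = 0 := by
  obtain ⟨c, z, -, hz, h⟩ := fac F hF h0 hd j t ht
  have hpos : 0 < d ^ j := Nat.pow_pos (by omega)
  refine ⟨z ⟨0, hpos⟩, hz _, ?_⟩
  rw [h]
  have h1 : ∏ i, cr (z i) (z ⟨0, hpos⟩) = 0 := Finset.prod_eq_zero (Finset.mem_univ ⟨0, hpos⟩)
    (cr_self _)
  rw [h1, mul_zero]

/-- The point `t` has only one preimage `s`. -/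
def Only (t s : Fin 2 → K) : Prop := ∀ x : Fin 2 → K, x ≠ 0 → cr t (sp F x) = 0 → cr s x = 0

include hF h0 in
theorem only_pow [IsAlgClosed K] (hd : 1 ≤ d) {t s : Fin 2 → K} (ht : t ≠ 0) (hs : s ≠ 0)
    (h : Only F t s) : ∃ c : K, c ≠ 0 ∧ ∀ x, cr t (sp F x) = c * cr s x ^ d := by
  obtain ⟨c, z, hc, hz, hx⟩ := fac1 F hF h0 hd t ht
  have h1 : ∀ i, ∃ a : K, a ≠ 0 ∧ z i = a • s := by
    intro i
    apply par_of_cr hs (hz i)
    apply h (z i) (hz i)
    rw [hx]
    have : ∏ l, cr (z l) (z i) = 0 := Finset.prod_eq_zero (Finset.mem_univ i) (cr_self _)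
    rw [this, mul_zero]
  choose a ha hza using h1
  refine ⟨c * ∏ i, a i, mul_ne_zero hc (Finset.prod_ne_zero_iff.2 fun i _ => ha i), fun x => ?_⟩
  rw [hx]
  have h2 : ∏ i, cr (z i) x = (∏ i, a i) * cr s x ^ d := by
    have h3 : ∀ i, cr (z i) x = a i * cr s x := fun i => by rw [hza i, cr_smul_left]
    rw [Finset.prod_congr rfl fun i _ => h3 i, Finset.prod_mul_distrib, Finset.prod_const,
      Finset.card_univ, Fintype.card_fin]
  rw [h2]
  ring

include hF h0 in
/-- At most two points have only one preimage. -/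
theorem three [IsAlgClosed K] [CharZero K] (hd : 2 ≤ d) {t s : Fin 3 → Fin 2 → K}
    (ht : ∀ i, t i ≠ 0) (hs : ∀ i, s i ≠ 0) (h : ∀ i, Only F (t i) (s i))
    (hn : ∀ i j, i ≠ j → cr (t i) (t j) ≠ 0) : False := by
  choose c hc hx using fun i => only_pow F hF h0 (by omega) (ht i) (hs i) (h i)
  have hts : ∀ i, cr (t i) (sp F (s i)) = 0 := fun i => by
    rw [hx, cr_self, zero_pow (by omega), mul_zero]
  have hsn : ∀ i j, i ≠ j → cr (s i) (s j) ≠ 0 := by
    intro i j hij h1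
    apply hn i j hij
    have h2 := sp_cr F hF (hs i) (hs j) h1
    have h3 : cr (sp F (s j)) (t j) = 0 := by rw [cr_comm, hts j, neg_zero]
    exact cr_trans (sp_ne F h0 (hs j)) (cr_trans (sp_ne F h0 (hs i)) (hts i) h2) h3
  have hΔ := hsn 0 1 (by decide)
  set Δ := cr (s 0) (s 1) with hΔd
  set α := cr (s 2) (s 1) / Δ with hα
  set β := -cr (s 2) (s 0) / Δ with hβ
  have hα0 : α ≠ 0 := div_ne_zero (hsn 2 1 (by decide)) hΔ
  have hβ0 : β ≠ 0 := div_ne_zero (neg_ne_zero.2 (hsn 2 0 (by decide))) hΔ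
  let x : K → Fin 2 → K := fun X i => X / Δ * s 1 i - 1 / Δ * s 0 i
  have hx0 : ∀ X, cr (s 0) (x X) = X := by
    intro X
    have : cr (s 0) (x X) = X / Δ * cr (s 0) (s 1) - 1 / Δ * cr (s 0) (s 0) := by
      simp only [cr, x]; ring
    rw [this, ← hΔd, cr_self]
    field_simp
    ring
  have hx1 : ∀ X, cr (s 1) (x X) = 1 := by
    intro X
    have : cr (s 1) (x X) = X / Δ * cr (s 1) (s 1) + 1 / Δ * cr (s 0) (s 1) := by
      simp only [cr, x]; ring
    rw [this, ← hΔd, cr_self]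
    field_simp
    ring
  have hx2 : ∀ X, cr (s 2) (x X) = α * X + β := by
    intro X
    have : cr (s 2) (x X) = X / Δ * cr (s 2) (s 1) - 1 / Δ * cr (s 2) (s 0) := by
      simp only [cr, x]; ring
    rw [this, hα, hβ]
    field_simp
    ring
  -- the relation
  have hrel : ∀ y : Fin 2 → K, cr (t 0) (t 1) * cr (t 2) y =
      cr (t 2) (t 1) * cr (t 0) y + cr (t 0) (t 2) * cr (t 1) y := by
    intro y
    simp only [cr]
    ring
  have hX : ∀ X : K, cr (t 0) (t 1) * (c 2 * (α * X + β) ^ d) =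
      cr (t 2) (t 1) * (c 0 * X ^ d) + cr (t 0) (t 2) * (c 1 * 1 ^ d) := by
    intro X
    have h1 := hrel (sp F (x X))
    rw [hx 0, hx 1, hx 2, hx0, hx1, hx2] at h1
    exact h1
  have hpoly : Polynomial.C (cr (t 0) (t 1) * c 2) *
      (Polynomial.C α * Polynomial.X + Polynomial.C β) ^ d =
      Polynomial.C (cr (t 2) (t 1) * c 0) * Polynomial.X ^ d +
      Polynomial.C (cr (t 0) (t 2) * c 1) := by
    have : Infinite K := IsAlgClosed.instInfinite
    apply Polynomial.funext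
    intro X
    simp only [Polynomial.eval_mul, Polynomial.eval_C, Polynomial.eval_pow, Polynomial.eval_add,
      Polynomial.eval_X]
    linear_combination hX X
  have hder := congrArg (fun p => (Polynomial.derivative p).eval 0) hpoly
  obtain ⟨e, rfl⟩ : ∃ e, d = e + 2 := ⟨d - 2, by omega⟩
  simp only [Polynomial.derivative_mul, Polynomial.derivative_C, zero_mul, zero_add,
    Polynomial.derivative_pow, Polynomial.derivative_add, Polynomial.derivative_X, mul_one,
    add_zero, Polynomial.eval_mul, Polynomial.eval_C, Polynomial.eval_pow, Polynomial.eval_add,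
    Polynomial.eval_X, mul_zero, Polynomial.derivative_mul] at hder
  have e1 : e + 2 - 1 = e + 1 := by omega
  rw [e1, zero_pow (Nat.succ_ne_zero e)] at hder
  have h3 : cr (t 0) (t 1) * c 2 * (((e + 2 : ℕ) : K) * β ^ (e + 1) * α) = 0 := by
    rw [hder]
    simp
  have h4 : ((e + 2 : ℕ) : K) ≠ 0 := Nat.cast_ne_zero.2 (by omega)
  exact mul_ne_zero (mul_ne_zero (hn 0 1 (by decide)) (hc 2))
    (mul_ne_zero (mul_ne_zero h4 (pow_ne_zero _ hβ0)) hα0) h3

/-- There is no exceptional point. -/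
def NoExc : Prop := ∀ t : Fin 2 → K, t ≠ 0 → ∃ w : Fin 2 → K, w ≠ 0 ∧
  cr t (sp F (sp F w)) = 0 ∧ cr t w ≠ 0

include hF h0 in
/-- The third iterate is nowhere totally ramified. -/
theorem not_total [IsAlgClosed K] [CharZero K] (hd : 2 ≤ d) (hne : NoExc F) (t z : Fin 2 → K)
    (ht : t ≠ 0) (hz : z ≠ 0)
    (h : ∀ x : Fin 2 → K, x ≠ 0 → cr t ((sp F)^[3] x) = 0 → cr z x = 0) : False := by
  set u := sp F z with hu
  set s := sp F u with hs
  have hu0 : u ≠ 0 := sp_ne F h0 hz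
  have hs0 : s ≠ 0 := sp_ne F h0 hu0
  have hst : ∀ n (x y : Fin 2 → K), x ≠ 0 → y ≠ 0 → cr x y = 0 →
      cr ((sp F)^[n] x) ((sp F)^[n] y) = 0 := by
    intro n
    induction n with
    | zero => intro x y _ _ h; exact h
    | succ n ih =>
      intro x y hx hy h
      rw [Function.iterate_succ_apply', Function.iterate_succ_apply']
      exact sp_cr F hF (sp_iter_ne F h0 hx n) (sp_iter_ne F h0 hy n) (ih x y hx hy h)
  -- a point `x` whose `j`-th image is mapped to `t`
  have hkey : ∀ j, j ≤ 3 → ∀ x : Fin 2 → K, x ≠ 0 → cr t ((sp F)^[3 - j] x) = 0 →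
      cr ((sp F)^[j] z) x = 0 := by
    intro j hj x hx hx1
    obtain ⟨w, hw, hw1⟩ := exists_pre F hF h0 (by omega) j x hx
    have h1 := hst (3 - j) x _ hx (sp_iter_ne F h0 hw j) hw1
    rw [← Function.iterate_add_apply, Nat.sub_add_cancel hj] at h1
    have h2 : cr t ((sp F)^[3] w) = 0 := cr_trans (sp_iter_ne F h0 hx _) hx1 h1
    have h3 := hst j z w hz hw (h w hw h2)
    have h4 : cr ((sp F)^[j] w) x = 0 := by rw [cr_comm, hw1, neg_zero]
    exact cr_trans (sp_iter_ne F h0 hw j) h3 h4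
  have o1 : Only F t s := fun x hx hx1 => hkey 2 (by norm_num) x hx hx1
  have hts : cr t (sp F s) = 0 := by
    obtain ⟨w, hw, hw1⟩ := exists_pre F hF h0 (by omega) 1 t ht
    have h1 := o1 w hw hw1
    have h2 := sp_cr F hF hs0 hw h1
    have h3 : cr (sp F w) (sp F s) = 0 := by rw [cr_comm, h2, neg_zero]
    exact cr_trans (sp_ne F h0 hw) hw1 h3
  have o2 : Only F s u := by
    intro x hx hx1
    apply hkey 1 (by norm_num) x hx
    change cr t (sp F (sp F x)) = 0
    exact cr_trans (sp_ne F h0 hs0) hts (sp_cr F hF hs0 (sp_ne F h0 hx) hx1)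
  have o3 : Only F u z := by
    intro x hx hx1
    apply hkey 0 (by norm_num) x hx
    change cr t (sp F (sp F (sp F x))) = 0
    have h1 := sp_cr F hF hu0 (sp_ne F h0 hx) hx1
    have h2 := sp_cr F hF hs0 (sp_ne F h0 (sp_ne F h0 hx)) h1
    exact cr_trans (sp_ne F h0 hs0) hts h2
  by_cases c1 : cr t s = 0
  · obtain ⟨w, hw, hw1, hw2⟩ := hne t ht
    apply hw2
    have h1 := o1 _ (sp_ne F h0 hw) hw1
    have h2 : cr t (sp F w) = 0 := cr_trans hs0 c1 h1
    have h3 := o1 _ hw h2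
    exact cr_trans hs0 c1 h3
  by_cases c2 : cr s u = 0
  · obtain ⟨w, hw, hw1, hw2⟩ := hne s hs0
    apply hw2
    have h1 := o2 _ (sp_ne F h0 hw) hw1
    have h2 : cr s (sp F w) = 0 := cr_trans hu0 c2 h1
    have h3 := o2 _ hw h2
    exact cr_trans hu0 c2 h3
  by_cases c3 : cr t u = 0
  · obtain ⟨w, hw, hw1, hw2⟩ := hne t ht
    apply hw2
    have h1 := o1 _ (sp_ne F h0 hw) hw1
    have h2 := o2 _ hw h1
    exact cr_trans hu0 c3 h2
  have c1' : cr s t ≠ 0 := by rw [cr_comm]; exact neg_ne_zero.2 c1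
  have c2' : cr u s ≠ 0 := by rw [cr_comm]; exact neg_ne_zero.2 c2
  have c3' : cr u t ≠ 0 := by rw [cr_comm]; exact neg_ne_zero.2 c3
  refine three F hF h0 hd (t := ![t, s, u]) (s := ![s, u, z]) ?_ ?_ ?_ ?_
  · intro i; fin_cases i
    · exact ht
    · exact hs0
    · exact hu0
  · intro i; fin_cases i
    · exact hs0
    · exact hu0
    · exact hz
  · intro i; fin_cases i
    · exact o1
    · exact o2
    · exact o3
  · intro i j hij
    fin_cases i <;> fin_cases j <;> first | exact absurd rfl hij | assumption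

include hF h0 in
/-- The third iterate has two different preimages over each point. -/
theorem two_pre [IsAlgClosed K] [CharZero K] (hd : 2 ≤ d) (hne : NoExc F) (t : Fin 2 → K)
    (ht : t ≠ 0) : ∃ (c : K) (z : Fin (d ^ 3) → Fin 2 → K) (a b : Fin (d ^ 3)), c ≠ 0 ∧
      (∀ i, z i ≠ 0) ∧ cr (z a) (z b) ≠ 0 ∧ ∀ x, cr t ((sp F)^[3] x) = c * ∏ i, cr (z i) x := by
  obtain ⟨c, z, hc, hz, h⟩ := fac F hF h0 (by omega) 3 t ht
  by_contra hcon
  push Not at hcon
  have hpos : 0 < d ^ 3 := Nat.pow_pos (by omega)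
  have hall : ∀ a b, cr (z a) (z b) = 0 := by
    intro a b
    by_contra hab
    obtain ⟨x, hx⟩ := hcon c z a b hc hz hab
    exact hx (h x)
  refine not_total F hF h0 hd hne t (z ⟨0, hpos⟩) ht (hz _) fun x hx hx1 => ?_
  rw [h] at hx1
  obtain ⟨i, -, hi⟩ := Finset.prod_eq_zero_iff.1 ((mul_eq_zero.1 hx1).resolve_left hc)
  exact cr_trans (hz i) (hall _ _) hi

end

end Pool.Agent.L5helper26.RO
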