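import Pool.Agent.L5helper26.RO.Ram
import Pool.Agent.R405.PP3
import Pool.Agent.R847.SN.Ext
import Pool.Agent.R847.SN.Fld
import Pool.Agent.R847.HG.Ht

/-!
Points of an orbit of a rational function without exceptional point do not come close to a given
algebraic point (a theorem of Silverman, from Roth's theorem).
-/

set_option autoImplicit false
set_option linter.unusedSectionVars false

open MvPolynomial

namespace Pool.Agent.L5helper26.RO

open NumberField Height Module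
open Pool.Agent.W180.OP (Pl av wt nrm le_nrm nrm_pos nrm_nonneg exists_nrm nrm_le cs cs_nonneg abv_mv)
open Pool.Agent.R847.SN (IsExt exists_gal)
open Pool.Agent.R847.HG (stepR)

variable {k : Type} [Field k] [NumberField k]

/-- The vector over the algebraic closure. -/
noncomputable def up (x : Fin 2 → k) : Fin 2 → AlgebraicClosure k :=
  fun i => algebraMap k (AlgebraicClosure k) (x i)

/-- The distance of `x` and `z`. -/
noncomputable def dl (v : Pl k) (W : AbsoluteValue (AlgebraicClosure k) ℝ)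
    (z : Fin 2 → AlgebraicClosure k) (x : Fin 2 → k) : ℝ := W (cr z (up x)) / nrm (av v) x

theorem up_ne {x : Fin 2 → k} (hx : x ≠ 0) : up x ≠ 0 := by
  intro h
  apply hx
  funext i
  have := congrFun h i
  simpa [up] using this

theorem dl_nonneg (v : Pl k) (W : AbsoluteValue (AlgebraicClosure k) ℝ)
    (z : Fin 2 → AlgebraicClosure k) (x : Fin 2 → k) : 0 ≤ dl v W z x :=
  div_nonneg (W.nonneg _) (nrm_nonneg _ _)

theorem W_up {v : Pl k} {W : AbsoluteValue (AlgebraicClosure k) ℝ} (hW : IsExt v W)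
    (x : Fin 2 → k) (i : Fin 2) : W (up x i) = av v (x i) := hW.1 (x i)

/-- Roth's theorem. -/
theorem roth {v : Pl k} {W : AbsoluteValue (AlgebraicClosure k) ℝ} (hW : IsExt v W)
    (z : Fin 2 → AlgebraicClosure k) (hz : z ≠ 0) :
    ∃ C : ℝ, 0 ≤ C ∧ ∀ x : Fin 2 → k, x ≠ 0 → cr z (up x) ≠ 0 →
      Real.exp (-((3 * logHeight x + C) / wt v)) ≤ dl v W z x := by
  obtain ⟨K, _, _, _, _, φ, hi, hφ⟩ := exists_gal k (Set.range z) (Set.finite_range z)
  choose z' hz' using fun b => hφ (z b) ⟨b, rfl⟩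
  have hgood := hW.2 K φ
  have hwt := Pool.Agent.R405.PP.wt_pos v
  let a : Fin 2 → K := ![-z' 1, z' 0]
  have ha : a ≠ 0 := by
    intro h
    apply hz
    have h0 : -z' 1 = 0 := congrFun h 0
    have h1 : z' 0 = 0 := congrFun h 1
    funext b
    fin_cases b
    · change z 0 = 0
      rw [← hz' 0, h1, map_zero]
    · change z 1 = 0
      rw [← hz' 1, neg_eq_zero.1 h0, map_zero]
  obtain ⟨C, hC0, hC⟩ := Pool.Agent.R405.PP.roth2 hi v _ hgood a ha 1 one_pos
  refine ⟨C, hC0, fun x hx hzx => ?_⟩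
  have h1 : φ (∑ b, a b * algebraMap k K (x b)) = cr z (up x) := by
    rw [Fin.sum_univ_two, map_add, map_mul, map_mul, AlgHom.commutes, AlgHom.commutes]
    change φ (-z' 1) * _ + φ (z' 0) * _ = _
    rw [map_neg, hz', hz']
    simp only [cr, up]
    ring
  have h2 : ∑ b, a b * algebraMap k K (x b) ≠ 0 := by
    intro h
    apply hzx
    rw [← h1, h, map_zero]
  have h3 := hC x hx h2
  have h4 : (W.comp φ.toRingHom.injective) (∑ b, a b * algebraMap k K (x b)) =
      W (cr z (up x)) := by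
    rw [← h1]
    rfl
  rw [h4] at h3
  have hn := nrm_pos (av v) hx
  have hp : 0 < W (cr z (up x)) := W.pos_iff.2 hzx
  rw [dl, ← Real.log_le_log_iff (Real.exp_pos _) (div_pos hp hn), Real.log_exp,
    Real.log_div hp.ne' hn.ne', neg_le, neg_sub, le_div_iff₀ hwt]
  have e3 : (2 : ℝ) + 1 = 3 := by norm_num
  rw [e3] at h3
  linarith

section

variable {d : ℕ} (F : Fin 2 → MvPolynomial (Fin 2) k)

/-- The forms over the algebraic closure. -/
noncomputable def cl : Fin 2 → MvPolynomial (Fin 2) (AlgebraicClosure k) :=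
  fun i => map (algebraMap k (AlgebraicClosure k)) (F i)

theorem sp_up (x : Fin 2 → k) : sp (cl F) (up x) = up (sp F x) := by
  funext i
  change eval (up x) (map (algebraMap k (AlgebraicClosure k)) (F i)) =
    algebraMap k (AlgebraicClosure k) (eval x (F i))
  rw [eval_map]
  exact (eval₂_comp (algebraMap k (AlgebraicClosure k)) x (F i)).symm

theorem sp_iter_up (x : Fin 2 → k) (n : ℕ) : (sp (cl F))^[n] (up x) = up ((sp F)^[n] x) := by
  induction n with
  | zero => rfl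
  | succ n ih => rw [Function.iterate_succ_apply', Function.iterate_succ_apply', ih, sp_up]

theorem sp_eq_stepR (x : Fin 2 → k) : stepR F x = sp F x := by
  funext i
  rw [stepR, sp, aeval_eq_eval]

variable (hF : ∀ i, (F i).IsHomogeneous d)
  (h0 : ∀ x : Fin 2 → AlgebraicClosure k, (∀ i, aeval x (F i) = 0) → x = 0)

include hF in
theorem cl_hom : ∀ i, (cl F i).IsHomogeneous d := fun i => (hF i).map _

include h0 in
theorem cl_zero : ∀ x : Fin 2 → AlgebraicClosure k, (∀ i, eval x (cl F i) = 0) → x = 0 := by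
  intro x hx
  apply h0
  intro i
  have h := hx i
  rw [cl, eval_map] at h
  exact h

include h0 in
theorem base_zero : ∀ x : Fin 2 → k, (∀ i, eval x (F i) = 0) → x = 0 := by
  intro x hx
  by_contra hne
  refine up_ne hne (cl_zero F h0 _ fun i => ?_)
  have h1 := congrFun (sp_up F x) i
  change eval (up x) (cl F i) = algebraMap k (AlgebraicClosure k) (eval x (F i)) at h1
  rw [h1, hx, map_zero]

include hF in
theorem nrm_sp (f : AbsoluteValue k ℝ) : ∃ C : ℝ, 0 < C ∧ ∀ x : Fin 2 → k,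
    nrm f (sp F x) ≤ C * nrm f x ^ d := by
  refine ⟨1 + ∑ i, cs f (F i), ?_, fun x => ?_⟩
  · have : 0 ≤ ∑ i, cs f (F i) := Finset.sum_nonneg fun i _ => cs_nonneg _ _
    linarith
  · have hs : 0 ≤ ∑ i, cs f (F i) := Finset.sum_nonneg fun i _ => cs_nonneg _ _
    refine nrm_le (mul_nonneg (by linarith) (pow_nonneg (nrm_nonneg _ _) _)) fun i => ?_
    refine (abv_mv f (F i) (hF i) x).trans ?_
    refine mul_le_mul_of_nonneg_right ?_ (pow_nonneg (nrm_nonneg _ _) _)
    have := Finset.single_le_sum (f := fun i => cs f (F i)) (fun i _ => cs_nonneg _ _)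
      (Finset.mem_univ i)
    have h2 : cs f (F i) ≤ ∑ i, cs f (F i) := this
    linarith

include hF in
theorem nrm_sp_iter (f : AbsoluteValue k ℝ) (j : ℕ) : ∃ C : ℝ, 0 < C ∧ ∀ x : Fin 2 → k,
    nrm f ((sp F)^[j] x) ≤ C * nrm f x ^ (d ^ j) := by
  induction j with
  | zero => exact ⟨1, one_pos, fun x => by rw [pow_zero, pow_one, one_mul]; rfl⟩
  | succ j ih =>
    obtain ⟨C, hC, h⟩ := ih
    obtain ⟨C', hC', h'⟩ := nrm_sp F hF f
    refine ⟨C' * C ^ d, by positivity, fun x => ?_⟩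
    rw [Function.iterate_succ_apply']
    calc nrm f (sp F ((sp F)^[j] x)) ≤ C' * nrm f ((sp F)^[j] x) ^ d := h' _
      _ ≤ C' * (C * nrm f x ^ (d ^ j)) ^ d := by
          gcongr
          · exact nrm_nonneg _ _
          · exact h x
      _ = C' * C ^ d * nrm f x ^ (d ^ (j + 1)) := by
          rw [mul_pow, ← pow_mul, ← pow_succ, mul_assoc]

/-- A point is not close to two different points. -/
theorem not_both {v : Pl k} {W : AbsoluteValue (AlgebraicClosure k) ℝ} (hW : IsExt v W)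
    (a b : Fin 2 → AlgebraicClosure k) (hab : cr a b ≠ 0) : ∃ c : ℝ, 0 < c ∧
      ∀ x : Fin 2 → k, x ≠ 0 → c ≤ dl v W a x ∨ c ≤ dl v W b x := by
  set M : ℝ := 1 + (W (a 0) + W (a 1)) + (W (b 0) + W (b 1)) with hM
  have hMa : ∀ i, W (a i) ≤ M := by
    intro i
    have := W.nonneg (a 0); have := W.nonneg (a 1)
    have := W.nonneg (b 0); have := W.nonneg (b 1)
    fin_cases i
    · change W (a 0) ≤ M
      linarith
    · change W (a 1) ≤ M
      linarith
  have hMb : ∀ i, W (b i) ≤ M := by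
    intro i
    have := W.nonneg (a 0); have := W.nonneg (a 1)
    have := W.nonneg (b 0); have := W.nonneg (b 1)
    fin_cases i
    · change W (b 0) ≤ M
      linarith
    · change W (b 1) ≤ M
      linarith
  have hM0 : 0 < M := by
    have := W.nonneg (a 0); have := W.nonneg (a 1)
    have := W.nonneg (b 0); have := W.nonneg (b 1)
    linarith
  have hp : 0 < W (cr a b) := W.pos_iff.2 hab
  refine ⟨W (cr a b) / (2 * M), by positivity, fun x hx => ?_⟩
  have hn := nrm_pos (av v) hx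
  obtain ⟨i, hi⟩ := exists_nrm (av v) (by norm_num : 0 < 2) x
  have hid : cr a b * up x i = b i * cr a (up x) - a i * cr b (up x) := by
    fin_cases i
    · change cr a b * up x 0 = b 0 * cr a (up x) - a 0 * cr b (up x)
      simp only [cr]; ring
    · change cr a b * up x 1 = b 1 * cr a (up x) - a 1 * cr b (up x)
      simp only [cr]; ring
  have h1 : W (cr a b) * nrm (av v) x ≤ M * W (cr a (up x)) + M * W (cr b (up x)) := by
    rw [← hi, ← W_up hW, ← map_mul, hid]
    refine (W.sub_le_add _ _).trans ?_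
    rw [map_mul, map_mul]
    exact add_le_add (mul_le_mul_of_nonneg_right (hMb i) (W.nonneg _))
      (mul_le_mul_of_nonneg_right (hMa i) (W.nonneg _))
  by_contra hcon
  push Not at hcon
  obtain ⟨h2, h3⟩ := hcon
  rw [dl, div_lt_div_iff₀ hn (by positivity)] at h2 h3
  nlinarith

include hF h0 in
theorem step3 (hd : 2 ≤ d) (hne : NoExc (cl F)) {v : Pl k}
    {W : AbsoluteValue (AlgebraicClosure k) ℝ} (hW : IsExt v W)
    (t : Fin 2 → AlgebraicClosure k) (ht : t ≠ 0) :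
    ∃ (c : ℝ) (Z : Finset (Fin 2 → AlgebraicClosure k)), 0 < c ∧ (∀ z ∈ Z, z ≠ 0) ∧
      ∀ x : Fin 2 → k, x ≠ 0 → ∃ z ∈ Z, c * dl v W z x ^ (d ^ 3 - 1) ≤
        dl v W t ((sp F)^[3] x) := by
  classical
  obtain ⟨e, z, a, b, he, hz, hab, hfac⟩ := two_pre (cl F) (cl_hom F hF) (cl_zero F h0) hd hne t ht
  obtain ⟨c2, hc2, hnb⟩ := not_both hW (z a) (z b) hab
  obtain ⟨C, hC, hup⟩ := nrm_sp_iter F hF (av v) 3
  have hep : 0 < W e := W.pos_iff.2 he
  refine ⟨W e / C * c2, Finset.univ.image z, by positivity, fun y hy => ?_, fun x hx => ?_⟩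
  · obtain ⟨i, -, rfl⟩ := Finset.mem_image.1 hy
    exact hz i
  have hn := nrm_pos (av v) hx
  have hn3 : 0 < nrm (av v) ((sp F)^[3] x) :=
    nrm_pos (av v) (sp_iter_ne F (base_zero F h0) hx 3)
  have hpos : 0 < d ^ 3 := Nat.pow_pos (by omega)
  have hne' : (Finset.univ : Finset (Fin (d ^ 3))).Nonempty := ⟨⟨0, hpos⟩, Finset.mem_univ _⟩
  obtain ⟨i0, -, hi0⟩ := Finset.exists_min_image Finset.univ (fun i => dl v W (z i) x) hne'
  refine ⟨z i0, Finset.mem_image_of_mem _ (Finset.mem_univ _), ?_⟩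
  -- the product
  have h1 : dl v W t ((sp F)^[3] x) * nrm (av v) ((sp F)^[3] x) =
      W e * ((∏ i, dl v W (z i) x) * nrm (av v) x ^ (d ^ 3)) := by
    rw [dl, div_mul_cancel₀ _ hn3.ne', ← sp_iter_up, hfac, map_mul, map_prod]
    congr 1
    have h2 : ∀ i, W (cr (z i) (up x)) = dl v W (z i) x * nrm (av v) x := fun i => by
      rw [dl, div_mul_cancel₀ _ hn.ne']
    rw [Finset.prod_congr rfl fun i _ => h2 i, Finset.prod_mul_distrib, Finset.prod_const,
      Finset.card_univ, Fintype.card_fin]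
  have h2 : W e / C * ∏ i, dl v W (z i) x ≤ dl v W t ((sp F)^[3] x) := by
    have h3 := hup x
    have h4 : 0 ≤ ∏ i, dl v W (z i) x := Finset.prod_nonneg fun i _ => dl_nonneg _ _ _ _
    have h5 : 0 ≤ dl v W t ((sp F)^[3] x) := dl_nonneg _ _ _ _
    have h6 : dl v W t ((sp F)^[3] x) * nrm (av v) ((sp F)^[3] x) ≤
        dl v W t ((sp F)^[3] x) * (C * nrm (av v) x ^ (d ^ 3)) :=
      mul_le_mul_of_nonneg_left h3 h5
    rw [h1] at h6
    have h7 : 0 < nrm (av v) x ^ (d ^ 3) := by positivity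
    rw [div_mul_eq_mul_div, div_le_iff₀ hC]
    refine le_of_mul_le_mul_right ?_ h7
    linarith
  refine le_trans ?_ h2
  rw [mul_assoc]
  refine mul_le_mul_of_nonneg_left ?_ (by positivity)
  -- one factor is large
  obtain ⟨i1, hi1⟩ : ∃ i1, c2 ≤ dl v W (z i1) x := by
    rcases hnb x hx with h | h
    · exact ⟨a, h⟩
    · exact ⟨b, h⟩
  rw [← Finset.mul_prod_erase Finset.univ _ (Finset.mem_univ i1)]
  refine mul_le_mul hi1 ?_ (pow_nonneg (dl_nonneg _ _ _ _) _) (dl_nonneg _ _ _ _)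
  have h3 : (Finset.univ.erase i1).card = d ^ 3 - 1 := by
    rw [Finset.card_erase_of_mem (Finset.mem_univ _), Finset.card_univ, Fintype.card_fin]
  rw [← h3, ← Finset.prod_const]
  exact Finset.prod_le_prod (fun i _ => dl_nonneg _ _ _ _) fun i _ => hi0 i (Finset.mem_univ _)

include hF h0 in
theorem step_iter (hd : 2 ≤ d) (hne : NoExc (cl F)) {v : Pl k}
    {W : AbsoluteValue (AlgebraicClosure k) ℝ} (hW : IsExt v W) (j : ℕ) :
    ∀ (t : Fin 2 → AlgebraicClosure k), t ≠ 0 →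
    ∃ (c : ℝ) (Z : Finset (Fin 2 → AlgebraicClosure k)), 0 < c ∧ (∀ z ∈ Z, z ≠ 0) ∧
      ∀ x : Fin 2 → k, x ≠ 0 → ∃ z ∈ Z, c * dl v W z x ^ ((d ^ 3 - 1) ^ j) ≤
        dl v W t ((sp F)^[3 * j] x) := by
  classical
  induction j with
  | zero =>
    intro t ht
    refine ⟨1, {t}, one_pos, fun z hz => ?_, fun x _ => ⟨t, Finset.mem_singleton_self t, ?_⟩⟩
    · rw [Finset.mem_singleton.1 hz]
      exact ht
    · simp
  | succ j ih =>
    intro t ht
    obtain ⟨c, Z, hc, hZ, h⟩ := ih t ht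
    have h3 : ∀ z : Fin 2 → AlgebraicClosure k, ∃ (c : ℝ)
        (Z : Finset (Fin 2 → AlgebraicClosure k)), 0 < c ∧ (∀ z ∈ Z, z ≠ 0) ∧
        (z ≠ 0 → ∀ x : Fin 2 → k, x ≠ 0 → ∃ w ∈ Z, c * dl v W w x ^ (d ^ 3 - 1) ≤
        dl v W z ((sp F)^[3] x)) := by
      intro z
      by_cases hz : z = 0
      · exact ⟨1, ∅, one_pos, fun z hz => absurd hz (Finset.notMem_empty _),
          fun h => absurd hz h⟩
      · obtain ⟨c, Z, hc, hZ, h⟩ := step3 F hF h0 hd hne hW z hz
        exact ⟨c, Z, hc, hZ, fun _ => h⟩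
    choose c' Z' hc' hZ' h' using h3
    -- the minimum of the constants
    obtain ⟨m, hm, hmin⟩ : ∃ m : ℝ, 0 < m ∧ ∀ z ∈ Z, m ≤ c' z := by
      rcases Z.eq_empty_or_nonempty with rfl | hne'
      · exact ⟨1, one_pos, fun z hz => absurd hz (Finset.notMem_empty _)⟩
      · obtain ⟨z0, hz0, hm⟩ := Finset.exists_min_image Z c' hne'
        exact ⟨c' z0, hc' z0, hm⟩
    set N := (d ^ 3 - 1) ^ j with hN
    refine ⟨c * m ^ N, Z.biUnion Z', by positivity, fun w hw => ?_, fun x hx => ?_⟩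
    · obtain ⟨z, -, hw⟩ := Finset.mem_biUnion.1 hw
      exact hZ' z w hw
    · obtain ⟨z, hz, h1⟩ := h ((sp F)^[3] x) (sp_iter_ne F (base_zero F h0) hx 3)
      obtain ⟨w, hw, h2⟩ := h' z (hZ z hz) x hx
      refine ⟨w, Finset.mem_biUnion.2 ⟨z, hz, hw⟩, ?_⟩
      have e1 : 3 * (j + 1) = 3 * j + 3 := by ring
      rw [e1, Function.iterate_add_apply]
      refine le_trans ?_ h1
      rw [mul_assoc]
      refine mul_le_mul_of_nonneg_left ?_ hc.le
      have h4 : m * dl v W w x ^ (d ^ 3 - 1) ≤ dl v W z ((sp F)^[3] x) :=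
        (mul_le_mul_of_nonneg_right (hmin z hz) (pow_nonneg (dl_nonneg _ _ _ _) _)).trans h2
      calc m ^ N * dl v W w x ^ ((d ^ 3 - 1) ^ (j + 1)) = (m * dl v W w x ^ (d ^ 3 - 1)) ^ N := by
            rw [mul_pow, ← pow_mul, pow_succ, hN, mul_comm ((d ^ 3 - 1) ^ j)]
        _ ≤ _ := pow_le_pow_left₀ (mul_nonneg hm.le (pow_nonneg (dl_nonneg _ _ _ _) _)) h4 N

include hF in
theorem height_upper (hd : 2 ≤ d) (x : Fin 2 → k) : ∃ A : ℝ, 0 < A ∧ ∀ n : ℕ,
    logHeight ((sp F)^[n] x) ≤ A * d ^ n := by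
  obtain ⟨C, hC⟩ := logHeight_eval_le' hF
  have hdR : (2 : ℝ) ≤ d := by exact_mod_cast hd
  refine ⟨logHeight x + |C| + 1, by have := logHeight_nonneg x; positivity, fun n => ?_⟩
  have h1 : ∀ n : ℕ, logHeight ((sp F)^[n] x) + |C| ≤ (logHeight x + |C|) * d ^ n := by
    intro n
    induction n with
    | zero => simp
    | succ n ih =>
      rw [Function.iterate_succ_apply']
      have h2 := hC ((sp F)^[n] x)
      have h3 : (fun j => eval ((sp F)^[n] x) (F j)) = sp F ((sp F)^[n] x) := rfl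
      rw [h3] at h2
      have h4 := le_abs_self C
      have h5 := abs_nonneg C
      have h6 : (d : ℝ) * (logHeight ((sp F)^[n] x) + |C|) ≤
          d * ((logHeight x + |C|) * d ^ n) := mul_le_mul_of_nonneg_left ih (by linarith)
      have h7 : (d : ℝ) * ((logHeight x + |C|) * d ^ n) = (logHeight x + |C|) * d ^ (n + 1) := by
        rw [pow_succ]; ring
      nlinarith
  have h2 := h1 n
  have h3 := abs_nonneg C
  have h4 : (0 : ℝ) < (d : ℝ) ^ n := by positivity
  nlinarith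

include hF h0 in
/-- Silverman's theorem, for one place. -/
theorem sil (hd : 2 ≤ d) (hne : NoExc (cl F)) {v : Pl k}
    {W : AbsoluteValue (AlgebraicClosure k) ℝ} (hW : IsExt v W) (x : Fin 2 → k) (hx : x ≠ 0)
    (hpar : ∀ n m, n ≠ m → cr ((sp F)^[n] x) ((sp F)^[m] x) ≠ 0)
    (t : Fin 2 → AlgebraicClosure k) (ht : t ≠ 0) (ε : ℝ) (hε : 0 < ε) :
    ∃ n0 : ℕ, ∀ n, n0 ≤ n → Real.exp (-(ε * d ^ n)) ≤ dl v W t ((sp F)^[n] x) := by
  classical
  have hwt := Pool.Agent.R405.PP.wt_pos v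
  have hdR : (2 : ℝ) ≤ d := by exact_mod_cast hd
  obtain ⟨A, hA, hup⟩ := height_upper F hF hd x
  have hxn : ∀ n, (sp F)^[n] x ≠ 0 := fun n => sp_iter_ne F (base_zero F h0) hx n
  -- the depth
  have hd3 : 1 ≤ d ^ 3 := Nat.one_le_pow _ _ (by omega)
  set ρ : ℝ := ((d ^ 3 - 1 : ℕ) : ℝ) / ((d : ℝ) ^ 3) with hρ
  have hρ0 : 0 ≤ ρ := by positivity
  have hρ1 : ρ < 1 := by
    rw [hρ, div_lt_one (by positivity), Nat.cast_sub hd3]
    push_cast
    linarith
  obtain ⟨j, hj⟩ : ∃ j : ℕ, ρ ^ j < ε / 2 / (3 * A / wt v) :=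
    exists_pow_lt_of_lt_one (by positivity) hρ1
  obtain ⟨c, Z, hc, hZ, hstep⟩ := step_iter F hF h0 hd hne hW j t ht
  -- Roth's theorem for the preimages
  have hR : ∀ z : Fin 2 → AlgebraicClosure k, ∃ C : ℝ, 0 ≤ C ∧ (z ≠ 0 → ∀ x : Fin 2 → k, x ≠ 0 →
      cr z (up x) ≠ 0 → Real.exp (-((3 * logHeight x + C) / wt v)) ≤ dl v W z x) := by
    intro z
    by_cases hz : z = 0
    · exact ⟨0, le_rfl, fun h => absurd hz h⟩
    · obtain ⟨C, hC, h⟩ := roth hW z hz
      exact ⟨C, hC, fun _ => h⟩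
  choose C hC hroth using hR
  set C' : ℝ := ∑ z ∈ Z, C z with hC'
  have hC'0 : 0 ≤ C' := Finset.sum_nonneg fun z _ => hC z
  have hCle : ∀ z ∈ Z, C z ≤ C' := fun z hz =>
    Finset.single_le_sum (f := C) (fun z _ => hC z) hz
  -- the points are not equal to the preimages from some time on
  have hev : ∀ z : Fin 2 → AlgebraicClosure k, ∃ m0 : ℕ, z ≠ 0 → ∀ m, m0 ≤ m →
      cr z (up ((sp F)^[m] x)) ≠ 0 := by
    intro z
    by_cases hex : ∃ m, cr z (up ((sp F)^[m] x)) = 0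
    · obtain ⟨m1, hm1⟩ := hex
      refine ⟨m1 + 1, fun hz m hm h => ?_⟩
      have h1 : cr (up ((sp F)^[m1] x)) z = 0 := by rw [cr_comm, hm1, neg_zero]
      have h2 := cr_trans hz h1 h
      apply hpar m1 m (by omega)
      apply (algebraMap k (AlgebraicClosure k)).injective
      rw [map_zero, ← h2]
      simp only [cr, up, map_sub, map_mul]
    · push Not at hex
      exact ⟨0, fun _ m _ => hex m⟩
  choose m0 hm0 using hev
  set M0 : ℕ := ∑ z ∈ Z, m0 z with hM0
  have hMle : ∀ z ∈ Z, m0 z ≤ M0 := fun z hz =>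
    Finset.single_le_sum (f := m0) (fun z _ => Nat.zero_le _) hz
  set N : ℕ := (d ^ 3 - 1) ^ j with hN
  -- the error terms
  obtain ⟨n1, hn1⟩ : ∃ n1 : ℕ, (N * C' / wt v - Real.log c) / (ε / 2) ≤ n1 := exists_nat_ge _
  refine ⟨3 * j + M0 + n1, fun n hn => ?_⟩
  obtain ⟨m, rfl⟩ : ∃ m, n = 3 * j + m := ⟨n - 3 * j, by omega⟩
  obtain ⟨z, hz, h1⟩ := hstep ((sp F)^[m] x) (hxn m)
  rw [← Function.iterate_add_apply] at h1
  have h2 := hroth z (hZ z hz) ((sp F)^[m] x) (hxn m)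
    (hm0 z (hZ z hz) m (by have := hMle z hz; omega))
  have h3 : Real.exp (-((3 * (A * d ^ m) + C') / wt v)) ≤ dl v W z ((sp F)^[m] x) := by
    refine le_trans (Real.exp_le_exp.2 ?_) h2
    have h4 := hup m
    have h5 := hCle z hz
    rw [neg_le_neg_iff]
    gcongr
  refine le_trans ?_ h1
  have h4 : c * Real.exp (-((3 * (A * d ^ m) + C') / wt v)) ^ N ≤
      c * dl v W z ((sp F)^[m] x) ^ N := by gcongr
  refine le_trans ?_ h4
  rw [← Real.exp_nat_mul, ← Real.exp_log hc, ← Real.exp_add, Real.exp_le_exp]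
  -- compare
  have h5 : (N : ℝ) * (3 * A / wt v) * d ^ m ≤ ε / 2 * d ^ (3 * j + m) := by
    have e1 : (N : ℝ) = ρ ^ j * (d : ℝ) ^ (3 * j) := by
      rw [hN, hρ, div_pow, pow_mul, ← pow_mul]
      push_cast
      field_simp
    rw [e1, pow_add]
    have e2 : ρ ^ j * (3 * A / wt v) ≤ ε / 2 := by
      have h6 : 0 < 3 * A / wt v := by positivity
      exact ((lt_div_iff₀ h6).1 hj).le
    have e3 : (0 : ℝ) ≤ (d : ℝ) ^ (3 * j) * d ^ m := by positivity
    calc ρ ^ j * (d : ℝ) ^ (3 * j) * (3 * A / wt v) * d ^ m =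
        ρ ^ j * (3 * A / wt v) * ((d : ℝ) ^ (3 * j) * d ^ m) := by ring
      _ ≤ ε / 2 * ((d : ℝ) ^ (3 * j) * d ^ m) := mul_le_mul_of_nonneg_right e2 e3
  have h6 : N * C' / wt v - Real.log c ≤ ε / 2 * d ^ (3 * j + m) := by
    have h7 : ((n1 : ℕ) : ℝ) ≤ (d : ℝ) ^ (3 * j + m) := by
      have h8 : n1 ≤ 3 * j + m := by omega
      have h9 : 3 * j + m < d ^ (3 * j + m) := Nat.lt_pow_self (by omega)
      have h10 : n1 ≤ d ^ (3 * j + m) := by omega
      exact_mod_cast h10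
    have h8 := hn1.trans h7
    rw [div_le_iff₀ (by positivity)] at h8
    linarith
  have h7 : (N : ℝ) * -((3 * (A * d ^ m) + C') / wt v) =
      -((N : ℝ) * (3 * A / wt v) * d ^ m) - N * C' / wt v := by
    field_simp
    ring
  rw [h7]
  have h8 : ε * (d : ℝ) ^ (3 * j + m) = ε / 2 * d ^ (3 * j + m) + ε / 2 * d ^ (3 * j + m) := by
    ring
  rw [h8]
  linarith

end

end Pool.Agent.L5helper26.RO
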