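import Pool.Agent.L5helper26.RO.Mk

/-!
Change of the field.
-/

set_option autoImplicit false
set_option linter.unusedSectionVars false

open MvPolynomial

namespace Pool.Agent.L5helper26.RO

variable {L M : Type} [Field L] [Field M] (j : L →+* M)

theorem fac1_poly {d : ℕ} (F : Fin 2 → MvPolynomial (Fin 2) L) (hF : ∀ i, (F i).IsHomogeneous d)
    (h0 : ∀ x : Fin 2 → L, (∀ i, eval x (F i) = 0) → x = 0) [IsAlgClosed L] (hd : 1 ≤ d)
    (t : Fin 2 → L) (ht : t ≠ 0) :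
    ∃ (c : L) (z : Fin d → Fin 2 → L), c ≠ 0 ∧ (∀ i, z i ≠ 0) ∧
      (C (t 0) * F 1 - C (t 1) * F 0 : MvPolynomial (Fin 2) L) =
        C c * ∏ i, (C (z i 0) * X 1 - C (z i 1) * X 0) := by
  have hP : (C (t 0) * F 1 - C (t 1) * F 0 : MvPolynomial (Fin 2) L).IsHomogeneous d := by
    have h1 := (isHomogeneous_C (Fin 2) (t 0)).mul (hF 1)
    have h2 := (isHomogeneous_C (Fin 2) (t 1)).mul (hF 0)
    rw [zero_add] at h1 h2
    exact h1.sub h2
  have hP0 : (C (t 0) * F 1 - C (t 1) * F 0 : MvPolynomial (Fin 2) L) ≠ 0 := by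
    intro h
    obtain ⟨k, hk⟩ := Function.ne_iff.1 ht
    have hk : t k ≠ 0 := hk
    obtain ⟨x, hx, hx0⟩ := exists_zero2 (hF k) hd
    have h1 : cr t (sp F x) = 0 := by
      have e : eval x (C (t 0) * F 1 - C (t 1) * F 0 : MvPolynomial (Fin 2) L) = cr t (sp F x) := by
        simp [cr, sp]
      rw [← e, h, map_zero]
    obtain ⟨c, hc, hc'⟩ := par_of_cr ht (sp_ne F h0 hx) h1
    have h2 := congrFun hc' k
    change eval x (F k) = c * t k at h2
    rw [hx0] at h2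
    exact mul_ne_zero hc hk h2.symm
  obtain ⟨c, z, hz, h⟩ := bin_fact d _ hP
  refine ⟨c, z, ?_, hz, h⟩
  rintro rfl
  apply hP0
  rw [h, C_0, zero_mul]

/-- The forms over the larger field. -/
noncomputable def mp (F : Fin 2 → MvPolynomial (Fin 2) L) : Fin 2 → MvPolynomial (Fin 2) M :=
  fun i => map j (F i)

theorem cr_map (x y : Fin 2 → L) : cr (j ∘ x) (j ∘ y) = j (cr x y) := by
  simp only [cr, Function.comp_apply, map_sub, map_mul]

theorem sp_map (F : Fin 2 → MvPolynomial (Fin 2) L) (x : Fin 2 → L) :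
    sp (mp j F) (j ∘ x) = j ∘ sp F x := by
  funext i
  change eval (j ∘ x) (map j (F i)) = j (eval x (F i))
  rw [eval_map]
  exact (eval₂_comp j x (F i)).symm

theorem comp_ne {x : Fin 2 → L} (hx : x ≠ 0) : j ∘ x ≠ 0 := by
  intro h
  apply hx
  funext i
  have := congrFun h i
  change j (x i) = 0 at this
  exact (map_eq_zero j).1 this

theorem zero_of_map (F : Fin 2 → MvPolynomial (Fin 2) L)
    (h0 : ∀ x : Fin 2 → M, (∀ i, eval x (mp j F i) = 0) → x = 0) :
    ∀ x : Fin 2 → L, (∀ i, eval x (F i) = 0) → x = 0 := by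
  intro x hx
  by_contra hne
  apply comp_ne j hne
  apply h0
  intro i
  have h1 := congrFun (sp_map j F x) i
  change eval (j ∘ x) (mp j F i) = j (eval x (F i)) at h1
  rw [h1, hx i, map_zero]

theorem noExc_of_map {d : ℕ} (F : Fin 2 → MvPolynomial (Fin 2) L)
    (hF : ∀ i, (F i).IsHomogeneous d)
    (h0 : ∀ x : Fin 2 → M, (∀ i, eval x (mp j F i) = 0) → x = 0) [IsAlgClosed L] (hd : 1 ≤ d)
    (h : NoExc (mp j F)) : NoExc F := by
  have h0' := zero_of_map j F h0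
  have key : ∀ (t : Fin 2 → L), t ≠ 0 → ∀ y : Fin 2 → M, cr (j ∘ t) (sp (mp j F) y) = 0 →
      ∃ z : Fin 2 → L, z ≠ 0 ∧ cr t (sp F z) = 0 ∧ cr (j ∘ z) y = 0 := by
    intro t ht y hy
    obtain ⟨c, z, hc, hz, hfac⟩ := fac1_poly F hF h0' hd t ht
    have h1 := congrArg (eval y) (congrArg (map j) hfac)
    simp only [map_sub, map_mul, map_C, map_prod, eval_C, eval_X, map_X] at h1
    have h2 : cr (j ∘ t) (sp (mp j F) y) = j c * ∏ i, cr (j ∘ z i) y := h1
    rw [hy] at h2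
    obtain ⟨i, -, hi⟩ := Finset.prod_eq_zero_iff.1
      ((mul_eq_zero.1 h2.symm).resolve_left ((map_ne_zero j).2 hc))
    refine ⟨z i, hz i, ?_, hi⟩
    have h3 := congrArg (eval (z i)) hfac
    simp only [map_sub, map_mul, map_prod, eval_C, eval_X] at h3
    have h4 : cr t (sp F (z i)) = c * ∏ l, cr (z l) (z i) := h3
    rw [h4, Finset.prod_eq_zero (Finset.mem_univ i) (cr_self _), mul_zero]
  intro t ht
  obtain ⟨w, hw, hw1, hw2⟩ := h (j ∘ t) (comp_ne j ht)
  obtain ⟨z, hz, hz1, hz2⟩ := key t ht _ hw1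
  obtain ⟨u, hu, hu1, hu2⟩ := key z hz _ hz2
  refine ⟨u, hu, ?_, fun h1 => hw2 ?_⟩
  · have h3 := sp_cr F hF hz (sp_ne F h0' hu) hu1
    exact cr_trans (sp_ne F h0' hz) hz1 h3
  · have h3 : cr (j ∘ t) (j ∘ u) = 0 := by rw [cr_map, h1, map_zero]
    exact cr_trans (comp_ne j hu) h3 hu2

end Pool.Agent.L5helper26.RO
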